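import Pool.Agent.Lib.LU2_h15z.Zero

/-! # LU2: the real case -/

set_option autoImplicit false

namespace Pool.Agent.LU2

open Pool.Agent.H15JM (RVal)
open Pool.Agent.LU2G

universe u

/-- The real case: all valuation rings of rank one and of defect at most one of function fields
over a perfect field of positive characteristic. -/
theorem realCaseR {k : Type u} [Field k] [PerfectField k] (p : ℕ) (hp : p.Prime) [CharP k p] :
    RealCaseR k := by
  intro K _ _ hK V hk hR hD
  obtain ⟨v, r, s, x, z, h⟩ := exists_entry hK hk hR hD
  rcases h.trdeg with h0 | h1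
  · exact h.lur_zero p hp hK h0
  · have htr : Algebra.trdeg k K = r + 1 + s := by
      have h2 := trdeg_coeff (resInd_algInd h.z_val)
      rw [h1] at h2
      rw [← h2]
      ring
    exact LD.lur p hp hK h.rel
      ⟨h.rpos, h.x_ne, h.ind, h.span, h.z_val, h.res, htr⟩

end Pool.Agent.LU2
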