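import Pool.Agent.Lib.LU2_h15.RankOneBC
import Pool.Agent.Lib.LU2_h15.AbhA
import Pool.Agent.Lib.LU2_base.Basic

/-! # LU2, entry: from a valuation ring of rank one to a real valuation, the coefficient field
`k(z)` and elements with independent values -/

set_option autoImplicit false

namespace Pool.Agent.LU2

open Pool.Agent.H15JM (RVal)
open Pool.Agent.LU1 (VPos)
open Polynomial

universe u

variable {k K : Type u} [Field k] [Field K] [Algebra k K]

/-- `V` is the valuation ring of `v`. -/
def Rel (V : ValuationSubring K) (v : RVal K) : Prop := ∀ f : K, f ≠ 0 → (f ∈ V ↔ 0 ≤ v f)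

namespace Rel

variable {V : ValuationSubring K} {v : RVal K}

theorem mem_iff (h : Rel V v) (f : K) : f ∈ V ↔ v.Ge 0 f := by
  by_cases hf : f = 0
  · subst hf
    exact ⟨fun _ => RVal.Ge.zero, fun _ => V.zero_mem⟩
  · rw [h f hf]
    exact ⟨fun h1 _ => h1, fun h1 => h1 hf⟩

theorem le_iff (h : Rel V v) {f g : K} (hf : f ≠ 0) (hg : g ≠ 0) :
    V.valuation f ≤ V.valuation g ↔ v g ≤ v f := by
  have h1 : V.valuation f ≤ V.valuation g ↔ V.valuation (f / g) ≤ 1 := by
    rw [map_div₀, div_le_one₀ ((Valuation.pos_iff _).2 hg)]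
  rw [h1, V.valuation_le_one_iff, h _ (div_ne_zero hf hg), v.map_div hf hg, sub_nonneg]

theorem lt_iff (h : Rel V v) {f g : K} (hf : f ≠ 0) (hg : g ≠ 0) :
    V.valuation f < V.valuation g ↔ v g < v f := by
  rw [← not_le, ← not_le, h.le_iff hg hf]

theorem eq_iff (h : Rel V v) {f g : K} (hf : f ≠ 0) (hg : g ≠ 0) :
    V.valuation f = V.valuation g ↔ v f = v g := by
  rw [le_antisymm_iff, le_antisymm_iff, h.le_iff hf hg, h.le_iff hg hf, and_comm]

theorem one_le_iff (h : Rel V v) {f : K} (hf : f ≠ 0) : 1 ≤ V.valuation f ↔ v f ≤ 0 := by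
  rw [← map_one V.valuation, h.le_iff one_ne_zero hf, v.map_one]

theorem le_one_iff (h : Rel V v) {f : K} (hf : f ≠ 0) : V.valuation f ≤ 1 ↔ 0 ≤ v f := by
  rw [← map_one V.valuation, h.le_iff hf one_ne_zero, v.map_one]

theorem lt_one_iff (h : Rel V v) {f : K} (hf : f ≠ 0) : V.valuation f < 1 ↔ 0 < v f := by
  rw [← map_one V.valuation, h.lt_iff hf one_ne_zero, v.map_one]

theorem eq_one_iff (h : Rel V v) {f : K} (hf : f ≠ 0) : V.valuation f = 1 ↔ v f = 0 := by
  rw [← map_one V.valuation, h.eq_iff hf one_ne_zero, v.map_one]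

theorem lt_one_iff' (h : Rel V v) (f : K) : V.valuation f < 1 ↔ VPos v f := by
  by_cases hf : f = 0
  · subst hf
    simp [VPos]
  · rw [h.lt_one_iff hf]
    exact ⟨fun h1 _ => h1, fun h1 => h1 hf⟩

theorem le_one_iff' (h : Rel V v) (f : K) : V.valuation f ≤ 1 ↔ v.Ge 0 f := by
  rw [V.valuation_le_one_iff, h.mem_iff]

theorem val_prod (v : RVal K) {ι : Type*} [Fintype ι] {x : ι → K} (hx : ∀ i, x i ≠ 0)
    (e : ι → ℤ) : v (∏ i, x i ^ e i) = ∑ i, e i • v (x i) := by
  rw [v.map_prod _ _ (fun i _ => zpow_ne_zero _ (hx i))]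
  exact Finset.sum_congr rfl fun i _ => by rw [v.map_zpow (hx i), zsmul_eq_mul]

theorem indVal_iff (h : Rel V v) {ι : Type*} [Fintype ι] {x : ι → K} :
    IndVal V x ↔ (∀ i, x i ≠ 0) ∧ LinearIndependent ℚ fun i => v (x i) := by
  constructor
  · intro hx
    refine ⟨hx.1, ?_⟩
    rw [← LinearIndependent.iff_fractionRing ℤ ℚ, Fintype.linearIndependent_iff]
    intro g hg
    have h1 := hx.fun_eq g (by
      rw [h.eq_one_iff (Finset.prod_ne_zero_iff.2 fun i _ => zpow_ne_zero _ (hx.1 i)),
        val_prod v hx.1]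
      exact hg)
    intro i
    exact congrFun h1 i
  · rintro ⟨hx, hi⟩
    refine ⟨hx, fun e he => ?_⟩
    rw [← LinearIndependent.iff_fractionRing ℤ ℚ, Fintype.linearIndependent_iff] at hi
    rw [Finsupp.prod_fintype _ _ (by intro i; simp)] at he
    rw [h.eq_one_iff (Finset.prod_ne_zero_iff.2 fun i _ => zpow_ne_zero _ (hx i)),
      val_prod v hx] at he
    ext i
    exact hi (fun i => e i) he i

end Rel

/-- The data extracted from a valuation ring of rank one and defect at most one. -/
structure Entry (k : Type u) {K : Type u} [Field k] [Field K] [Algebra k K]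
    (V : ValuationSubring K) (v : RVal K) (r s : ℕ) (x : Fin r → K) (z : Fin s → K) : Prop where
  rel : Rel V v
  rpos : 0 < r
  x_ne : ∀ i, x i ≠ 0
  ind : LinearIndependent ℚ fun i => v (x i)
  span : ∀ g : K, g ≠ 0 → v g ∈ Submodule.span ℚ (Set.range fun i => v (x i))
  z_val : ∀ P : MvPolynomial (Fin s) k, P ≠ 0 →
    MvPolynomial.aeval z P ≠ 0 ∧ v (MvPolynomial.aeval z P) = 0
  triv : ∀ c : IntermediateField.adjoin k (Set.range z), c ≠ 0 → v (c : K) = 0
  res : ∀ g : K, v.Ge 0 g →
    ∃ P : (IntermediateField.adjoin k (Set.range z))[X], P.Monic ∧ VPos v (aeval g P)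
  trdeg : Algebra.trdeg (IntermediateField.adjoin k (Set.range z)) K = r ∨
    Algebra.trdeg (IntermediateField.adjoin k (Set.range z)) K = r + 1

/-- Polynomials in `d + 1` variables as polynomials in the first variable. -/
theorem aeval_cons_eq {d : ℕ} (g : K) (z : Fin d → K) (P : MvPolynomial (Fin (d + 1)) k) :
    MvPolynomial.aeval (Fin.cons g z : Fin (d + 1) → K) P =
      ((MvPolynomial.finSuccEquiv k d P).map
        (MvPolynomial.aeval z : MvPolynomial (Fin d) k →ₐ[k] K).toRingHom).eval g := by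
  induction P using MvPolynomial.induction_on with
  | C a =>
    rw [MvPolynomial.aeval_C, MvPolynomial.finSuccEquiv_apply, MvPolynomial.eval₂Hom_C]
    simp
  | add p q hp hq =>
    rw [map_add, hp, hq, map_add, Polynomial.map_add, Polynomial.eval_add]
  | mul_X p i hp =>
    rw [map_mul, hp, map_mul, Polynomial.map_mul, Polynomial.eval_mul, MvPolynomial.aeval_X]
    congr 1
    refine Fin.cases ?_ (fun j => ?_) i
    · rw [MvPolynomial.finSuccEquiv_X_zero]
      simp
    · rw [MvPolynomial.finSuccEquiv_X_succ]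
      simp

/-- The coefficient field has transcendence degree `s`. -/
theorem trdeg_coeff' {s : ℕ} {z : Fin s → K} (hz : AlgebraicIndependent k z) :
    Algebra.trdeg k (IntermediateField.adjoin k (Set.range z)) = s := by
  have hzm : ∀ i, z i ∈ IntermediateField.adjoin k (Set.range z) := fun i =>
    IntermediateField.subset_adjoin _ _ ⟨i, rfl⟩
  let k₀ : IntermediateField k K := IntermediateField.adjoin k (Set.range z)
  let z' : Fin s → k₀ := fun i => ⟨z i, hzm i⟩
  let g : MvPolynomial (Fin s) k →ₐ[k] k₀ := MvPolynomial.aeval z'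
  have hg : ∀ P, (g P : K) = MvPolynomial.aeval z P := by
    intro P
    have h1 : (k₀.val.comp g) = MvPolynomial.aeval z := by
      refine MvPolynomial.algHom_ext fun i => ?_
      simp [g, z']
    exact DFunLike.congr_fun h1 P
  have hinj : Function.Injective g := by
    intro P Q hPQ
    have h1 := congrArg (fun c : k₀ => (c : K)) hPQ
    simp only [hg] at h1
    exact hz h1
  let _ : Algebra (MvPolynomial (Fin s) k) k₀ := g.toRingHom.toAlgebra
  have i1 : FaithfulSMul (MvPolynomial (Fin s) k) k₀ := by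
    rw [faithfulSMul_iff_algebraMap_injective]
    exact hinj
  have i2 : IsScalarTower k (MvPolynomial (Fin s) k) k₀ :=
    IsScalarTower.of_algebraMap_eq fun c => (g.commutes c).symm
  have i3 : Algebra.IsAlgebraic (MvPolynomial (Fin s) k) k₀ := by
    constructor
    intro c
    obtain ⟨a, ha, b, hb, hab⟩ := IntermediateField.mem_adjoin_iff_div.1 c.2
    rw [Algebra.adjoin_range_eq_range_aeval] at ha hb
    obtain ⟨P, hP⟩ := ha
    obtain ⟨Q, hQ⟩ := hb
    by_cases hb0 : b = 0
    · have : c = 0 := Subtype.ext (by rw [hab, hb0, div_zero]; rfl)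
      rw [this]
      exact isAlgebraic_zero
    · refine ⟨Polynomial.C Q * Polynomial.X - Polynomial.C P, ?_, ?_⟩
      · intro h0
        have h1 := congrArg (fun P => Polynomial.coeff P 1) h0
        simp at h1
        apply hb0
        rw [← hQ, h1]
        exact map_zero _
      · rw [map_sub, map_mul, Polynomial.aeval_C, Polynomial.aeval_X, Polynomial.aeval_C]
        apply Subtype.ext
        change (g Q : K) * (c : K) - (g P : K) = 0
        rw [hg, hg, hab]
        have h2 : MvPolynomial.aeval z Q = b := hQ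
        have h3 : MvPolynomial.aeval z P = a := hP
        rw [h2, h3, mul_div_cancel₀ _ hb0, sub_self]
  have h1 : Algebra.trdeg k (MvPolynomial (Fin s) k) +
      Algebra.trdeg (MvPolynomial (Fin s) k) k₀ = Algebra.trdeg k k₀ :=
    trdeg_add_eq k (MvPolynomial (Fin s) k)
  have h0 : Algebra.trdeg (MvPolynomial (Fin s) k) k₀ = 0 := trdeg_eq_zero
  rw [h0, MvPolynomial.trdeg_of_isDomain, add_zero] at h1
  rw [← h1]
  simp

theorem trdeg_coeff {s : ℕ} {z : Fin s → K} (hz : AlgebraicIndependent k z) :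
    (s : Cardinal) + Algebra.trdeg (IntermediateField.adjoin k (Set.range z)) K =
      Algebra.trdeg k K := by
  rw [← trdeg_coeff' hz]
  exact trdeg_add_eq k (IntermediateField.adjoin k (Set.range z))

/-- The entry: every valuation ring of rank one and defect at most one of a function field. -/
theorem exists_entry (hK : (⊤ : IntermediateField k K).FG) {V : ValuationSubring K}
    (hk : ∀ c : k, algebraMap k K c ∈ V) (hR : IsR1 V) (hD : DefLE k V 1) :
    ∃ (v : RVal K) (r s : ℕ) (x : Fin r → K) (z : Fin s → K), Entry k V v r s x z := by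
  classical
  obtain ⟨v, hrel, -⟩ := hR.exists_real
  have hrel : Rel V v := hrel
  have : Algebra.EssFiniteType k K := IntermediateField.fg_top_iff.1 hK
  obtain ⟨n, hn⟩ := Cardinal.lt_aleph0.1 (trdeg_lt_aleph0 k K)
  -- maximal systems
  have hA : ∀ {r d : ℕ} {x : Fin r → K} {z : Fin d → K}, IndVal V x → IndRes k V z →
      r + d ≤ n := by
    intro r d x z hx hz
    have h1 := abhyankar hk hx hz
    rw [hn] at h1
    exact_mod_cast h1
  obtain ⟨r0, d0, htr, ⟨x0, hx0⟩, ⟨z0, hz0⟩⟩ := hD
  let P1 : ℕ → Prop := fun r => ∃ x : Fin r → K, IndVal V x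
  let P2 : ℕ → Prop := fun d => ∃ z : Fin d → K, IndRes k V z
  have hr0 : r0 ≤ n := by have := hA hx0 hz0; omega
  have hd0 : d0 ≤ n := by have := hA hx0 hz0; omega
  set r := Nat.findGreatest P1 n with hr
  set d := Nat.findGreatest P2 n with hd
  have hrP : P1 r := Nat.findGreatest_spec hr0 ⟨x0, hx0⟩
  have hdP : P2 d := Nat.findGreatest_spec hd0 ⟨z0, hz0⟩
  have hr0r : r0 ≤ r := Nat.le_findGreatest hr0 ⟨x0, hx0⟩
  have hd0d : d0 ≤ d := Nat.le_findGreatest hd0 ⟨z0, hz0⟩
  have hrmax : ¬ P1 (r + 1) := by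
    intro h1
    obtain ⟨x1, hx1⟩ := h1
    have h2 := hA hx1 hz0
    exact Nat.findGreatest_is_greatest (P := P1) (n := n) (k := r + 1)
      (Nat.lt_succ_self _) (by omega) ⟨x1, hx1⟩
  have hdmax : ¬ P2 (d + 1) := by
    intro h1
    obtain ⟨z1, hz1⟩ := h1
    have h2 := hA hx0 hz1
    exact Nat.findGreatest_is_greatest (P := P2) (n := n) (k := d + 1)
      (Nat.lt_succ_self _) (by omega) ⟨z1, hz1⟩
  obtain ⟨x, hx⟩ := hrP
  obtain ⟨z, hz⟩ := hdP
  have hxi := hrel.indVal_iff.1 hx
  have hrpos : 0 < r := by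
    obtain ⟨x1, hx1⟩ := indVal_one hR.1
    have h2 := hA hx1 hz0
    exact Nat.le_findGreatest (P := P1) (n := n) (m := 1) (by omega) ⟨x1, hx1⟩
  have hzval : ∀ P : MvPolynomial (Fin d) k, P ≠ 0 →
      MvPolynomial.aeval z P ≠ 0 ∧ v (MvPolynomial.aeval z P) = 0 := by
    intro P hP
    have h1 := hz.val_eq hk hP
    have h2 : MvPolynomial.aeval z P ≠ 0 := by
      intro h0
      rw [h0] at h1
      simp at h1
    exact ⟨h2, (hrel.eq_one_iff h2).1 h1⟩
  have htriv : ∀ c : IntermediateField.adjoin k (Set.range z), c ≠ 0 → v (c : K) = 0 := by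
    intro c hc
    obtain ⟨a, ha, b, hb, hab⟩ := IntermediateField.mem_adjoin_iff_div.1 c.2
    rw [Algebra.adjoin_range_eq_range_aeval] at ha hb
    obtain ⟨P, rfl⟩ := ha
    obtain ⟨Q, rfl⟩ := hb
    have hc' : (c : K) ≠ 0 := fun h0 => hc (Subtype.ext h0)
    have hP : P ≠ 0 := by
      rintro rfl
      apply hc'
      rw [hab, map_zero, zero_div]
    have hQ : Q ≠ 0 := by
      rintro rfl
      apply hc'
      rw [hab, map_zero, div_zero]
    obtain ⟨h1, h2⟩ := hzval P hP
    obtain ⟨h3, h4⟩ := hzval Q hQ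
    rw [hab]
    change v (MvPolynomial.aeval z P / MvPolynomial.aeval z Q) = 0
    rw [v.map_div h1 h3, h2, h4, sub_self]
  refine ⟨v, r, d, x, z, hrel, hrpos, hxi.1, hxi.2, ?_, hzval, htriv, ?_, ?_⟩
  · intro g hg
    by_contra hcon
    apply hrmax
    refine ⟨Fin.snoc x g, hrel.indVal_iff.2 ⟨?_, ?_⟩⟩
    · intro i
      refine Fin.lastCases ?_ (fun j => ?_) i
      · rw [Fin.snoc_last]; exact hg
      · rw [Fin.snoc_castSucc]; exact hxi.1 j
    · have h1 : (fun i => v ((Fin.snoc x g : Fin (r + 1) → K) i)) =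
          (Fin.snoc (fun i => v (x i)) (v g) : Fin (r + 1) → ℝ) := by
        funext i
        refine Fin.lastCases ?_ (fun j => ?_) i
        · rw [Fin.snoc_last, Fin.snoc_last]
        · rw [Fin.snoc_castSucc, Fin.snoc_castSucc]
      rw [h1, linearIndependent_finSnoc]
      exact ⟨hxi.2, hcon⟩
  · intro g hg
    have hgV : g ∈ V := (hrel.mem_iff g).2 hg
    have h1 : ¬ IndRes k V (Fin.cons g z : Fin (d + 1) → K) := fun h => hdmax ⟨_, h⟩
    unfold IndRes at h1
    push Not at h1
    obtain ⟨P, hPv, hP⟩ := h1 (by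
      intro i
      refine Fin.cases ?_ (fun j => ?_) i
      · rw [Fin.cons_zero]; exact hgV
      · rw [Fin.cons_succ]; exact hz.1 j)
    rw [aeval_cons_eq] at hPv
    have hzm : ∀ i, z i ∈ IntermediateField.adjoin k (Set.range z) := fun i =>
      IntermediateField.subset_adjoin _ _ ⟨i, rfl⟩
    let k₀ : IntermediateField k K := IntermediateField.adjoin k (Set.range z)
    let z' : Fin d → k₀ := fun i => ⟨z i, hzm i⟩
    let φ : MvPolynomial (Fin d) k →ₐ[k] k₀ := MvPolynomial.aeval z'
    have hφ : ∀ P, (φ P : K) = MvPolynomial.aeval z P := by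
      intro P
      have h1 : (k₀.val.comp φ) = MvPolynomial.aeval z := by
        refine MvPolynomial.algHom_ext fun i => ?_
        simp [φ, z']
      exact DFunLike.congr_fun h1 P
    have hφinj : Function.Injective φ := by
      intro P Q hPQ
      have h1 := congrArg (fun c : k₀ => (c : K)) hPQ
      simp only [hφ] at h1
      exact hz.algInd h1
    set Q : k₀[X] := (MvPolynomial.finSuccEquiv k d P).map φ.toRingHom with hQ
    have hQ0 : Q ≠ 0 := by
      rw [hQ]
      intro h0
      have h2 := (Polynomial.map_eq_zero_iff (f := φ.toRingHom) hφinj).1 h0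
      exact hP ((map_eq_zero_iff _ (MvPolynomial.finSuccEquiv k d).injective).1 h2)
    have hQe : aeval g Q = ((MvPolynomial.finSuccEquiv k d P).map
        (MvPolynomial.aeval z : MvPolynomial (Fin d) k →ₐ[k] K).toRingHom).eval g := by
      rw [hQ, Polynomial.aeval_def, Polynomial.eval₂_map, Polynomial.eval_map]
      congr 1
      ext P
      · exact hφ _
      · exact hφ _
    rw [← hQe] at hPv
    have hlc : Q.leadingCoeff ≠ 0 := Polynomial.leadingCoeff_ne_zero.2 hQ0
    refine ⟨C (Q.leadingCoeff⁻¹) * Q, ?_, ?_⟩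
    · rw [Polynomial.Monic, Polynomial.leadingCoeff_mul, Polynomial.leadingCoeff_C,
        inv_mul_cancel₀ hlc]
    · rw [map_mul, aeval_C]
      refine VPos.mul' (fun h0 => ?_) ((hrel.lt_one_iff' _).1 hPv)
      have h2 := htriv Q.leadingCoeff⁻¹ (inv_ne_zero hlc)
      exact h2.ge
  · have h1 := trdeg_coeff hz.algInd
    rw [hn] at h1
    have h2 : r + d ≤ n := hA hx hz
    have h3 : n ≤ r0 + d0 + 1 := by
      rw [hn] at htr
      exact_mod_cast htr
    have h4 : n = d + r ∨ n = d + (r + 1) := by omega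
    rcases h4 with h4 | h4
    · left
      rw [h4] at h1
      push_cast at h1
      exact Cardinal.eq_of_add_eq_add_left h1 Cardinal.natCast_lt_aleph0
    · right
      rw [h4] at h1
      push_cast at h1
      exact Cardinal.eq_of_add_eq_add_left h1 Cardinal.natCast_lt_aleph0

end Pool.Agent.LU2
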