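import Pool.Agent.Lib.LU2_h15z.ZeroA

/-! # LU2, defect 0, part B: the valuation ring of a defectless field, by evaluation of the
elements of a frame of `K(t)` at an element of `K` near `t` -/

set_option autoImplicit false

namespace Pool.Agent.LU1

open Pool.Agent.H15JM (RVal)
open Polynomial

universe u

variable {k Ω : Type u} [Field k] [Field Ω] [Algebra k Ω] {v : RVal Ω} {r : ℕ}

/-- `F` is continuous at `t`. -/
def NearF (v : RVal Ω) (t : Ω) (F : Ω → Ω) : Prop :=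
  ∀ N : ℝ, ∃ δ : ℝ, ∀ c : Ω, v.Ge δ (t - c) → v.Ge N (F t - F c)

theorem NearF.const (t a : Ω) : NearF v t fun _ => a := fun N =>
  ⟨0, fun c _ => by rw [sub_self]; exact RVal.Ge.zero⟩

theorem NearF.id (t : Ω) : NearF v t fun c => c := fun N => ⟨N, fun _ hc => hc⟩

theorem NearF.add {t : Ω} {F G : Ω → Ω} (hF : NearF v t F) (hG : NearF v t G) :
    NearF v t fun c => F c + G c := by
  intro N
  obtain ⟨δ1, h1⟩ := hF N
  obtain ⟨δ2, h2⟩ := hG N
  refine ⟨max δ1 δ2, fun c hc => ?_⟩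
  have h3 : F t + G t - (F c + G c) = (F t - F c) + (G t - G c) := by ring
  rw [h3]
  exact (h1 c (hc.mono (le_max_left _ _))).add (h2 c (hc.mono (le_max_right _ _)))

theorem NearF.mul {t : Ω} {F G : Ω → Ω} (hF : NearF v t F) (hG : NearF v t G) :
    NearF v t fun c => F c * G c := by
  intro N
  obtain ⟨δ1, h1⟩ := hF (max (N - v (G t)) N)
  obtain ⟨δ2, h2⟩ := hG (max (N - v (F t)) 0)
  refine ⟨max δ1 δ2, fun c hc => ?_⟩
  have h3 := h1 c (hc.mono (le_max_left _ _))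
  have h4 := h2 c (hc.mono (le_max_right _ _))
  have h5 : F t * G t - F c * G c =
      (F t * (G t - G c) + (F t - F c) * G t) + -((F t - F c) * (G t - G c)) := by ring
  rw [h5]
  have hFt : v.Ge (v (F t)) (F t) := fun _ => le_rfl
  have hGt : v.Ge (v (G t)) (G t) := fun _ => le_rfl
  refine ((RVal.Ge.add ?_ ?_)).add ?_
  · have := hFt.mul h4
    exact this.mono (by linarith [le_max_left (N - v (F t)) 0])
  · have := h3.mul hGt
    exact this.mono (by linarith [le_max_left (N - v (G t)) N])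
  · have := h3.mul h4
    have h6 : v.Ge N ((F t - F c) * (G t - G c)) :=
      this.mono (by linarith [le_max_right (N - v (G t)) N, le_max_right (N - v (F t)) 0])
    intro h0
    rw [v.map_neg _ (neg_ne_zero.1 h0)]
    exact h6 (neg_ne_zero.1 h0)

theorem NearF.aeval (K : IntermediateField k Ω) (t : Ω) (P : K[X]) :
    NearF v t fun c => aeval c P := by
  induction P using Polynomial.induction_on with
  | C a =>
    have : (fun c : Ω => Polynomial.aeval c (C a : K[X])) = fun _ => (a : Ω) := by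
      funext c; rw [aeval_C]; rfl
    rw [this]
    exact NearF.const t _
  | add P Q hP hQ =>
    have : (fun c : Ω => Polynomial.aeval c (P + Q)) =
        fun c => Polynomial.aeval c P + Polynomial.aeval c Q := by
      funext c; rw [map_add]
    rw [this]
    exact hP.add hQ
  | monomial n a h =>
    have : (fun c : Ω => Polynomial.aeval c (C a * X ^ (n + 1) : K[X])) =
        fun c => Polynomial.aeval c (C a * X ^ n : K[X]) * c := by
      funext c
      rw [pow_succ, ← mul_assoc, map_mul _ (C a * X ^ n), aeval_X]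
    rw [this]
    exact h.mul (NearF.id t)

/-- `b` is the value at `t = c` of the rational function `a` of `t` over `K`. -/
def Ev (K : IntermediateField k Ω) (t c a b : Ω) : Prop :=
  ∃ P Q : K[X], aeval c Q ≠ 0 ∧ a * aeval t Q = aeval t P ∧ b * aeval c Q = aeval c P

namespace Ev

variable {K : IntermediateField k Ω} {t c : Ω}

theorem const {a : Ω} (ha : a ∈ K) : Ev K t c a a :=
  ⟨C ⟨a, ha⟩, 1, by rw [map_one]; exact one_ne_zero, by
    rw [map_one, mul_one, aeval_C]; rfl, by rw [map_one, mul_one, aeval_C]; rfl⟩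

theorem add {a b a' b' : Ω} (h : Ev K t c a b) (h' : Ev K t c a' b') :
    Ev K t c (a + a') (b + b') := by
  obtain ⟨P, Q, h1, h2, h3⟩ := h
  obtain ⟨P', Q', h1', h2', h3'⟩ := h'
  refine ⟨P * Q' + P' * Q, Q * Q', ?_, ?_, ?_⟩
  · rw [map_mul]; exact mul_ne_zero h1 h1'
  · rw [map_mul, map_add, map_mul, map_mul, ← h2, ← h2']; ring
  · rw [map_mul, map_add, map_mul, map_mul, ← h3, ← h3']; ring

theorem mul {a b a' b' : Ω} (h : Ev K t c a b) (h' : Ev K t c a' b') :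
    Ev K t c (a * a') (b * b') := by
  obtain ⟨P, Q, h1, h2, h3⟩ := h
  obtain ⟨P', Q', h1', h2', h3'⟩ := h'
  refine ⟨P * P', Q * Q', ?_, ?_, ?_⟩
  · rw [map_mul]; exact mul_ne_zero h1 h1'
  · rw [map_mul, map_mul, ← h2, ← h2']; ring
  · rw [map_mul, map_mul, ← h3, ← h3']; ring

theorem ne_zero_of (htr : Transcendental K t) {Q : K[X]} (h : aeval c Q ≠ 0) :
    aeval t Q ≠ 0 := by
  intro h0
  have := (transcendental_iff.1 htr) Q h0
  rw [this, map_zero] at h
  exact h rfl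

theorem inv (htr : Transcendental K t) {a b : Ω} (h : Ev K t c a b) (hb : b ≠ 0) :
    Ev K t c a⁻¹ b⁻¹ := by
  obtain ⟨P, Q, h1, h2, h3⟩ := h
  have hP : aeval c P ≠ 0 := by rw [← h3]; exact mul_ne_zero hb h1
  have hPt := ne_zero_of htr hP
  have ha : a ≠ 0 := by
    rintro rfl
    rw [zero_mul] at h2
    exact hPt h2.symm
  refine ⟨Q, P, hP, ?_, ?_⟩
  · rw [← h2, ← mul_assoc, inv_mul_cancel₀ ha, one_mul]
  · rw [← h3, ← mul_assoc, inv_mul_cancel₀ hb, one_mul]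

theorem unique (htr : Transcendental K t) {a b b' : Ω} (h : Ev K t c a b)
    (h' : Ev K t c a b') : b = b' := by
  obtain ⟨P, Q, h1, h2, h3⟩ := h
  obtain ⟨P', Q', h1', h2', h3'⟩ := h'
  have h4 : P * Q' - P' * Q = 0 := by
    refine (transcendental_iff.1 htr) _ ?_
    rw [map_sub, map_mul, map_mul, ← h2, ← h2']; ring
  have h5 := congrArg (aeval c) h4
  rw [map_sub, map_mul, map_mul, map_zero, ← h3, ← h3'] at h5
  have h6 : (b - b') * (aeval c Q * aeval c Q') = 0 := by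
    rw [← h5]; ring
  rcases mul_eq_zero.1 h6 with h7 | h7
  · exact sub_eq_zero.1 h7
  · exact absurd h7 (mul_ne_zero h1 h1')

theorem mem (hc : c ∈ K) {a b : Ω} (h : Ev K t c a b) : b ∈ K := by
  obtain ⟨P, Q, h1, -, h3⟩ := h
  have hm : ∀ P : K[X], aeval c P ∈ K := by
    intro P
    have h4 : aeval c P = algebraMap K Ω (aeval (⟨c, hc⟩ : K) P) := by
      rw [← Polynomial.aeval_algebraMap_apply]
      rfl
    rw [h4]
    exact (aeval (⟨c, hc⟩ : K) P).2
  have h4 : b = aeval c P / aeval c Q := by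
    rw [← h3, mul_div_cancel_right₀ _ h1]
  rw [h4]
  exact K.div_mem (hm _) (hm _)

end Ev

/-- The elements of `K(t)`. -/
theorem exists_rat_of_mem_adj (K : IntermediateField k Ω) (t : Ω) {a : Ω} (ha : a ∈ adj K t) :
    ∃ P Q : K[X], aeval t Q ≠ 0 ∧ a * aeval t Q = aeval t P := by
  have h1 : adj K t ≤ (IntermediateField.adjoin K {t}).restrictScalars k := by
    refine sup_le ?_ ?_
    · intro z hz
      exact (IntermediateField.adjoin K {t}).algebraMap_mem ⟨z, hz⟩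
    · rw [IntermediateField.adjoin_le_iff]
      rintro z hz
      rw [Set.mem_singleton_iff.1 hz]
      exact IntermediateField.mem_adjoin_simple_self K t
  obtain ⟨P, Q, hPQ⟩ := (IntermediateField.mem_adjoin_simple_iff K a).1 (h1 ha)
  by_cases h0 : aeval t Q = 0
  · refine ⟨0, 1, by rw [map_one]; exact one_ne_zero, ?_⟩
    rw [hPQ, h0, div_zero, map_zero, zero_mul]
  · exact ⟨P, Q, h0, by rw [hPQ, div_mul_cancel₀ _ h0]⟩

/-- The values of `a ∈ K(t)` at elements near `t` are near `a`. -/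
theorem exists_ev (K : IntermediateField k Ω) (t : Ω) {a : Ω} (ha : a ∈ adj K t) (N : ℝ) :
    ∃ δ : ℝ, ∀ c : Ω, v.Ge δ (t - c) → ∃ b, Ev K t c a b ∧ v.Ge N (a - b) := by
  obtain ⟨P, Q, hQ, hPQ⟩ := exists_rat_of_mem_adj K t ha
  set q := v (aeval t Q) with hq
  obtain ⟨δ1, h1⟩ := NearF.aeval (v := v) K t Q (max (q + 1) (N + 2 * q - v (aeval t P)))
  obtain ⟨δ2, h2⟩ := NearF.aeval (v := v) K t P (N + q)
  refine ⟨max δ1 δ2, fun c hc => ?_⟩
  have h3 := h1 c (hc.mono (le_max_left _ _))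
  have h4 := h2 c (hc.mono (le_max_right _ _))
  have hQc : aeval c Q ≠ 0 ∧ v (aeval c Q) = q := by
    by_cases h0 : aeval t Q - aeval c Q = 0
    · rw [sub_eq_zero] at h0
      rw [← h0]
      exact ⟨hQ, rfl⟩
    · have h5 := h3 h0
      have h6 : v (aeval t Q) < v (-(aeval t Q - aeval c Q)) := by
        rw [v.map_neg _ h0]
        have := le_max_left (q + 1) (N + 2 * q - v (aeval t P))
        linarith
      have h7 := v.add_of_lt hQ (neg_ne_zero.2 h0) h6
      have h8 : aeval t Q + -(aeval t Q - aeval c Q) = aeval c Q := by ring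
      rw [h8] at h7
      exact h7
  refine ⟨aeval c P / aeval c Q, ⟨P, Q, hQc.1, hPQ, div_mul_cancel₀ _ hQc.1⟩, ?_⟩
  have h5 : a - aeval c P / aeval c Q =
      (aeval t P * -(aeval t Q - aeval c Q) + aeval t Q * (aeval t P - aeval c P)) *
        (aeval t Q * aeval c Q)⁻¹ := by
    have h6 : a = aeval t P / aeval t Q := by rw [← hPQ, mul_div_cancel_right₀ _ hQ]
    rw [h6, div_sub_div _ _ hQ hQc.1, div_eq_mul_inv]
    congr 1
    ring
  rw [h5]
  have hinv : v.Ge (-(2 * q)) (aeval t Q * aeval c Q)⁻¹ := by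
    intro _
    rw [v.map_inv (mul_ne_zero hQ hQc.1), v.map_mul hQ hQc.1, hQc.2]
    linarith
  have hneg : v.Ge (N + 2 * q - v (aeval t P)) (-(aeval t Q - aeval c Q)) := by
    intro h0
    rw [v.map_neg _ (neg_ne_zero.1 h0)]
    exact (le_max_right _ _).trans (h3 (neg_ne_zero.1 h0))
  have hP : v.Ge (v (aeval t P)) (aeval t P) := fun _ => le_rfl
  have hQ' : v.Ge q (aeval t Q) := fun _ => le_rfl
  have h7 : v.Ge (N + 2 * q)
      (aeval t P * -(aeval t Q - aeval c Q) + aeval t Q * (aeval t P - aeval c P)) :=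
    ((hP.mul hneg).mono (by linarith)).add ((hQ'.mul h4).mono (by linarith))
  exact (h7.mul hinv).mono (by linarith)

/-- The valuation ring of `K`. -/
theorem zero_struct (h : Ctx2 k v r) (B : BF k v) (K : IntermediateField k Ω) (t : Ω)
    (hF : FracIs B.R (adj K t)) (htr : Transcendental K t)
    (hlim : ∀ δ : ℝ, ∃ c ∈ K, v.Ge δ (t - c)) {x : Fin r → Ω} (hx : ∀ i, B.Mono (x i))
    (hind : LinearIndependent ℚ fun i => v (x i))
    (halg : ∀ g ∈ K, IsAlgebraic (Algebra.adjoin k (Set.range x)) g) :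
    ∃ (F : Finset Ω) (χ : ℝ → Ω), (∀ f ∈ F, f ∈ K ∧ v.Ge 0 f) ∧
      (∀ γ ∈ B.Γ, χ γ ∈ K ∧ χ γ ≠ 0 ∧ v (χ γ) = γ) ∧
      (∀ γ ∈ B.Γ, ∀ δ ∈ B.Γ, χ (γ + δ) = χ γ * χ δ) ∧
      ∀ f ∈ K, v.Ge 0 f → f ∈ locv v (Algebra.adjoin k
        ((F : Set Ω) ∪ χ '' {γ | γ ∈ B.Γ ∧ 0 ≤ γ})) := by
  classical
  obtain ⟨F0, hF0⟩ := B.fgen
  obtain ⟨G0, hG0⟩ := B.fg
  have hFR : ∀ f ∈ F0, f ∈ B.R := fun f hf => by
    rw [hF0]; exact le_locv _ (Algebra.subset_adjoin (Or.inl hf))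
  have hχE : ∀ γ ∈ B.Γ, B.χ γ ∈ adj K t := by
    intro γ hγ
    rcases le_total 0 γ with h0 | h0
    · exact hF.1 _ (B.χ_mem γ hγ h0)
    · have h1 := hF.1 _ (B.χ_mem (-γ) (B.Γ.neg_mem hγ) (neg_nonneg.2 h0))
      rw [B.χ_neg hγ] at h1
      have h2 := (adj K t).inv_mem h1
      rwa [inv_inv] at h2
  -- the approximation
  have hδ1 : ∀ f ∈ F0, ∃ δ : ℝ, ∀ c : Ω, v.Ge δ (t - c) → ∃ b, Ev K t c f b ∧ v.Ge 1 (f - b) :=
    fun f hf => exists_ev K t (hF.1 f (hFR f hf)) 1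
  have hδ2 : ∀ γ ∈ G0, ∃ δ : ℝ, ∀ c : Ω, v.Ge δ (t - c) →
      ∃ b, Ev K t c (B.χ γ) b ∧ v.Ge (γ + 1) (B.χ γ - b) := by
    intro γ hγ
    have hγ' : γ ∈ B.Γ := by rw [← hG0]; exact AddSubgroup.subset_closure hγ
    exact exists_ev K t (hχE γ hγ') (γ + 1)
  choose! δ1 h1 using hδ1
  choose! δ2 h2 using hδ2
  obtain ⟨δ, hδF, hδG⟩ : ∃ δ : ℝ, (∀ f ∈ F0, δ1 f ≤ δ) ∧ ∀ γ ∈ G0, δ2 γ ≤ δ := by
    refine ⟨(∑ f ∈ F0, |δ1 f|) + ∑ γ ∈ G0, |δ2 γ|, fun f hf => ?_, fun γ hγ => ?_⟩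
    · have h3 := Finset.single_le_sum (f := fun f => |δ1 f|) (fun _ _ => abs_nonneg _) hf
      have h4 : 0 ≤ ∑ γ ∈ G0, |δ2 γ| := Finset.sum_nonneg fun _ _ => abs_nonneg _
      have := le_abs_self (δ1 f)
      linarith
    · have h3 := Finset.single_le_sum (f := fun f => |δ2 f|) (fun _ _ => abs_nonneg _) hγ
      have h4 : 0 ≤ ∑ f ∈ F0, |δ1 f| := Finset.sum_nonneg fun _ _ => abs_nonneg _
      have := le_abs_self (δ2 γ)
      linarith
  obtain ⟨c, hcK, hc⟩ := hlim δ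
  have h1' : ∀ f ∈ F0, ∃ b, Ev K t c f b ∧ v.Ge 1 (f - b) := fun f hf =>
    h1 f hf c (hc.mono (hδF f hf))
  choose! e he1 he2 using h1'
  -- the monomials
  have hχ : ∀ γ ∈ B.Γ, ∃ b, Ev K t c (B.χ γ) b ∧ b ≠ 0 ∧ v b = γ := by
    intro γ hγ
    have hγ' := hγ
    rw [← hG0] at hγ'
    induction hγ' using AddSubgroup.closure_induction with
    | mem γ hγG =>
      obtain ⟨b, hb1, hb2⟩ := h2 γ hγG c (hc.mono (hδG γ hγG))
      refine ⟨b, hb1, ?_⟩
      by_cases h0 : B.χ γ - b = 0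
      · rw [sub_eq_zero] at h0
        rw [← h0]
        exact ⟨B.χ_ne γ hγ, B.χ_val γ hγ⟩
      · have h3 := hb2 h0
        have h4 : v (B.χ γ) < v (-(B.χ γ - b)) := by
          rw [v.map_neg _ h0, B.χ_val γ hγ]; linarith
        have h5 := v.add_of_lt (B.χ_ne γ hγ) (neg_ne_zero.2 h0) h4
        have h6 : B.χ γ + -(B.χ γ - b) = b := by ring
        rw [h6, B.χ_val γ hγ] at h5
        exact h5
    | zero =>
      refine ⟨1, ?_, one_ne_zero, v.map_one⟩
      rw [B.χ_zero]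
      exact Ev.const K.one_mem
    | add γ δ hγ1 hδ1 ih1 ih2 =>
      rw [hG0] at hγ1 hδ1
      obtain ⟨b, hb1, hb2, hb3⟩ := ih1 hγ1
      obtain ⟨b', hb1', hb2', hb3'⟩ := ih2 hδ1
      refine ⟨b * b', ?_, mul_ne_zero hb2 hb2', ?_⟩
      · rw [B.χ_add γ hγ1 δ hδ1]; exact hb1.mul hb1'
      · rw [v.map_mul hb2 hb2', hb3, hb3']
    | neg γ hγ1 ih =>
      rw [hG0] at hγ1
      obtain ⟨b, hb1, hb2, hb3⟩ := ih hγ1
      refine ⟨b⁻¹, ?_, inv_ne_zero hb2, ?_⟩
      · rw [B.χ_neg hγ1]; exact hb1.inv htr hb2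
      · rw [v.map_inv hb2, hb3]
  choose! χ hχ1 hχ2 hχ3 using hχ
  have hχ0 : χ 0 = 1 := by
    refine (hχ1 0 B.Γ.zero_mem).unique htr ?_
    rw [B.χ_zero]
    exact Ev.const K.one_mem
  refine ⟨F0.image e, χ, ?_, fun γ hγ => ⟨(hχ1 γ hγ).mem hcK, hχ2 γ hγ, hχ3 γ hγ⟩, ?_, ?_⟩
  · intro f hf
    obtain ⟨g, hg, rfl⟩ := Finset.mem_image.1 hf
    refine ⟨(he1 g hg).mem hcK, ?_⟩
    have h3 : e g = g + -(g - e g) := by ring
    rw [h3]
    refine (B.nonneg g (hFR g hg)).add ?_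
    intro h0
    rw [v.map_neg _ (neg_ne_zero.1 h0)]
    have := he2 g hg (neg_ne_zero.1 h0)
    linarith
  · intro γ hγ δ hδ
    refine (hχ1 _ (B.Γ.add_mem hγ hδ)).unique htr ?_
    rw [B.χ_add γ hγ δ hδ]
    exact (hχ1 γ hγ).mul (hχ1 δ hδ)
  · intro f hfK hf
    -- `f` is in the ring of the frame
    have hfE : f ∈ adj K t := le_adj K t hfK
    obtain ⟨a, ha, b, hb, hb0, hfab⟩ := hF.2 f hfE
    have hfR := B.mem_of_algebraic h hx hind hf ha hb hb0 hfab (halg f hfK)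
    -- evaluation
    have key : ∀ a ∈ Algebra.adjoin k ((F0 : Set Ω) ∪ B.χ '' {γ | γ ∈ B.Γ ∧ 0 ≤ γ}),
        ∃ b ∈ Algebra.adjoin k (((F0.image e : Finset Ω) : Set Ω) ∪
          χ '' {γ | γ ∈ B.Γ ∧ 0 ≤ γ}), Ev K t c a b ∧ VPos v (a - b) ∧ v.Ge 0 a := by
      intro a ha
      induction ha using Algebra.adjoin_induction with
      | mem x hx =>
        rcases hx with hx | ⟨γ, ⟨hγ, h0⟩, rfl⟩
        · refine ⟨e x, Algebra.subset_adjoin (Or.inl ?_), he1 x hx, ?_,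
            B.nonneg x (hFR x hx)⟩
          · exact Finset.mem_coe.2 (Finset.mem_image_of_mem _ hx)
          · intro h3
            have := he2 x hx h3
            linarith
        · refine ⟨χ γ, Algebra.subset_adjoin (Or.inr ⟨γ, ⟨hγ, h0⟩, rfl⟩), hχ1 γ hγ, ?_,
            B.nonneg _ (B.χ_mem γ hγ h0)⟩
          rcases h0.lt_or_eq with h3 | h3
          · refine VPos.sub (fun _ => ?_) fun _ => ?_
            · rw [B.χ_val γ hγ]; exact h3
            · rw [hχ3 γ hγ]; exact h3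
          · rw [← h3, hχ0, B.χ_zero, sub_self]
            exact VPos.zero
      | algebraMap c' =>
        refine ⟨algebraMap k Ω c', Subalgebra.algebraMap_mem _ c',
          Ev.const (K.algebraMap_mem c'), ?_, h.ge c'⟩
        rw [sub_self]; exact VPos.zero
      | add x y _ _ hx hy =>
        obtain ⟨b, hb, hb1, hb2, hb3⟩ := hx
        obtain ⟨b', hb', hb1', hb2', hb3'⟩ := hy
        refine ⟨b + b', add_mem hb hb', hb1.add hb1', ?_, hb3.add hb3'⟩
        have h3 : x + y - (b + b') = (x - b) + (y - b') := by ring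
        rw [h3]
        exact hb2.add hb2'
      | mul x y _ _ hx hy =>
        obtain ⟨b, hb, hb1, hb2, hb3⟩ := hx
        obtain ⟨b', hb', hb1', hb2', hb3'⟩ := hy
        refine ⟨b * b', mul_mem hb hb', hb1.mul hb1', ?_, by simpa using hb3.mul hb3'⟩
        have h3 : x * y - b * b' = (x * (y - b') + (x - b) * y) - (x - b) * (y - b') := by ring
        rw [h3]
        refine ((VPos.mul' hb3 hb2').add (hb2.mul hb3')).sub (hb2.mul hb2'.ge)
    rw [hF0] at hfR
    obtain ⟨a1, ha1, b1, hb1, hb10, hvb1, hf1⟩ := hfR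
    obtain ⟨a2, ha2, hae, -, -⟩ := key a1 ha1
    obtain ⟨b2, hb2, hbe, hbp, -⟩ := key b1 hb1
    have hb2v : b2 ≠ 0 ∧ v b2 = 0 := by
      have h3 := val_add_vpos hb10 hvb1 hbp.neg
      have h4 : b1 + -(b1 - b2) = b2 := by ring
      rwa [h4] at h3
    have hfe : Ev K t c f (a2 / b2) := by
      rw [hf1, div_eq_mul_inv, div_eq_mul_inv]
      exact hae.mul (hbe.inv htr hb2v.1)
    exact ⟨a2, ha2, b2, hb2, hb2v.1, hb2v.2, (Ev.const hfK).unique htr hfe⟩

end Pool.Agent.LU1
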