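import Pool.Agent.Lib.LU2_h15z.ValB
import Pool.Agent.Lib.LU2_h15z.ZeroB
import Pool.Agent.Lib.LU2_h15z.Entry
import Pool.Agent.Lib.LU2_h15.AbhD

/-! # LU2, defect 0: the lacunary series is transcendental over `K` -/

set_option autoImplicit false

namespace Pool.Agent.LU2

open Pool.Agent.H15JM (RVal)
open Pool.Agent.LU1 (VPos adj)
open Polynomial

universe u

/-- The valuation ring of a real valuation. -/
def vring {L : Type u} [Field L] (w : RVal L) : ValuationSubring L where
  carrier := {f | w.Ge 0 f}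
  mul_mem' := by
    intro a b ha hb
    have h := ha.mul hb
    rwa [add_zero] at h
  one_mem' := fun _ => by rw [w.map_one]
  add_mem' := fun ha hb => ha.add hb
  zero_mem' := RVal.Ge.zero
  neg_mem' := fun ha => ha.neg
  mem_or_inv_mem' := by
    intro f
    by_cases hf : f = 0
    · left; rw [hf]; exact RVal.Ge.zero
    rcases le_total 0 (w f) with h | h
    · exact Or.inl fun _ => h
    · exact Or.inr fun _ => by rw [w.map_inv hf]; linarith

theorem rel_vring {L : Type u} [Field L] (w : RVal L) : Rel (vring w) w :=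
  fun _ hf => ⟨fun h => h hf, fun h _ => h⟩

/-- The restriction of a real valuation. -/
def rcomap {L M : Type u} [Field L] [Field M] (w : RVal L) (φ : M →+* L) : RVal M where
  toFun f := w (φ f)
  map_mul' f g hf hg := by
    rw [map_mul]
    exact w.map_mul ((_root_.map_ne_zero φ).2 hf) ((_root_.map_ne_zero φ).2 hg)
  map_add' f g hf hg hfg := by
    have h := w.map_add ((_root_.map_ne_zero φ).2 hf) ((_root_.map_ne_zero φ).2 hg)
      (by rw [← map_add]; exact (_root_.map_ne_zero φ).2 hfg)
    rw [map_add]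
    exact h

theorem Rel.comap {L M : Type u} [Field L] [Field M] {V : ValuationSubring L} {w : RVal L}
    (h : Rel V w) (φ : M →+* L) : Rel (V.comap φ) (rcomap w φ) := fun f hf =>
  h (φ f) ((_root_.map_ne_zero φ).2 hf)

/-- Polynomials of near elements are near. -/
theorem vpos_aeval_sub {k L : Type u} [Field k] [Field L] [Algebra k L] (w : RVal L)
    (hk : ∀ c : k, w.Ge 0 (algebraMap k L c)) {ι : Type*} {a b : ι → L}
    (ha : ∀ i, w.Ge 0 (a i)) (hab : ∀ i, VPos w (a i - b i)) (P : MvPolynomial ι k) :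
    VPos w (MvPolynomial.aeval a P - MvPolynomial.aeval b P) ∧
      w.Ge 0 (MvPolynomial.aeval a P) := by
  induction P using MvPolynomial.induction_on with
  | C c =>
    rw [MvPolynomial.aeval_C, MvPolynomial.aeval_C, sub_self]
    exact ⟨VPos.zero, hk c⟩
  | add p q hp hq =>
    rw [map_add, map_add]
    refine ⟨?_, hp.2.add hq.2⟩
    have h1 := hp.1.add hq.1
    have h2 : MvPolynomial.aeval a p + MvPolynomial.aeval a q -
        (MvPolynomial.aeval b p + MvPolynomial.aeval b q) =
        (MvPolynomial.aeval a p - MvPolynomial.aeval b p) +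
          (MvPolynomial.aeval a q - MvPolynomial.aeval b q) := by ring
    rw [h2]
    exact h1
  | mul_X p i hp =>
    rw [map_mul, map_mul, MvPolynomial.aeval_X, MvPolynomial.aeval_X]
    refine ⟨?_, by simpa using hp.2.mul (ha i)⟩
    have h2 : MvPolynomial.aeval a p * a i - MvPolynomial.aeval b p * b i =
        (MvPolynomial.aeval a p * (a i - b i) +
          (MvPolynomial.aeval a p - MvPolynomial.aeval b p) * a i) -
          (MvPolynomial.aeval a p - MvPolynomial.aeval b p) * (a i - b i) := by ring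
    rw [h2]
    exact ((VPos.mul' hp.2 (hab i)).add (hp.1.mul (ha i))).sub (hp.1.mul (hab i).ge)

/-- The lacunary series is transcendental over every field without defect. -/
theorem transc_over {k K L : Type u} [Field k] [Field K] [Field L] [Algebra k K] [Algebra K L]
    [Algebra k L] [IsScalarTower k K L] (v : RVal K) (w : RVal L)
    (hw : ∀ f : K, f ≠ 0 → w (algebraMap K L f) = v f) {r s : ℕ} {x : Fin r → K}
    {z : Fin s → K} (hx0 : ∀ i, x i ≠ 0) (hx : LinearIndependent ℚ fun i => v (x i))
    (hz : ∀ P : MvPolynomial (Fin s) k, P ≠ 0 →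
      MvPolynomial.aeval z P ≠ 0 ∧ v (MvPolynomial.aeval z P) = 0)
    (htr : Algebra.trdeg k K = ((r + s : ℕ) : Cardinal)) {X : K} (hX0 : X ≠ 0) (hX : 0 < v X)
    {t : L} (ht : ∀ n, w.Ge (((n + 1).factorial : ℝ) * v X) (t - lac (algebraMap K L X) n)) :
    Transcendental K t := by
  classical
  intro halg
  -- constants
  have hzc : ∀ c : k, c ≠ 0 → v (algebraMap k K c) = 0 := by
    intro c hc
    have h1 := (hz (MvPolynomial.C c) (by simpa using hc)).2
    rwa [MvPolynomial.aeval_C] at h1
  have htriv : ∀ c : k, c ≠ 0 → w (algebraMap k L c) = 0 := by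
    intro c hc
    rw [IsScalarTower.algebraMap_apply k K L, hw _ (by simpa using hc), hzc c hc]
  have hge : ∀ c : k, w.Ge 0 (algebraMap k L c) := fun c h0 => by
    rw [htriv c (by rintro rfl; simp at h0)]
  set XL : L := algebraMap K L X with hXL
  have hXL0 : XL ≠ 0 := by simpa [hXL] using hX0
  have hXLp : 0 < w XL := by rw [hXL, hw X hX0]; exact hX
  have hXLv : w XL = v X := hw X hX0
  -- `t` is transcendental over `k[X]`
  have htransc : Transcendental (Algebra.adjoin k {XL}) t :=
    lac_transcendental w htriv hXL0 hXLp (by rw [hXLv]; exact ht)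
  have hXtr : Transcendental k XL := by
    rintro ⟨P, hP, hP0⟩
    exact (val_aeval_le w htriv hXL0 hXLp _ P hP le_rfl).1 hP0
  have hXind : AlgebraicIndependent k (fun _ : Fin 1 => XL) := by
    rw [algebraicIndependent_unique_type_iff]
    exact hXtr
  have hind2 : AlgebraicIndependent k
      (fun o : Option (Fin 1) => o.elim t (fun _ : Fin 1 => XL)) := by
    rw [hXind.option_iff_transcendental]
    rw [Set.range_const]
    exact htransc
  -- approximation by elements of `k(X)`
  let F1 : IntermediateField k L := IntermediateField.adjoin k (Set.range fun _ : Fin 1 => XL)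
  have hXF : XL ∈ F1 := IntermediateField.subset_adjoin _ _ ⟨0, rfl⟩
  have happ : ∀ a ∈ adj F1 t, ∀ N : ℝ, ∃ b ∈ F1, w.Ge N (a - b) := by
    intro a ha N
    obtain ⟨δ, hδ⟩ := LU1.exists_ev (v := w) F1 t ha N
    obtain ⟨n, hn⟩ := exists_nat_gt (δ / v X)
    have h1 : w.Ge δ (t - lac XL n) := by
      refine (ht n).mono ?_
      rw [div_lt_iff₀ hX] at hn
      have h2 : (n : ℝ) ≤ ((n + 1).factorial : ℝ) := by
        exact_mod_cast (Nat.le_succ n).trans (Nat.self_le_factorial _)
      nlinarith
    obtain ⟨b, hb, hb'⟩ := hδ _ h1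
    refine ⟨b, hb.mem ?_, hb'⟩
    refine F1.sum_mem fun i _ => ?_
    exact pow_mem hXF (i + 1).factorial
  -- the field `M = K(t)`
  let M : IntermediateField K L := IntermediateField.adjoin K {t}
  have hMalg : Algebra.IsAlgebraic K M :=
    IntermediateField.isAlgebraic_adjoin_simple halg.isIntegral
  let VL : ValuationSubring L := vring w
  let VM : ValuationSubring M := VL.comap (algebraMap M L)
  let wM : RVal M := rcomap w (algebraMap M L)
  have hRM : Rel VM wM := (rel_vring w).comap _
  have hwM : ∀ f : K, f ≠ 0 → wM (algebraMap K M f) = v f := fun f hf => hw f hf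
  have hDM : DefLE k VM 0 := by
    refine ⟨r, s, ?_, ⟨fun i => algebraMap K M (x i), hRM.indVal_iff.2 ⟨?_, ?_⟩⟩,
      ⟨fun i => algebraMap K M (z i), ?_, ?_⟩⟩
    · have h1 : Algebra.trdeg k K + Algebra.trdeg K M = Algebra.trdeg k M := trdeg_add_eq k K
      have h2 : Algebra.trdeg K M = 0 := trdeg_eq_zero
      rw [h2, add_zero] at h1
      rw [← h1, htr, add_zero]
    · intro i
      exact (_root_.map_ne_zero _).2 (hx0 i)
    · have h1 : (fun i => wM (algebraMap K M (x i))) = fun i => v (x i) := by
        funext i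
        exact hwM _ (hx0 i)
      rw [h1]
      exact hx
    · intro i
      rw [hRM.mem_iff]
      intro h0
      change algebraMap K M (z i) ≠ 0 at h0
      have h1 : z i ≠ 0 := by
        intro h2
        rw [h2, map_zero] at h0
        exact h0 rfl
      rw [hwM _ h1]
      have h2 := (hz (MvPolynomial.X i) (MvPolynomial.X_ne_zero i)).2
      rw [MvPolynomial.aeval_X] at h2
      exact h2.ge
    · intro P hP
      by_contra hP0
      obtain ⟨h1, h2⟩ := hz P hP0
      have h3 : MvPolynomial.aeval (fun i => algebraMap K M (z i)) P =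
          algebraMap K M (MvPolynomial.aeval z P) := by
        rw [← MvPolynomial.aeval_algebraMap_apply]
        rfl
      rw [h3, hRM.lt_one_iff ((_root_.map_ne_zero _).2 h1), hwM _ h1, h2] at hP
      exact lt_irrefl _ hP
  have hkM : ∀ c : k, algebraMap k M c ∈ VM := by
    intro c
    rw [hRM.mem_iff]
    intro h0
    have h1 : c ≠ 0 := by
      rintro rfl
      rw [map_zero] at h0
      exact h0 rfl
    exact (htriv c h1).ge
  have hMfin : Algebra.trdeg k M < Cardinal.aleph0 := by
    have h1 : Algebra.trdeg k K + Algebra.trdeg K M = Algebra.trdeg k M := trdeg_add_eq k K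
    have h2 : Algebra.trdeg K M = 0 := trdeg_eq_zero
    rw [h2, add_zero] at h1
    rw [← h1, htr]
    exact Cardinal.natCast_lt_aleph0
  -- the subfield `k(X, t)` of `M`
  let ψ : M →ₐ[k] L := (IntermediateField.val M).restrictScalars k
  have htM : t ∈ M := IntermediateField.mem_adjoin_simple_self K t
  have hXM : XL ∈ M := M.algebraMap_mem X
  let tM : M := ⟨t, htM⟩
  let XM : M := ⟨XL, hXM⟩
  let S : IntermediateField k M := IntermediateField.adjoin k {XM, tM}
  have hSadj : ∀ g ∈ S, ψ g ∈ adj F1 t := by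
    have h1 : S ≤ (adj F1 t).comap ψ := by
      refine IntermediateField.adjoin_le_iff.2 ?_
      rintro g (rfl | hg)
      · exact LU1.le_adj F1 t hXF
      · rw [Set.mem_singleton_iff.1 hg]
        exact LU1.mem_adj F1 t
    exact fun g hg => h1 hg
  obtain ⟨r', d', htr', ⟨x', hx'⟩, ⟨z', hz'⟩⟩ := DefLE.comap_any hkM hMfin S hDM
  have hRS : Rel (VM.comap (algebraMap S M)) (rcomap wM (algebraMap S M)) := hRM.comap _
  -- the transcendence degree of `S`
  have hXS : XM ∈ S := IntermediateField.subset_adjoin _ _ (Or.inl rfl)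
  have htS : tM ∈ S := IntermediateField.subset_adjoin _ _ (Or.inr rfl)
  have h2S : 2 ≤ Algebra.trdeg k S := by
    have h1 : AlgebraicIndependent k (fun o : Option (Fin 1) =>
        (o.elim (⟨tM, htS⟩ : S) fun _ => ⟨XM, hXS⟩)) := by
      refine AlgebraicIndependent.of_comp (ψ.comp S.val) ?_
      have h2 : ((ψ.comp S.val : S →ₐ[k] L) ∘ fun o : Option (Fin 1) =>
          (o.elim (⟨tM, htS⟩ : S) fun _ => ⟨XM, hXS⟩)) =
          fun o : Option (Fin 1) => o.elim t (fun _ : Fin 1 => XL) := by
        funext o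
        cases o <;> rfl
      rw [h2]
      exact hind2
    have h3 := h1.lift_cardinalMk_le_trdeg
    simpa using h3
  -- the subfield `k(X)`
  let w1 : RVal F1 := rcomap w (algebraMap F1 L)
  let V1 : ValuationSubring F1 := VL.comap (algebraMap F1 L)
  have hR1 : Rel V1 w1 := (rel_vring w).comap _
  have hk1 : ∀ c : k, algebraMap k F1 c ∈ V1 := by
    intro c
    rw [hR1.mem_iff]
    intro h0
    have h1 : c ≠ 0 := by
      rintro rfl
      rw [map_zero] at h0
      exact h0 rfl
    exact (htriv c h1).ge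
  -- transfer of the values
  have hx2 : ∀ i, ∃ b : F1, b ≠ 0 ∧ w1 b = rcomap wM (algebraMap S M) (x' i) := by
    intro i
    have hne : ψ (x' i) ≠ 0 := (_root_.map_ne_zero ψ).2 fun h0 => hx'.1 i (Subtype.ext h0)
    obtain ⟨b, hb, hbN⟩ := happ _ (hSadj _ (x' i).2) (w (ψ (x' i)) + 1)
    have h1 : b ≠ 0 ∧ w b = w (ψ (x' i)) := by
      by_cases h0 : ψ (x' i) - b = 0
      · rw [sub_eq_zero] at h0
        rw [← h0]
        exact ⟨hne, rfl⟩
      · have h2 := hbN h0
        have h3 : w (ψ (x' i)) < w (-(ψ (x' i) - b)) := by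
          rw [w.map_neg _ h0]; linarith
        have h4 := w.add_of_lt hne (neg_ne_zero.2 h0) h3
        have h5 : ψ (x' i) + -(ψ (x' i) - b) = b := by ring
        rwa [h5] at h4
    exact ⟨⟨b, hb⟩, fun h0 => h1.1 (congrArg Subtype.val h0), h1.2⟩
  choose x2 hx20 hx2v using hx2
  have hz2 : ∀ i, ∃ b : F1, w.Ge 1 (ψ (z' i) - b) := by
    intro i
    obtain ⟨b, hb, hbN⟩ := happ _ (hSadj _ (z' i).2) 1
    exact ⟨⟨b, hb⟩, hbN⟩
  choose z2 hz2v using hz2
  have hIV : IndVal V1 x2 := by
    rw [hR1.indVal_iff]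
    refine ⟨hx20, ?_⟩
    have h1 := (hRS.indVal_iff.1 hx').2
    have h2 : (fun i => w1 (x2 i)) = fun i => rcomap wM (algebraMap S M) (x' i) :=
      funext hx2v
    rw [h2]
    exact h1
  have hz'ge : ∀ i, w.Ge 0 (ψ (z' i)) := by
    intro i
    have h1 := (hRS.mem_iff _).1 (hz'.1 i)
    intro h0
    exact h1 (fun h2 => h0 (by rw [h2]; exact map_zero ψ))
  have hIR : IndRes k V1 z2 := by
    refine ⟨fun i => ?_, fun P hP => ?_⟩
    · rw [hR1.mem_iff]
      have h1 : w.Ge 0 (z2 i : L) := by
        have h2 : (z2 i : L) = ψ (z' i) - (ψ (z' i) - z2 i) := by ring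
        rw [h2]
        exact (hz'ge i).sub ((hz2v i).mono zero_le_one)
      intro h0
      exact h1 fun h2 => h0 (Subtype.ext h2)
    · refine hz'.2 P ?_
      have h1 := (vpos_aeval_sub w hge hz'ge (b := fun i => (z2 i : L)) (fun i h0 =>
        lt_of_lt_of_le one_pos (hz2v i h0)) P).1
      have h2 : MvPolynomial.aeval (fun i => (z2 i : L)) P =
          ((MvPolynomial.aeval z2 P : F1) : L) := by
        have := MvPolynomial.aeval_algebraMap_apply (B := L) z2 P
        exact this
      have h3 : MvPolynomial.aeval (fun i => ψ (z' i)) P =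
          ψ ((MvPolynomial.aeval z' P : S) : M) := by
        have h4 : ((ψ.comp S.val).comp (MvPolynomial.aeval z')) =
            (MvPolynomial.aeval (fun i => ψ (z' i)) : MvPolynomial (Fin d') k →ₐ[k] L) := by
          refine MvPolynomial.algHom_ext fun i => ?_
          simp
        exact (DFunLike.congr_fun h4 P).symm
      rw [hRS.lt_one_iff']
      rw [hR1.lt_one_iff'] at hP
      intro h0
      have h5 : VPos w ((MvPolynomial.aeval z2 P : F1) : L) := fun h6 =>
        hP (fun h7 => h6 (by rw [h7]; rfl))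
      have h6 : VPos w (MvPolynomial.aeval (fun i => ψ (z' i)) P) := by
        have h7 := h1.add (by rw [h2]; exact h5 :
          VPos w (MvPolynomial.aeval (fun i => (z2 i : L)) P))
        rwa [sub_add_cancel] at h7
      rw [h3] at h6
      exact h6 ((_root_.map_ne_zero ψ).2 fun h8 => h0 (Subtype.ext h8))
  have h1 := abhyankar hk1 hIV hIR
  have h3 : Algebra.trdeg k F1 = ((1 : ℕ) : Cardinal) := trdeg_coeff' hXind
  rw [h3] at h1
  have h4 : (2 : Cardinal.{u}) ≤ ((1 : ℕ) : Cardinal.{u}) := by
    refine h2S.trans (htr'.trans ?_)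
    rw [add_zero]
    exact h1
  have h5 : ((2 : ℕ) : Cardinal.{u}) ≤ ((1 : ℕ) : Cardinal.{u}) := by exact_mod_cast h4
  have h6 : (2 : ℕ) ≤ 1 := by exact_mod_cast h5
  omega

end Pool.Agent.LU2
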