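import Pool.Agent.Lib.LU2_h15z.Entry
import Pool.Agent.Lib.LU2G.Real

/-! # LU2: from rings in the big field to log uniformization -/

set_option autoImplicit false

namespace Pool.Agent.LU2

open Pool.Agent.H15JM (RVal)
open Pool.Agent.LU1 (VPos locv)
open Pool.Agent.LU2G

universe u

variable {k K : Type u} [Field k] [Field K] [Algebra k K]

theorem Rel.mem_locV {V : ValuationSubring K} {v : RVal K} (h : Rel V v) (A : Subalgebra k K)
    (f : K) : f ∈ locV V A ↔ f ∈ locv v A := by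
  constructor
  · rintro ⟨a, ha, b, hb, hvb, rfl⟩
    have hb0 : b ≠ 0 := by
      rintro rfl
      simp at hvb
    exact ⟨a, ha, b, hb, hb0, (h.eq_one_iff hb0).1 hvb, rfl⟩
  · rintro ⟨a, ha, b, hb, hb0, hvb, rfl⟩
    exact ⟨a, ha, b, hb, (h.eq_one_iff hb0).2 hvb, rfl⟩

/-- The exit. -/
theorem lurAt_of {Ω : Type u} [Field Ω] [Algebra k Ω] (ι : K →ₐ[k] Ω) {v : RVal K}
    {w : RVal Ω} (hw : ∀ f : K, f ≠ 0 → w (ι f) = v f) {V : ValuationSubring K} (hV : Rel V v)
    {C : Type u} [Field C] [Algebra C Ω] (A : Subalgebra k K) (R : Subalgebra C Ω) {n : ℕ}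
    (zz : Fin n → Ω) (J : Finset (Fin n)) (hne : ∀ i, zz i ≠ 0) (hmem : ∀ i, zz i ∈ R)
    (hpos : ∀ i, 0 < w (zz i))
    (hgen : ∀ f ∈ R, VPos w f → ∃ a : Fin n → Ω, (∀ i, a i ∈ R) ∧ f = ∑ i, a i * zz i)
    (hdim : ringKrullDim R = n) {g : K} (hg : g ∈ A) (hg0 : g ≠ 0) (G : Finset K)
    (hG : ∀ x ∈ G, x ∈ A ∧ v.Ge (v g) x)
    (hR : ∀ f, f ∈ R ↔ ∃ s ∈ locv v (Algebra.adjoin k ((A : Set K) ∪
      (fun x => x / g) '' (G : Set K))), ι s = f)
    (T : Finset K)
    (hmono : ∀ t, t = g ∨ t ∈ T → ∃ e : Fin n → ℤ, ∃ u ∈ R, u ≠ 0 ∧ w u = 0 ∧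
      ι t = (∏ i, zz i ^ e i) * u ∧ (∀ i, i ∉ J → e i = 0) ∧
      (0 < w (ι t) → ∀ i ∈ J, 0 < e i) ∧ (w (ι t) < 0 → ∀ i ∈ J, e i < 0) ∧
      (w (ι t) = 0 → ∀ i, e i = 0)) : LUrAt V A T := by
  classical
  have hι : Function.Injective ι := ι.toRingHom.injective
  set A' : Subalgebra k K := Algebra.adjoin k ((A : Set K) ∪ (fun x => x / g) '' (G : Set K))
    with hA'
  have hch : IsChart V A A' g := by
    refine ⟨hg, hg0, G, fun x hx => ⟨(hG x hx).1, ?_⟩, rfl⟩
    by_cases hx0 : x = 0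
    · rw [hx0, map_zero]; exact zero_le'
    · rw [hV.le_iff hx0 hg0]
      exact (hG x hx).2 hx0
  have hmemL : ∀ s : K, s ∈ locV V A' ↔ ι s ∈ R := by
    intro s
    rw [hV.mem_locV, hR]
    constructor
    · exact fun h => ⟨s, h, rfl⟩
    · rintro ⟨s', h, h'⟩
      rwa [← hι h']
  have hex : ∀ f ∈ R, ∃ s, s ∈ locV V A' ∧ ι s = f := by
    intro f hf
    obtain ⟨s, hs, rfl⟩ := (hR f).1 hf
    exact ⟨s, (hV.mem_locV _ _).2 hs, rfl⟩
  have hne' : ∀ s : K, ι s ≠ 0 → s ≠ 0 := by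
    rintro s h rfl
    exact h (map_zero ι)
  choose z hzm hz using fun i => hex _ (hmem i)
  have hz0 : ∀ i, z i ≠ 0 := fun i => hne' _ (by rw [hz]; exact hne i)
  -- the ring isomorphism
  let φ : locV V A' →+* R :=
    { toFun := fun s => ⟨ι s, (hmemL s).1 s.2⟩
      map_one' := Subtype.ext (map_one ι)
      map_mul' := fun a b => Subtype.ext (map_mul ι _ _)
      map_zero' := Subtype.ext (map_zero ι)
      map_add' := fun a b => Subtype.ext (map_add ι _ _) }
  have hφ : Function.Bijective φ := by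
    constructor
    · intro a b hab
      have h1 : ι a = ι b := congrArg Subtype.val hab
      exact Subtype.ext (hι h1)
    · rintro ⟨f, hf⟩
      obtain ⟨s, hs, rfl⟩ := hex f hf
      exact ⟨⟨s, hs⟩, rfl⟩
  have hdim' : ringKrullDim (locV V A') = n := by
    rw [ringKrullDim_eq_of_ringEquiv (RingEquiv.ofBijective φ hφ), hdim]
  have hpar : IsPar V (locV V A') z := by
    refine ⟨hzm, hz0, fun i => ?_, fun f hf hfv => ?_, hdim'⟩
    · rw [hV.lt_one_iff (hz0 i), ← hw _ (hz0 i), hz]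
      exact hpos i
    · have h1 : VPos w (ι f) := by
        intro h0
        have h2 := (hV.lt_one_iff' f).1 hfv (hne' f h0)
        rwa [hw f (hne' f h0)]
      obtain ⟨a, ha, hfa⟩ := hgen _ ((hmemL f).1 hf) h1
      choose b hbm hb using fun i => hex _ (ha i)
      refine ⟨b, hbm, hι ?_⟩
      rw [hfa, map_sum]
      exact Finset.sum_congr rfl fun i _ => by rw [map_mul, hb, hz]
  have hSM : ∀ t, t = g ∨ t ∈ T → SMono V (locV V A') z J t := by
    intro t ht
    obtain ⟨e, u, huR, hu0, hwu, hte, hJ, hp, hn, hz1⟩ := hmono t ht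
    obtain ⟨u', hu', rfl⟩ := hex u huR
    have hu0' : u' ≠ 0 := hne' _ hu0
    have ht0 : t ≠ 0 := by
      refine hne' _ ?_
      rw [hte]
      exact mul_ne_zero (Finset.prod_ne_zero_iff.2 fun i _ => zpow_ne_zero _ (hne i)) hu0
    refine ⟨e, u', hu', ?_, hι ?_, hJ, ?_, ?_, ?_⟩
    · rw [hV.eq_one_iff hu0', ← hw _ hu0']
      exact hwu
    · rw [hte, map_mul, map_prod]
      congr 1
      exact Finset.prod_congr rfl fun i _ => by rw [map_zpow₀, hz]
    · intro h
      rw [hV.lt_one_iff ht0, ← hw _ ht0] at h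
      exact hp h
    · intro h
      have h1 : v t < 0 := by
        by_contra h2
        exact absurd ((hV.le_one_iff ht0).2 (not_lt.1 h2)) (not_le.2 h)
      rw [← hw _ ht0] at h1
      exact hn h1
    · intro h
      rw [hV.eq_one_iff ht0, ← hw _ ht0] at h
      exact hz1 h
  exact ⟨A', g, hch, n, z, J, hpar, hSM g (Or.inl rfl), fun t ht => hSM t (Or.inr ht)⟩

/-! ### strong monomials -/

theorem SMono.toMono {V : ValuationSubring K} {R : Subalgebra k K} {n : ℕ} {z : Fin n → K}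
    {J : Finset (Fin n)} {t : K} (h : SMono V R z J t) : Mono V R z t := by
  obtain ⟨e, w, hw, hvw, ht, hJ, h1, h2, h3⟩ := h
  refine ⟨e, w, hw, hvw, ht, fun h i => ?_, fun h i => ?_⟩
  · by_cases hi : i ∈ J
    · rcases h.lt_or_eq with h4 | h4
      · exact (h1 h4 i hi).le
      · exact (h3 h4 i).ge
    · exact (hJ i hi).ge
  · by_cases hi : i ∈ J
    · rcases h.lt_or_eq with h4 | h4
      · exact (h2 h4 i hi).le
      · exact (h3 h4.symm i).le
    · exact (hJ i hi).le

theorem SMono.mul {V : ValuationSubring K} {R : Subalgebra k K} {n : ℕ} {z : Fin n → K}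
    (hz : ∀ i, z i ≠ 0) {J : Finset (Fin n)} {s t : K} (hs : SMono V R z J s)
    (hs1 : V.valuation s ≤ 1) (ht : SMono V R z J t) (ht1 : V.valuation t ≤ 1) :
    SMono V R z J (s * t) := by
  obtain ⟨e, w, hw, hvw, hse, hJ, h1, -, h3⟩ := hs
  obtain ⟨e', w', hw', hvw', hte, hJ', h1', -, h3'⟩ := ht
  have hv : V.valuation (s * t) ≤ 1 := by
    rw [map_mul]; exact mul_le_one' hs1 ht1
  refine ⟨fun i => e i + e' i, w * w', R.mul_mem hw hw', by rw [map_mul, hvw, hvw', one_mul], ?_,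
    fun i hi => by simp only [hJ i hi, hJ' i hi, add_zero], ?_, fun h => absurd hv (not_le.2 h),
    ?_⟩
  · have h4 : (∏ i, z i ^ (e i + e' i)) = (∏ i, z i ^ e i) * ∏ i, z i ^ e' i := by
      rw [← Finset.prod_mul_distrib]
      exact Finset.prod_congr rfl fun i _ => zpow_add₀ (hz i) _ _
    rw [h4]
    conv_lhs => rw [hse, hte]
    ring
  · intro h i hi
    rw [map_mul] at h
    rcases hs1.lt_or_eq with h4 | h4
    · rcases ht1.lt_or_eq with h5 | h5
      · have := h1 h4 i hi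
        have := h1' h5 i hi
        change 0 < e i + e' i
        omega
      · have := h1 h4 i hi
        have := h3' h5 i
        change 0 < e i + e' i
        omega
    · rw [h4, one_mul] at h
      have := h3 h4 i
      have := h1' h i hi
      change 0 < e i + e' i
      omega
  · intro h i
    rw [map_mul] at h
    have h4 : V.valuation s = 1 := by
      by_contra h5
      have h6 := lt_of_le_of_ne hs1 h5
      exact absurd h (mul_lt_one_of_lt_of_le h6 ht1).ne
    have h5 : V.valuation t = 1 := by rwa [h4, one_mul] at h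
    change e i + e' i = 0
    rw [h3 h4 i, h3' h5 i, add_zero]

theorem SMono.one {V : ValuationSubring K} {R : Subalgebra k K} {n : ℕ} {z : Fin n → K}
    {J : Finset (Fin n)} : SMono V R z J 1 :=
  ⟨fun _ => 0, 1, R.one_mem, map_one _, by simp, fun _ _ => rfl,
    fun h => absurd h (by simp), fun h => absurd h (by simp), fun _ _ => rfl⟩

theorem SMono.pow {V : ValuationSubring K} {R : Subalgebra k K} {n : ℕ} {z : Fin n → K}
    (hz : ∀ i, z i ≠ 0) {J : Finset (Fin n)} {s : K} (hs : SMono V R z J s)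
    (hs1 : V.valuation s ≤ 1) (N : ℕ) : SMono V R z J (s ^ N) := by
  induction N with
  | zero => rw [pow_zero]; exact SMono.one
  | succ N ih =>
    rw [pow_succ]
    exact SMono.mul hz ih (by rw [map_pow]; exact pow_le_one' hs1 N) hs hs1

/-- Pass to a chart first. -/
theorem LUrAt.of_chart {V : ValuationSubring K} {A A' : Subalgebra k K} {g : K} {T : Finset K}
    (hA : ∀ a ∈ A, a ∈ V) (h : IsChart V A A' g) {T' : Finset K} (hg : g ∈ T')
    (hT : ∀ t ∈ T, t ∈ T') (h' : LUrAt V A' T') : LUrAt V A T := by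
  obtain ⟨A'', g', hch, n, z, J, hz, hg', hT'⟩ := h'
  obtain ⟨N, hN⟩ := h.trans hch
  have hvg : V.valuation g ≤ 1 := (V.valuation_le_one_iff g).2 (hA g h.1)
  have hvg' : V.valuation g' ≤ 1 := (V.valuation_le_one_iff g').2 (h.mem hA g' hch.1)
  refine ⟨A'', _, hN, n, z, J, hz, ?_, fun t ht => hT' t (hT t ht)⟩
  refine SMono.mul hz.ne (SMono.pow hz.ne (hT' g hg) hvg N) ?_ hg' hvg'
  rw [map_pow]
  exact pow_le_one' hvg N

theorem LUr.toLU {V : ValuationSubring K} (h : LUr k V) : LU k V := by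
  intro A hA hAV hfrac T hT
  obtain ⟨A', g, hch, n, z, J, hz, hg, hT'⟩ := h A hA hAV hfrac T hT
  exact ⟨A', g, hch, n, z, hz, SMono.toMono hg, fun t ht => SMono.toMono (hT' t ht)⟩

end Pool.Agent.LU2
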