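import Pool.Agent.Lib.MP_d9447e_al_helper1.Reg
import Pool.Agent.Lib.LU2_base.Reg

/-! # LU2: regular local rings are integrally closed; the rings of frames are integrally closed -/

set_option autoImplicit false

namespace Pool.Agent.LU2Z

open IsLocalRing

universe u

/-- Completely integrally closed, in terms of divisibility. -/
def CIC (R : Type u) [CommRing R] : Prop :=
  ∀ a d e : R, d ≠ 0 → e ≠ 0 → (∀ l : ℕ, d ^ l ∣ e * a ^ l) → d ∣ a

/-- A prime element that does not divide `d` can be cancelled. -/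
theorem dvd_of_prime_pow {R : Type u} [CommRing R] [IsDomain R] {x d f : R} (hx : Prime x)
    (hd : ¬ x ∣ d) (l m : ℕ) (h : d ^ l ∣ x ^ m * f) : d ^ l ∣ f := by
  obtain ⟨q, hq⟩ := h
  have h1 : x ^ m ∣ d ^ l * q := ⟨f, hq.symm⟩
  have h2 : x ^ m ∣ q := by
    refine (hx.pow_dvd_of_dvd_mul_left m ?_ h1)
    intro h3
    exact hd (hx.dvd_of_dvd_pow h3)
  obtain ⟨s, rfl⟩ := h2
  refine ⟨s, mul_left_cancel₀ (pow_ne_zero m hx.ne_zero) ?_⟩
  rw [hq]; ring

/-- `R` is completely integrally closed if `R / x` is so for a prime element `x` of the maximal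
ideal of the noetherian local domain `R`. -/
theorem CIC.of_quot {R : Type u} [CommRing R] [IsDomain R] [IsLocalRing R] [IsNoetherianRing R]
    {x : R} (hx : Prime x) (hxm : x ∈ maximalIdeal R) (h : CIC (R ⧸ Ideal.span {x})) : CIC R := by
  -- the case `x ∤ d`, `x ∤ e`
  have main : ∀ a d e : R, ¬ x ∣ d → ¬ x ∣ e → (∀ l : ℕ, d ^ l ∣ e * a ^ l) → d ∣ a := by
    intro a d e hd he hl
    have step : ∀ a : R, (∀ l : ℕ, d ^ l ∣ e * a ^ l) →
        ∃ c a1 : R, a = d * c + x * a1 ∧ ∀ l : ℕ, d ^ l ∣ e * a1 ^ l := by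
      intro a ha
      have hmk : ∀ z : R, (Ideal.Quotient.mk (Ideal.span {x})) z = 0 ↔ x ∣ z := fun z => by
        rw [Ideal.Quotient.eq_zero_iff_mem, Ideal.mem_span_singleton]
      obtain ⟨c', hc'⟩ := h (Ideal.Quotient.mk _ a) (Ideal.Quotient.mk _ d)
        (Ideal.Quotient.mk _ e) (fun h0 => hd ((hmk d).1 h0)) (fun h0 => he ((hmk e).1 h0))
        (fun l => by
          rw [← map_pow, ← map_pow, ← map_mul]
          exact map_dvd _ (ha l))
      obtain ⟨c, rfl⟩ := Ideal.Quotient.mk_surjective c'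
      have h1 : x ∣ a - d * c := by
        rw [← hmk, map_sub, map_mul, hc', sub_self]
      obtain ⟨a1, ha1⟩ := h1
      refine ⟨c, a1, by rw [← ha1]; ring, fun l => ?_⟩
      refine dvd_of_prime_pow hx hd l l ?_
      have h2 : x ^ l * (e * a1 ^ l) = e * (a + -(d * c)) ^ l := by
        rw [← sub_eq_add_neg, ha1, mul_pow]; ring
      rw [h2, add_pow, Finset.mul_sum]
      refine Finset.dvd_sum fun i hi => ?_
      have hi' : i ≤ l := Nat.lt_succ_iff.1 (Finset.mem_range.1 hi)
      obtain ⟨q, hq⟩ := ha i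
      refine ⟨q * (-c) ^ (l - i) * (l.choose i : R), ?_⟩
      have h3 : e * (a ^ i * (-(d * c)) ^ (l - i) * (l.choose i : R)) =
          (e * a ^ i) * ((-(d * c)) ^ (l - i) * (l.choose i : R)) := by ring
      rw [h3, hq]
      have h4 : (-(d * c)) ^ (l - i) = d ^ (l - i) * (-c) ^ (l - i) := by
        rw [← mul_pow]; ring
      have h5 : d ^ l = d ^ i * d ^ (l - i) := by
        rw [← pow_add, Nat.add_sub_cancel' hi']
      rw [h4, h5]; ring
    have key : ∀ M : ℕ, ∀ a : R, (∀ l : ℕ, d ^ l ∣ e * a ^ l) →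
        ∃ c a1 : R, a = d * c + x ^ M * a1 ∧ ∀ l : ℕ, d ^ l ∣ e * a1 ^ l := by
      intro M
      induction M with
      | zero => exact fun a ha => ⟨0, a, by ring, ha⟩
      | succ M ih =>
        intro a ha
        obtain ⟨c, a1, h1, h2⟩ := ih a ha
        obtain ⟨c', a2, h3, h4⟩ := step a1 h2
        exact ⟨c + x ^ M * c', a2, by rw [h1, h3]; ring, h4⟩
    -- Krull
    have hcl : ∀ M : ℕ, a ∈ Ideal.span {d} ⊔ maximalIdeal R ^ M := by
      intro M
      obtain ⟨c, a1, h1, -⟩ := key M a hl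
      rw [h1]
      refine Submodule.add_mem_sup ?_ ?_
      · exact Ideal.mul_mem_right _ _ (Ideal.mem_span_singleton_self d)
      · exact Ideal.mul_mem_right _ _ (Ideal.pow_mem_pow hxm M)
    rw [← Ideal.mem_span_singleton]
    have hH : IsHausdorff (maximalIdeal R) (R ⧸ Ideal.span {d}) := by
      have h1 : (maximalIdeal R) ≤ Ideal.jacobson ⊥ :=
        (IsLocalRing.jacobson_eq_maximalIdeal _ bot_ne_top).ge
      exact IsHausdorff.of_le_jacobson _ _ h1
    rw [← Ideal.Quotient.eq_zero_iff_mem]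
    refine hH.haus _ fun M => ?_
    rw [SModEq.zero]
    obtain ⟨p, hp, q, hq, hpq⟩ := Submodule.mem_sup.1 (hcl M)
    have h1 : (Ideal.Quotient.mk (Ideal.span {d})) a = q • (1 : R ⧸ Ideal.span {d}) := by
      rw [← hpq, map_add, (Ideal.Quotient.eq_zero_iff_mem).2 hp, zero_add]
      rw [Algebra.smul_def, mul_one]
      rfl
    rw [h1]
    exact Submodule.smul_mem_smul hq Submodule.mem_top
  -- reduction
  intro a d e hd he hl
  by_cases ha : a = 0
  · rw [ha]; exact dvd_zero d
  have hfin : ∀ z : R, z ≠ 0 → ∃ n : ℕ, ∃ z' : R, z = x ^ n * z' ∧ ¬ x ∣ z' := by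
    intro z hz
    have h1 : FiniteMultiplicity x z := FiniteMultiplicity.of_not_isUnit hx.not_isUnit hz
    obtain ⟨z', h2, h3⟩ := h1.exists_eq_pow_mul_and_not_dvd
    exact ⟨_, z', h2, h3⟩
  obtain ⟨s, d', rfl, hd'⟩ := hfin d hd
  obtain ⟨t, e', rfl, he'⟩ := hfin e he
  obtain ⟨n, a', rfl, ha'⟩ := hfin a ha
  have hsn : s ≤ n := by
    by_contra hlt
    push Not at hlt
    have h1 := hl (t + 1)
    have h2 : x ^ (s * (t + 1)) ∣ x ^ (t + n * (t + 1)) * (e' * a' ^ (t + 1)) := by
      refine (Dvd.intro (d' ^ (t + 1)) ?_).trans (h1.trans (dvd_of_eq ?_))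
      · rw [mul_pow, ← pow_mul]
      · rw [mul_pow, ← pow_mul, pow_add]; ring
    have h3 : t + n * (t + 1) + 1 ≤ s * (t + 1) := by nlinarith
    have h4 : x ^ (t + n * (t + 1)) * x ∣ x ^ (t + n * (t + 1)) * (e' * a' ^ (t + 1)) := by
      rw [← pow_succ]
      exact (pow_dvd_pow x h3).trans h2
    have h5 : x ∣ e' * a' ^ (t + 1) :=
      (mul_dvd_mul_iff_left (pow_ne_zero _ hx.ne_zero)).1 h4
    rcases hx.dvd_or_dvd h5 with h6 | h6
    · exact he' h6
    · exact ha' (hx.dvd_of_dvd_pow h6)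
  obtain ⟨m, rfl⟩ := Nat.exists_eq_add_of_le hsn
  have h1 : d' ∣ x ^ m * a' := by
    refine main _ d' e' hd' he' fun l => ?_
    refine dvd_of_prime_pow hx hd' l t ?_
    have h2 := hl l
    have h3 : (x ^ s * d') ^ l = x ^ (s * l) * d' ^ l := by rw [mul_pow, ← pow_mul]
    have h4 : x ^ t * e' * (x ^ (s + m) * a') ^ l =
        x ^ (s * l) * (x ^ t * (e' * (x ^ m * a') ^ l)) := by
      rw [pow_add, mul_pow, mul_pow, mul_pow, ← pow_mul]; ring
    rw [h3, h4] at h2
    exact (mul_dvd_mul_iff_left (pow_ne_zero _ hx.ne_zero)).1 h2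
  rw [pow_add, mul_assoc]
  exact mul_dvd_mul_left _ h1

/-- A regular local ring is completely integrally closed. -/
theorem cic_of_regular (n : ℕ) : ∀ (R : Type u) [CommRing R] [IsRegularLocalRing R],
    ringKrullDim R = (n : WithBot ℕ∞) → CIC R := by
  classical
  induction n with
  | zero =>
    intro R _ _ hn a d e hd _ _
    have h1 : (maximalIdeal R).spanFinrank = 0 := by
      have := IsRegularLocalRing.spanFinrank_maximalIdeal (R := R)
      rw [hn] at this
      exact_mod_cast this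
    have h2 : maximalIdeal R = ⊥ :=
      (Submodule.spanFinrank_eq_zero_iff_eq_bot (IsNoetherian.noetherian _)).1 h1
    have h3 : IsField R := isField_iff_maximalIdeal_eq.2 h2
    obtain ⟨d', hd'⟩ := h3.mul_inv_cancel hd
    exact ⟨d' * a, by rw [← mul_assoc, hd', one_mul]⟩
  | succ n ih =>
    intro R _ _ hn
    have hdom := Pool.Agent.BEH5.Reg.isDomain_of_regular (n + 1) R hn
    have hex : ∃ x ∈ maximalIdeal R, x ∉ (maximalIdeal R) ^ 2 := by
      by_contra hcon
      push Not at hcon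
      have h3 : maximalIdeal R = ⊥ := by
        apply Submodule.eq_bot_of_le_smul_of_le_jacobson_bot (maximalIdeal R) _
          (IsNoetherian.noetherian _)
        · rw [smul_eq_mul, ← pow_two]
          exact hcon
        · exact (IsLocalRing.jacobson_eq_maximalIdeal _ bot_ne_top).ge
      have h4 := IsRegularLocalRing.spanFinrank_maximalIdeal (R := R)
      rw [hn, h3] at h4
      simp at h4
      exact absurd h4 (by exact_mod_cast (Nat.succ_ne_zero n).symm)
    obtain ⟨x, hx, hx2⟩ := hex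
    obtain ⟨hreg, hdim⟩ := Pool.Agent.BEH5.Reg.quot_regular hn hx hx2
    have hdomq := Pool.Agent.BEH5.Reg.isDomain_of_regular n (R ⧸ Ideal.span {x}) hdim
    have hprime : (Ideal.span {x}).IsPrime := (Ideal.Quotient.isDomain_iff_prime _).1 hdomq
    have hx0 : x ≠ 0 := by
      rintro rfl
      exact hx2 (Ideal.zero_mem _)
    exact CIC.of_quot ((Ideal.span_singleton_prime hx0).1 hprime) hx (ih _ hdim)

/-- A regular local ring is integrally closed. -/
theorem isIntegrallyClosed_of_regular (n : ℕ) (R : Type u) [CommRing R] [IsRegularLocalRing R]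
    (hn : ringKrullDim R = (n : WithBot ℕ∞)) : IsIntegrallyClosed R := by
  have hdom := Pool.Agent.BEH5.Reg.isDomain_of_regular n R hn
  rw [isIntegrallyClosed_iff (FractionRing R)]
  intro f hf
  obtain ⟨a, d, hd, rfl⟩ := IsFractionRing.div_surjective (A := R) f
  have hd0 : d ≠ 0 := nonZeroDivisors.ne_zero hd
  obtain ⟨e, he, hl⟩ := hf.isAlmostIntegral
  have hinj : Function.Injective (algebraMap R (FractionRing R)) := IsFractionRing.injective _ _
  have hd1 : algebraMap R (FractionRing R) d ≠ 0 := by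
    intro h0
    exact hd0 (hinj (by rw [h0, map_zero]))
  have h1 : d ∣ a := by
    refine cic_of_regular n R hn a d e hd0 (nonZeroDivisors.ne_zero he) fun l => ?_
    obtain ⟨q, hq⟩ := hl l
    refine ⟨q, hinj ?_⟩
    rw [map_mul, map_mul, map_pow, map_pow, hq, Algebra.smul_def, div_pow]
    field_simp
  obtain ⟨c, rfl⟩ := h1
  exact ⟨c, by rw [map_mul, mul_div_cancel_left₀ _ hd1]⟩

end Pool.Agent.LU2Z

namespace Pool.Agent.LU1

open Pool.Agent.H15JM (RVal)
open Polynomial

universe u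

variable {k Ω : Type u} [Field k] [Field Ω] [Algebra k Ω] {v : RVal Ω} {r : ℕ}

/-- The ring of a noetherian frame is integrally closed. -/
theorem NF.normal2 (h : Ctx2 k v r) (N : NF k v r) {f : Ω} (hf : IsIntegral N.R f) {a b : Ω}
    (ha : a ∈ N.R) (hb : b ∈ N.R) (hb0 : b ≠ 0) (hfab : f = a / b) : f ∈ N.R := by
  have hreg := N.regular2 h
  have hcic := LU2Z.cic_of_regular (r + 1) N.R (by rw [N.dim2 h]; push_cast; rfl)
  have hb1 : (⟨b, hb⟩ : N.R) ≠ 0 := fun h0 => hb0 (congrArg Subtype.val h0)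
  have hal := hf.isAlmostIntegral_of_exists_smul_mem_range
    ⟨⟨b, hb⟩, mem_nonZeroDivisors_of_ne_zero hb1, ⟨⟨a, ha⟩, by
      rw [hfab, Algebra.smul_def]
      change a = b * (a / b)
      rw [mul_div_cancel₀ _ hb0]⟩⟩
  obtain ⟨e, he, hl⟩ := hal
  obtain ⟨c, hc⟩ := hcic ⟨a, ha⟩ ⟨b, hb⟩ e hb1 (nonZeroDivisors.ne_zero he) fun l => by
    obtain ⟨q, hq⟩ := hl l
    refine ⟨q, Subtype.ext ?_⟩
    have h1 : (q : Ω) = (e : Ω) * f ^ l := by
      rw [Algebra.smul_def] at hq
      exact hq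
    push_cast
    rw [h1, hfab, div_pow]
    field_simp
  have h2 : a = b * (c : Ω) := congrArg Subtype.val hc
  rw [hfab, h2, mul_div_cancel_left₀ _ hb0]
  exact c.2

/-- The ring of a frame is integrally closed. -/
theorem BF.normal2 (h : Ctx2 k v r) (B : BF k v) {f : Ω} (hf : IsIntegral B.R f) {a b : Ω}
    (ha : a ∈ B.R) (hb : b ∈ B.R) (hb0 : b ≠ 0) (hfab : f = a / b) : f ∈ B.R := by
  classical
  obtain ⟨P, hP, hPf⟩ := hf
  obtain ⟨S0, G, hS0, -, -, hG⟩ := B.exists_NF2 h
    ({a, b} ∪ (Finset.range P.natDegree).image fun i => (P.coeff i : Ω)) (by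
    intro g hg
    rcases Finset.mem_union.1 hg with hg | hg
    · rcases Finset.mem_insert.1 hg with rfl | hg
      · exact ha
      · rw [Finset.mem_singleton.1 hg]; exact hb
    · obtain ⟨i, -, rfl⟩ := Finset.mem_image.1 hg
      exact (P.coeff i).2)
  obtain ⟨u, hu⟩ := B.exists_basis2 h S0 hS0
  obtain ⟨N, -, -, -, hNB, hN⟩ := hG u hu
  have haN : a ∈ N.R := hN a (Finset.mem_union_left _ (by simp))
  have hbN : b ∈ N.R := hN b (Finset.mem_union_left _ (by simp))
  have hcN : ∀ i ∈ Finset.range P.natDegree, (P.coeff i : Ω) ∈ N.R := fun i hi =>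
    hN _ (Finset.mem_union_right _ (Finset.mem_image_of_mem _ hi))
  refine hNB (N.normal2 h ?_ haN hbN hb0 hfab)
  let Q0 : N.R[X] := ∑ i : Finset.range P.natDegree, C ⟨(P.coeff i : Ω), hcN i i.2⟩ * X ^ (i : ℕ)
  refine ⟨X ^ P.natDegree + Q0, monic_X_pow_add ?_, ?_⟩
  · rw [Polynomial.degree_lt_iff_coeff_zero]
    intro m hm
    rw [Polynomial.finset_sum_coeff]
    refine Finset.sum_eq_zero fun i _ => ?_
    rw [Polynomial.coeff_C_mul, Polynomial.coeff_X_pow, if_neg, mul_zero]
    have := Finset.mem_range.1 i.2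
    intro h1
    exact absurd (h1 ▸ hm) (not_le.2 this)
  · rw [← Polynomial.aeval_def, map_add, map_pow, aeval_X, map_sum]
    have h1 : ∀ i : Finset.range P.natDegree,
        aeval f (C (⟨(P.coeff i : Ω), hcN i i.2⟩ : N.R) * X ^ (i : ℕ)) =
          (P.coeff i : Ω) * f ^ (i : ℕ) := by
      intro i
      rw [map_mul, aeval_C, map_pow, aeval_X]
      rfl
    rw [Finset.sum_congr rfl fun i _ => h1 i]
    rw [Finset.sum_coe_sort (Finset.range P.natDegree) fun i => (P.coeff i : Ω) * f ^ i]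
    rw [← Polynomial.aeval_def, Polynomial.aeval_eq_sum_range, Finset.sum_range_succ,
      hP.coeff_natDegree, one_smul] at hPf
    rw [add_comm, ← hPf]
    rfl

end Pool.Agent.LU1
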