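import Pool.Agent.Lib.LU2_h15z.NFW
import Pool.Agent.Lib.LU2_h80.Defs
import Pool.Agent.Lib.LU1_h15.QProp

/-! # LU2: charts from frames with the Q-property -/

set_option autoImplicit false

namespace Pool.Agent.LU1

open Pool.Agent.H15JM (RVal)

universe u

variable {k Ω : Type u} [Field k] [Field Ω] [Algebra k Ω] {v : RVal Ω} {r : ℕ}

namespace QN2

/-- Quotients with denominators in a submonoid: numerators in `A`. -/
theorem exists_init (C : IntermediateField k Ω) (B : BF C v) (A : Subalgebra k Ω)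
    (hAR : ∀ a ∈ A, a ∈ B.R) (hQR : ∀ f ∈ B.R, QR A {f | B.Mono f} f) :
    ∃ (M F : Finset Ω), (∀ m ∈ M, m ∈ A ∧ B.Mono m) ∧ (∀ f ∈ F, f ∈ B.R) ∧ B.y ∈ F ∧
      (∀ f ∈ F, ∃ a ∈ A, ∃ b ∈ Submonoid.closure (M : Set Ω), f = a / b) ∧
      (∀ γ ∈ B.Γ, ∃ a ∈ Submonoid.closure (M : Set Ω), ∃ b ∈ Submonoid.closure (M : Set Ω),
        B.χ γ = a / b) ∧
      B.R = locv v (Algebra.adjoin C ((F : Set Ω) ∪ B.χ '' {γ | γ ∈ B.Γ ∧ 0 ≤ γ})) := by
  classical
  obtain ⟨F0, hF0⟩ := B.fgen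
  obtain ⟨G0, hG0⟩ := B.fg
  have hF0R : ∀ f ∈ F0, f ∈ B.R := fun f hf => by
    rw [hF0]; exact le_locv _ (Algebra.subset_adjoin (Or.inl hf))
  let F : Finset Ω := insert B.y F0
  have hFR : ∀ f ∈ F, f ∈ B.R := fun f hf => by
    rcases Finset.mem_insert.1 hf with rfl | hf
    · exact B.y_mem
    · exact hF0R f hf
  have hR : B.R = locv v (Algebra.adjoin C ((F : Set Ω) ∪ B.χ '' {γ | γ ∈ B.Γ ∧ 0 ≤ γ})) := by
    apply le_antisymm
    · conv_lhs => rw [hF0]
      refine locv_mono (Algebra.adjoin_mono (Set.union_subset_union_left _ ?_))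
      intro f hf
      exact Finset.mem_coe.2 (Finset.mem_insert_of_mem hf)
    · refine locv_le ?_ B.loc
      refine Algebra.adjoin_le ?_
      rintro f (hf | ⟨γ, ⟨hγ, h0⟩, rfl⟩)
      · exact hFR f hf
      · exact B.χ_mem γ hγ h0
  have hG0Γ : ∀ γ ∈ G0, |γ| ∈ B.Γ := by
    intro γ hγ
    have h1 : γ ∈ B.Γ := by rw [← hG0]; exact AddSubgroup.subset_closure hγ
    rcases abs_choice γ with h2 | h2
    · rw [h2]; exact h1
    · rw [h2]; exact B.Γ.neg_mem h1
  have hQF : ∀ f : Ω, ∃ a b : Ω, f ∈ B.R → (a ∈ A ∧ b ∈ A ∧ B.Mono b ∧ f = a / b) := by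
    intro f
    by_cases hf : f ∈ B.R
    · obtain ⟨a, ha, b, hb, -, hbm, h1⟩ := hQR f hf
      exact ⟨a, b, fun _ => ⟨ha, hb, hbm, h1⟩⟩
    · exact ⟨0, 0, fun h => absurd h hf⟩
  choose nu de hnd using hQF
  have hχm : ∀ γ ∈ G0, B.χ |γ| ∈ B.R := fun γ hγ => B.χ_mem _ (hG0Γ γ hγ) (abs_nonneg γ)
  have hnum : ∀ γ ∈ G0, B.Mono (nu (B.χ |γ|)) := by
    intro γ hγ
    obtain ⟨h1, h2, h3, h4⟩ := hnd _ (hχm γ hγ)
    have h6 : nu (B.χ |γ|) = B.χ |γ| * de (B.χ |γ|) := (div_eq_iff h3.1).1 h4.symm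
    rw [h6]
    exact (BF.Mono.χ (hG0Γ γ hγ)).mul h3
  let M : Finset Ω := F.image de ∪ (G0.image (fun γ => nu (B.χ |γ|)) ∪
    G0.image fun γ => de (B.χ |γ|))
  refine ⟨M, F, ?_, hFR, Finset.mem_insert_self _ _, ?_, ?_, hR⟩
  · intro m hm
    rcases Finset.mem_union.1 hm with hm | hm
    · obtain ⟨f, hf, rfl⟩ := Finset.mem_image.1 hm
      obtain ⟨-, h2, h3, -⟩ := hnd f (hFR f hf)
      exact ⟨h2, h3⟩
    · rcases Finset.mem_union.1 hm with hm | hm
      · obtain ⟨γ, hγ, rfl⟩ := Finset.mem_image.1 hm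
        exact ⟨(hnd _ (hχm γ hγ)).1, hnum γ hγ⟩
      · obtain ⟨γ, hγ, rfl⟩ := Finset.mem_image.1 hm
        exact ⟨(hnd _ (hχm γ hγ)).2.1, (hnd _ (hχm γ hγ)).2.2.1⟩
  · intro f hf
    obtain ⟨h1, h2, h3, h4⟩ := hnd f (hFR f hf)
    exact ⟨nu f, h1, de f, Submonoid.subset_closure (Finset.mem_coe.2
      (Finset.mem_union_left _ (Finset.mem_image_of_mem _ hf))), h4⟩
  · have hM1 : ∀ γ ∈ G0, nu (B.χ |γ|) ∈ Submonoid.closure (M : Set Ω) := fun γ hγ =>
      Submonoid.subset_closure (Finset.mem_coe.2 (Finset.mem_union_right _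
        (Finset.mem_union_left _ (Finset.mem_image_of_mem (fun γ => nu (B.χ |γ|)) hγ))))
    have hM2 : ∀ γ ∈ G0, de (B.χ |γ|) ∈ Submonoid.closure (M : Set Ω) := fun γ hγ =>
      Submonoid.subset_closure (Finset.mem_coe.2 (Finset.mem_union_right _
        (Finset.mem_union_right _ (Finset.mem_image_of_mem (fun γ => de (B.χ |γ|)) hγ))))
    intro γ hγ
    have hγ' := hγ
    rw [← hG0] at hγ'
    induction hγ' using AddSubgroup.closure_induction with
    | mem γ hγG =>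
      obtain ⟨h1, h2, h3, h4⟩ := hnd _ (hχm γ hγG)
      rcases abs_choice γ with h5 | h5
      · rw [h5] at h4
        have h6 := hM1 γ hγG
        have h7 := hM2 γ hγG
        rw [h5] at h6 h7
        exact ⟨_, h6, _, h7, h4⟩
      · refine ⟨_, hM2 γ hγG, _, hM1 γ hγG, ?_⟩
        rw [← inv_div, ← h4, h5, B.χ_neg hγ, inv_inv]
    | zero =>
      exact ⟨1, one_mem _, 1, one_mem _, by rw [B.χ_zero, div_one]⟩
    | add γ δ hγ1 hδ1 ih1 ih2 =>
      rw [hG0] at hγ1 hδ1
      obtain ⟨a, ha, b, hb, h1⟩ := ih1 hγ1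
      obtain ⟨a', ha', b', hb', h1'⟩ := ih2 hδ1
      refine ⟨a * a', mul_mem ha ha', b * b', mul_mem hb hb', ?_⟩
      rw [B.χ_add γ hγ1 δ hδ1, h1, h1', div_mul_div_comm]
    | neg γ hγ1 ih =>
      rw [hG0] at hγ1
      obtain ⟨a, ha, b, hb, h1⟩ := ih hγ1
      exact ⟨b, hb, a, ha, by rw [B.χ_neg hγ1, h1, inv_div]⟩

end QN2

/-- Charts from frames. -/
theorem exists_QN2 (h : CtxW v r) (C : IntermediateField k Ω) (B : BF C v)
    (A : Subalgebra k Ω) (hA : A.FG) (hAR : ∀ a ∈ A, a ∈ B.R)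
    (hC : ∀ c ∈ C, ∃ a ∈ A, ∃ b ∈ A, b ≠ 0 ∧ v b = 0 ∧ c = a / b)
    (hQR : ∀ f ∈ B.R, QR A {f | B.Mono f} f) (T : Finset Ω) (hT : ∀ t ∈ T, B.Mono t) :
    ∃ N : NF C v r, N.y = B.y ∧ ∃ g ∈ A, g ≠ 0 ∧ N.MonoPos g ∧
      ∃ G : Finset Ω, (∀ x ∈ G, x ∈ A ∧ v.Ge (v g) x) ∧
        (∀ f, f ∈ N.R ↔ f ∈ locv v (Algebra.adjoin k ((A : Set Ω) ∪
          (fun x => x / g) '' (G : Set Ω)))) ∧
        ∀ t ∈ T, N.MonoPos t := by
  classical
  obtain ⟨M, F, hM, hFR, hyF, hF, hχ, hR⟩ := QN2.exists_init C B A hAR hQR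
  obtain ⟨SA, hSA⟩ := hA
  have hSAA : ∀ a ∈ SA, a ∈ A := fun a ha => by rw [← hSA]; exact Algebra.subset_adjoin ha
  -- the units
  set uu : Ω → Ω := fun f => f / B.χ (v f) with huu
  set T1 : Finset Ω := SA ∪ F ∪ ((M ∪ T).image uu ∪ (M ∪ T).image fun f => (uu f)⁻¹) with hT1
  have hMT : ∀ f ∈ M ∪ T, B.Mono f := by
    intro f hf
    rcases Finset.mem_union.1 hf with hf | hf
    · exact (hM f hf).2
    · exact hT f hf
  have hT1R : ∀ f ∈ T1, f ∈ B.R := by
    intro f hf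
    rcases Finset.mem_union.1 hf with hf | hf
    · rcases Finset.mem_union.1 hf with hf | hf
      · exact hAR f (hSAA f hf)
      · exact hFR f hf
    · rcases Finset.mem_union.1 hf with hf | hf
      · obtain ⟨w, hw, rfl⟩ := Finset.mem_image.1 hf
        exact (hMT w hw).2.2.1
      · obtain ⟨w, hw, rfl⟩ := Finset.mem_image.1 hf
        exact ((hMT w hw).2.2.inv).1
  obtain ⟨S0, G, hS0, hGR, hTG, hN⟩ := B.exists_NFW h T1 hT1R
  -- the exponents
  have hWex : ∀ f : Ω, ∃ W : Finset ℝ, f ∈ B.R → ((∀ γ ∈ W, γ ∈ B.Γ ∧ 0 ≤ γ) ∧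
      f ∈ locv v (Algebra.adjoin C ((F : Set Ω) ∪ B.χ '' (W : Set ℝ)))) := by
    intro f
    by_cases hf : f ∈ B.R
    · have hf' := hf
      rw [hR] at hf'
      obtain ⟨W, h1, h2⟩ := QB.exists_finite' B (F : Set Ω) hf'
      exact ⟨W, fun _ => ⟨h1, h2⟩⟩
    · exact ⟨∅, fun h => absurd h hf⟩
  choose W hW using hWex
  set S1 : Finset ℝ := (G.biUnion W).filter fun γ => 0 < γ with hS1
  set S2 : Finset ℝ := ((M ∪ T).image fun f => |v f|).filter fun γ => 0 < γ with hS2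
  obtain ⟨u, hu⟩ := B.exists_basisW h (S0 ∪ S1 ∪ S2) (by
    intro γ hγ
    rcases Finset.mem_union.1 hγ with hγ | hγ
    · rcases Finset.mem_union.1 hγ with hγ | hγ
      · exact hS0 γ hγ
      · obtain ⟨h1, h2⟩ := Finset.mem_filter.1 hγ
        obtain ⟨f, hf, h3⟩ := Finset.mem_biUnion.1 h1
        exact ⟨((hW f (hGR f hf)).1 γ h3).1, h2⟩
    · obtain ⟨h1, h2⟩ := Finset.mem_filter.1 hγ
      obtain ⟨f, hf, rfl⟩ := Finset.mem_image.1 h1
      refine ⟨?_, h2⟩
      rcases abs_choice (v f) with h3 | h3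
      · rw [h3]
        exact (hMT f hf).2.1
      · rw [h3]
        exact B.Γ.neg_mem (hMT f hf).2.1)
  obtain ⟨N, hNx, hNy, hNR, hNle, hNT⟩ := hN u (QB.goodBasis_mono (by
    intro γ hγ
    exact Finset.mem_coe.2 (Finset.mem_union_left _ (Finset.mem_union_left _ hγ))) hu)
  have hNloc : ∀ f ∈ N.R, f ≠ 0 → v f = 0 → f⁻¹ ∈ N.R := by
    intro f hf h0 h1
    rw [hNR] at hf ⊢
    exact locv_inv hf h0 h1
  have hNF : ∀ f ∈ F, f ∈ N.R := fun f hf => hNT f
    (Finset.mem_union_left _ (Finset.mem_union_right _ hf))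
  -- the elements of `A` are in the frame
  have hkN : ∀ c : k, algebraMap k Ω c ∈ N.R := fun c => N.R.algebraMap_mem (algebraMap k C c)
  have hNA : ∀ f ∈ A, f ∈ N.R := by
    intro f hf
    rw [← hSA] at hf
    induction hf using Algebra.adjoin_induction with
    | mem x hx => exact hNT x (Finset.mem_union_left _ (Finset.mem_union_left _ hx))
    | algebraMap c => exact hkN c
    | add x y _ _ hx hy => exact N.R.add_mem hx hy
    | mul x y _ _ hx hy => exact N.R.mul_mem hx hy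
  set X : Finset Ω := Finset.univ.image N.x with hX
  have hXR : ∀ f ∈ X, f ∈ N.R := by
    intro f hf
    obtain ⟨i, -, rfl⟩ := Finset.mem_image.1 hf
    exact N.x_mem i
  -- the ring of the frame
  have hRing : N.R = locv v (Algebra.adjoin C ((F : Set Ω) ∪ (X : Set Ω))) := by
    set S' : Subalgebra C Ω := Algebra.adjoin C ((F : Set Ω) ∪ (X : Set Ω)) with hS'
    apply le_antisymm
    · rw [hNR]
      refine locv_le ?_ (fun f hf h0 h1 => locv_inv hf h0 h1)
      rw [Algebra.adjoin_le_iff]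
      rintro f ((hf | ⟨i, rfl⟩) | hf)
      · obtain ⟨h1, h2⟩ := hW f (hGR f hf)
        have h3 : locv v (Algebra.adjoin C ((F : Set Ω) ∪ B.χ '' (W f : Set ℝ))) ≤
            locv v S' := by
          refine locv_mono ?_
          rw [Algebra.adjoin_le_iff]
          rintro w (hw | ⟨γ, hγ, rfl⟩)
          · exact Algebra.subset_adjoin (Or.inl hw)
          · obtain ⟨hγΓ, hγ0⟩ := h1 γ hγ
            rcases hγ0.lt_or_eq with h4 | h4
            · obtain ⟨n, hn, hn'⟩ := hu.cone γ (Finset.mem_coe.2 (Finset.mem_union_left _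
                (Finset.mem_union_right _ (Finset.mem_filter.2
                  ⟨Finset.mem_biUnion.2 ⟨f, hf, hγ⟩, h4⟩))))
              have h5 := (QB.chi_sum B u hu.mem (fun i => (n i : ℤ)) Finset.univ).2
              have h6 : (∑ i, ((n i : ℤ) : ℝ) * u i) = γ := by
                rw [hn']
                exact Finset.sum_congr rfl fun i _ => by push_cast; rfl
              rw [h6] at h5
              rw [SetLike.mem_coe, h5]
              refine Subalgebra.prod_mem S' fun i _ => ?_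
              rw [zpow_natCast, ← hNx]
              have h7 : N.x i ∈ S' := Algebra.subset_adjoin (Or.inr
                (Finset.mem_coe.2 (Finset.mem_image_of_mem _ (Finset.mem_univ i))))
              exact S'.pow_mem h7 _
            · rw [SetLike.mem_coe, ← h4, B.χ_zero]
              exact Subalgebra.one_mem _
        exact h3 h2
      · exact le_locv _ (Algebra.subset_adjoin (Or.inr
          (Finset.mem_coe.2 (Finset.mem_image_of_mem _ (Finset.mem_univ i)))))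
      · rw [Set.mem_singleton_iff.1 hf]
        exact le_locv _ (Algebra.subset_adjoin (Or.inl (Finset.mem_coe.2 hyF)))
    · refine locv_le ?_ hNloc
      rw [hS', Algebra.adjoin_le_iff]
      rintro f (hf | hf)
      · exact hNF f hf
      · exact hXR f hf
  -- the same ring over `k`
  have hRing2 : ∀ f, f ∈ N.R ↔ f ∈ locv v (Algebra.adjoin k ((A : Set Ω) ∪
      ((F : Set Ω) ∪ (X : Set Ω)))) := by
    set D : Subalgebra k Ω := Algebra.adjoin k ((A : Set Ω) ∪ ((F : Set Ω) ∪ (X : Set Ω)))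
      with hD
    have hAD : ∀ a ∈ A, a ∈ D := fun a ha => Algebra.subset_adjoin (Or.inl ha)
    have h1 : ∀ f ∈ Algebra.adjoin C ((F : Set Ω) ∪ (X : Set Ω)), f ∈ locv v D := by
      intro f hf
      induction hf using Algebra.adjoin_induction with
      | mem x hx => exact le_locv _ (Algebra.subset_adjoin (Or.inr hx))
      | algebraMap c =>
        obtain ⟨a, ha, b, hb, hb0, hvb, h2⟩ := hC c c.2
        exact ⟨a, hAD a ha, b, hAD b hb, hb0, hvb, h2⟩
      | add x y _ _ hx hy => exact (locv v D).add_mem hx hy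
      | mul x y _ _ hx hy => exact (locv v D).mul_mem hx hy
    have h2 : ∀ f ∈ D, f ∈ N.R := by
      intro f hf
      induction hf using Algebra.adjoin_induction with
      | mem x hx =>
        rcases hx with hx | hx | hx
        · exact hNA x hx
        · exact hNF x hx
        · exact hXR x hx
      | algebraMap c => exact hkN c
      | add x y _ _ hx hy => exact N.R.add_mem hx hy
      | mul x y _ _ hx hy => exact N.R.mul_mem hx hy
    intro f
    constructor
    · intro hf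
      rw [hRing] at hf
      obtain ⟨a, ha, b, hb, hb0, hvb, rfl⟩ := hf
      rw [div_eq_mul_inv]
      exact (locv v D).mul_mem (h1 a ha) (locv_inv (h1 b hb) hb0 hvb)
    · rintro ⟨a, ha, b, hb, hb0, hvb, rfl⟩
      rw [div_eq_mul_inv]
      exact N.R.mul_mem (h2 a ha) (hNloc b (h2 b hb) hb0 hvb)
  -- numerators and denominators
  have hfrac : ∀ w : Ω, ∃ nu de : Ω, w ∈ F ∪ X → (de ∈ Submonoid.closure (M : Set Ω) ∧
      nu ∈ A ∧ w = nu / de) := by
    intro w
    by_cases hw : w ∈ F ∪ X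
    · rcases Finset.mem_union.1 hw with h1 | h1
      · obtain ⟨a, ha, b, hb, h2⟩ := hF w h1
        exact ⟨a, b, fun _ => ⟨hb, ha, h2⟩⟩
      · obtain ⟨i, -, h2⟩ := Finset.mem_image.1 h1
        obtain ⟨a, ha, b, hb, h3⟩ := hχ (u i) (hu.mem i)
        refine ⟨a, b, fun _ => ⟨hb, ?_, by rw [← h2, hNx, h3]⟩⟩
        exact (Submonoid.closure_le (S := A.toSubmonoid)).2 (fun m hm => (hM m hm).1) ha
    · exact ⟨0, 0, fun h => absurd h hw⟩
  choose nu de hnd using hfrac
  have hMne : ∀ m ∈ M, m ≠ 0 := fun m hm => (hM m hm).2.ne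
  have hcl : ∀ a ∈ Submonoid.closure (M : Set Ω), a ∈ A := fun a ha =>
    (Submonoid.closure_le (S := A.toSubmonoid)).2 (fun m hm => (hM m hm).1) ha
  set g : Ω := ∏ w ∈ F ∪ X, de w with hg
  have hgcl : g ∈ Submonoid.closure (M : Set Ω) :=
    Submonoid.prod_mem _ fun w hw => (hnd w hw).1
  have hg0 : g ≠ 0 := QA.ne_of_closure hMne hgcl
  have hMTpos : ∀ f ∈ M ∪ T, N.MonoPos f := by
    intro f hf
    refine QB.monoPos_of B N u hu hNx (hMT f hf) (fun h0 => ?_) ?_ ?_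
    · refine Finset.mem_coe.2 (Finset.mem_union_right _ (Finset.mem_filter.2
        ⟨Finset.mem_image_of_mem _ hf, abs_pos.2 h0⟩))
    · exact hNT _ (Finset.mem_union_right _ (Finset.mem_union_left _
        (Finset.mem_image_of_mem uu hf)))
    · exact hNT _ (Finset.mem_union_right _ (Finset.mem_union_right _
        (Finset.mem_image_of_mem (fun f => (uu f)⁻¹) hf)))
  have hclpos : ∀ a ∈ Submonoid.closure (M : Set Ω), N.MonoPos a ∧ 0 ≤ v a := by
    intro a ha
    induction ha using Submonoid.closure_induction with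
    | mem m hm =>
      exact ⟨hMTpos m (Finset.mem_union_left _ hm),
        N.nonneg m (hNA m (hM m hm).1) (hMne m hm)⟩
    | one => exact ⟨QB.monoPos_one N, v.map_one.ge⟩
    | mul x y _ _ hx hy => exact QB.monoPos_mul N hx.1 hx.2 hy.1 hy.2
  have hWnn : ∀ w ∈ F ∪ X, v.Ge 0 w := by
    intro w hw
    rcases Finset.mem_union.1 hw with h1 | h1
    · exact N.nonneg w (hNF w h1)
    · exact N.nonneg w (hXR w h1)
  refine ⟨N, hNy, g, hcl g hgcl, hg0, (hclpos g hgcl).1, (F ∪ X).image fun w => g * w, ?_, ?_,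
    fun t ht => hMTpos t (Finset.mem_union_right _ ht)⟩
  · intro x hx
    obtain ⟨w, hw, rfl⟩ := Finset.mem_image.1 hx
    refine ⟨?_, fun h0 => ?_⟩
    · have h1 : g * w = nu w * ∏ w' ∈ (F ∪ X).erase w, de w' := by
        have h2 : de w ≠ 0 := QA.ne_of_closure hMne (hnd w hw).1
        have h3 : nu w = w * de w := (div_eq_iff h2).1 (hnd w hw).2.2.symm
        rw [hg, ← Finset.mul_prod_erase _ _ hw, h3]
        ring
      rw [h1]
      exact mul_mem (hnd w hw).2.1 (Subalgebra.prod_mem A fun w' hw' =>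
        hcl _ (hnd w' (Finset.mem_of_mem_erase hw')).1)
    · have h1 : w ≠ 0 := right_ne_zero_of_mul h0
      rw [v.map_mul hg0 h1]
      have := hWnn w hw h1
      linarith
  · have h1 : (fun x => x / g) '' (((F ∪ X).image fun w => g * w : Finset Ω) : Set Ω) =
        (F : Set Ω) ∪ (X : Set Ω) := by
      ext z
      simp only [Set.mem_image, Finset.mem_coe, Finset.mem_image, Finset.mem_union, Set.mem_union]
      constructor
      · rintro ⟨_, ⟨w, hw, rfl⟩, rfl⟩
        rw [mul_div_cancel_left₀ _ hg0]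
        exact hw
      · intro hz
        exact ⟨g * z, ⟨z, hz, rfl⟩, mul_div_cancel_left₀ _ hg0⟩
    rw [h1]
    exact hRing2

end Pool.Agent.LU1
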