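import Pool.Agent.Lib.LU2_h15z.ValC
import Pool.Agent.Lib.LU2_h80.Defs
import Pool.Agent.Lib.LU1_h15.ExtVal

/-! # LU2: algebraic extensions of real valuations -/

set_option autoImplicit false

namespace Pool.Agent.LU2

open Pool.Agent.H15JM (RVal)
open Pool.Agent.LU1 (VPos ResInd CtxD)
open Polynomial

universe u

/-- Residues of an algebraic extension are algebraic. -/
theorem res_ext {k₀ L Ω : Type u} [Field k₀] [Field L] [Field Ω] [Algebra k₀ L] [Algebra L Ω]
    [Algebra k₀ Ω] [IsScalarTower k₀ L Ω] [Algebra.IsAlgebraic L Ω] (u : RVal L) (w : RVal Ω)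
    (hw : ∀ g : L, g ≠ 0 → w (algebraMap L Ω g) = u g)
    (htriv : ∀ c : k₀, c ≠ 0 → u (algebraMap k₀ L c) = 0)
    (hres : ∀ g : L, u.Ge 0 g → ∃ P : k₀[X], P.Monic ∧ VPos u (aeval g P)) :
    ∀ g : Ω, w.Ge 0 g → ∃ P : k₀[X], P.Monic ∧ VPos w (aeval g P) := by
  classical
  have hge : ∀ c : k₀, w.Ge 0 (algebraMap k₀ Ω c) := by
    intro c h0
    have hc : c ≠ 0 := by rintro rfl; simp at h0
    rw [IsScalarTower.algebraMap_apply k₀ L Ω, hw _ (by simpa using hc), htriv c hc]
  have hgeL : ∀ c : L, u.Ge 0 c → w.Ge 0 (algebraMap L Ω c) := by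
    intro c hc h0
    have hc' : c ≠ 0 := by rintro rfl; simp at h0
    rw [hw _ hc']
    exact hc hc'
  let O : ValuationSubring Ω := vring w
  let j : k₀ →+* O :=
    { toFun := fun c => ⟨algebraMap k₀ Ω c, hge c⟩
      map_one' := Subtype.ext (map_one _)
      map_mul' := fun a b => Subtype.ext (map_mul _ a b)
      map_zero' := Subtype.ext (map_zero _)
      map_add' := fun a b => Subtype.ext (map_add _ a b) }
  let _ : Algebra k₀ O := j.toAlgebra
  have i1 : IsScalarTower k₀ O Ω := IsScalarTower.of_algebraMap_eq fun c => rfl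
  let κ := IsLocalRing.ResidueField O
  have hmax : ∀ g : O, algebraMap O κ g = 0 ↔ VPos w (g : Ω) := by
    intro g
    have h1 : algebraMap O κ g = 0 ↔ g ∈ IsLocalRing.maximalIdeal O :=
      IsLocalRing.residue_eq_zero_iff g
    rw [h1, ValuationSubring.valuation_lt_one_iff, (rel_vring w).lt_one_iff']
  have hae : ∀ (g : O) (P : k₀[X]), aeval (algebraMap O κ g) P = 0 ↔
      VPos w (aeval (g : Ω) P) := by
    intro g P
    have h1 : ((aeval g P : O) : Ω) = aeval (g : Ω) P := (aeval_algebraMap_apply Ω g P).symm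
    rw [aeval_algebraMap_apply, hmax, h1]
  intro g hg
  -- the residue of `g` is algebraic over the algebraic closure of `k₀`
  let M : IntermediateField k₀ κ := algebraicClosure k₀ κ
  let gO : O := ⟨g, hg⟩
  have hgM : IsAlgebraic M (algebraMap O κ gO) := by
    obtain ⟨P, hP, hPg⟩ := Algebra.IsAlgebraic.isAlgebraic (R := L) g
    have hsne := (Polynomial.nonempty_support_iff).mpr hP
    obtain ⟨i₀, hi₀, hmin⟩ := Finset.exists_min_image P.support (fun i => u (P.coeff i)) hsne
    have ha₀ : P.coeff i₀ ≠ 0 := mem_support_iff.mp hi₀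
    have hcge : ∀ i, u.Ge 0 ((P.coeff i₀)⁻¹ * P.coeff i) := by
      intro i h0
      have hi0 : P.coeff i ≠ 0 := right_ne_zero_of_mul h0
      rw [u.map_mul (inv_ne_zero ha₀) hi0, u.map_inv ha₀]
      have := hmin i (mem_support_iff.mpr hi0)
      linarith
    let c : ℕ → O := fun i => ⟨algebraMap L Ω ((P.coeff i₀)⁻¹ * P.coeff i), hgeL _ (hcge i)⟩
    have hcM : ∀ i, algebraMap O κ (c i) ∈ M := by
      intro i
      obtain ⟨Q, hQ, hQv⟩ := hres _ (hcge i)
      rw [mem_algebraicClosure_iff]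
      refine ⟨Q, hQ.ne_zero, ?_⟩
      rw [hae]
      have h1 : aeval (c i : Ω) Q = algebraMap L Ω (aeval ((P.coeff i₀)⁻¹ * P.coeff i) Q) :=
        aeval_algebraMap_apply Ω _ Q
      rw [h1]
      intro h0
      have h2 : aeval ((P.coeff i₀)⁻¹ * P.coeff i) Q ≠ 0 := by
        intro h3
        rw [h3, map_zero] at h0
        exact h0 rfl
      rw [hw _ h2]
      exact hQv h2
    let q : M[X] := ∑ i ∈ P.support, C (⟨algebraMap O κ (c i), hcM i⟩ : M) * X ^ i
    have hq : q.coeff i₀ = 1 := by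
      have h1 : q.coeff i₀ = ⟨algebraMap O κ (c i₀), hcM i₀⟩ := by
        change (∑ i ∈ P.support, C (⟨algebraMap O κ (c i), hcM i⟩ : M) * X ^ i).coeff i₀ = _
        rw [finsetSum_coeff, Finset.sum_eq_single i₀]
        · rw [coeff_C_mul_X_pow, if_pos rfl]
        · intro j _ hj
          rw [coeff_C_mul_X_pow, if_neg (Ne.symm hj)]
        · intro h
          exact absurd hi₀ h
      rw [h1]
      apply Subtype.ext
      have h2 : c i₀ = 1 := by
        apply Subtype.ext
        change algebraMap L Ω ((P.coeff i₀)⁻¹ * P.coeff i₀) = 1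
        rw [inv_mul_cancel₀ ha₀, map_one]
      change algebraMap O κ (c i₀) = 1
      rw [h2, map_one]
    refine ⟨q, fun h => ?_, ?_⟩
    · rw [h, coeff_zero] at hq
      exact zero_ne_one hq
    · change aeval (algebraMap O κ gO)
        (∑ i ∈ P.support, C (⟨algebraMap O κ (c i), hcM i⟩ : M) * X ^ i) = 0
      rw [map_sum]
      have h1 : ∀ i ∈ P.support, aeval (algebraMap O κ gO)
          (C (⟨algebraMap O κ (c i), hcM i⟩ : M) * X ^ i) = algebraMap O κ (c i * gO ^ i) := by
        intro i _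
        rw [map_mul, map_pow, aeval_C, aeval_X, map_mul, map_pow]
        rfl
      rw [Finset.sum_congr rfl h1, ← map_sum]
      have h2 : ∑ i ∈ P.support, c i * gO ^ i = 0 := by
        apply Subtype.ext
        have h3 : ((∑ i ∈ P.support, c i * gO ^ i : O) : Ω) =
            ∑ i ∈ P.support, algebraMap L Ω ((P.coeff i₀)⁻¹ * P.coeff i) * g ^ i := by
          exact map_sum O.subtype _ _
        rw [h3]
        change _ = (0 : Ω)
        rw [aeval_def, eval₂_eq_sum, sum_def] at hPg
        have : ∀ i ∈ P.support, algebraMap L Ω ((P.coeff i₀)⁻¹ * P.coeff i) * g ^ i =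
            algebraMap L Ω ((P.coeff i₀)⁻¹) * (algebraMap L Ω (P.coeff i) * g ^ i) := by
          intro i _
          rw [_root_.map_mul]; ring
        rw [Finset.sum_congr rfl this, ← Finset.mul_sum, hPg, mul_zero]
      rw [h2, map_zero]
  have hint : IsIntegral k₀ (algebraMap O κ gO) :=
    isIntegral_trans (A := M) _ hgM.isIntegral
  refine ⟨minpoly k₀ (algebraMap O κ gO), minpoly.monic hint, ?_⟩
  have h1 := (hae gO (minpoly k₀ (algebraMap O κ gO))).1 (minpoly.aeval _ _)
  exact h1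

/-- Real valuations of defect one. -/
structure LD (k : Type u) {L : Type u} [Field k] [Field L] [Algebra k L] (u : RVal L)
    (r s : ℕ) (x : Fin r → L) (z : Fin s → L) : Prop where
  rpos : 0 < r
  x_ne : ∀ i, x i ≠ 0
  ind : LinearIndependent ℚ fun i => u (x i)
  span : ∀ g : L, g ≠ 0 → u g ∈ Submodule.span ℚ (Set.range fun i => u (x i))
  z_val : ResInd k u z
  res : ∀ g : L, u.Ge 0 g →
    ∃ P : (IntermediateField.adjoin k (Set.range z))[X], P.Monic ∧ VPos u (aeval g P)
  trdeg : Algebra.trdeg k L = r + 1 + s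

section

variable {k L : Type u} [Field k] [Field L] [Algebra k L] {u : RVal L}

theorem resInd_const {s : ℕ} {z : Fin s → L} (h : ResInd k u z) (c : k) (hc : c ≠ 0) :
    u (algebraMap k L c) = 0 := by
  have h1 := (h (MvPolynomial.C c) (by simpa using hc)).2
  rwa [MvPolynomial.aeval_C] at h1

theorem resInd_algInd {s : ℕ} {z : Fin s → L} (h : ResInd k u z) : AlgebraicIndependent k z := by
  rw [algebraicIndependent_iff]
  intro P hP
  by_contra h0
  exact (h P h0).1 hP

/-- Elements of the coefficient field are quotients of units. -/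
theorem resInd_mem {s : ℕ} {z : Fin s → L} {c : L}
    (hc : c ∈ IntermediateField.adjoin k (Set.range z)) :
    ∃ P Q : MvPolynomial (Fin s) k, Q ≠ 0 ∧ (c ≠ 0 → P ≠ 0) ∧
      c = MvPolynomial.aeval z P / MvPolynomial.aeval z Q := by
  obtain ⟨a, ha, b, hb, hab⟩ := IntermediateField.mem_adjoin_iff_div.1 hc
  rw [Algebra.adjoin_range_eq_range_aeval] at ha hb
  obtain ⟨P, rfl⟩ := ha
  obtain ⟨Q, rfl⟩ := hb
  by_cases hc0 : c = 0
  · exact ⟨0, 1, one_ne_zero, fun h1 => absurd hc0 h1, by rw [hc0, map_zero, zero_div]⟩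
  · refine ⟨P, Q, ?_, fun _ => ?_, hab⟩
    · rintro rfl
      apply hc0
      rw [hab, map_zero, div_zero]
    · rintro rfl
      apply hc0
      rw [hab, map_zero, zero_div]

theorem resInd_triv {s : ℕ} {z : Fin s → L} (h : ResInd k u z) {c : L}
    (hc : c ∈ IntermediateField.adjoin k (Set.range z)) (hc0 : c ≠ 0) : u c = 0 := by
  obtain ⟨P, Q, hQ, hP, rfl⟩ := resInd_mem hc
  obtain ⟨h1, h2⟩ := h P (hP hc0)
  obtain ⟨h3, h4⟩ := h Q hQ
  rw [u.map_div h1 h3, h2, h4, sub_self]

variable {Ω : Type u} [Field Ω] [Algebra k Ω] {w : RVal Ω} {r s : ℕ}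

theorem ResInd.map (ι : L →ₐ[k] Ω) (hw : ∀ g : L, g ≠ 0 → w (ι g) = u g) {z : Fin s → L}
    (h : ResInd k u z) : ResInd k w (fun i => ι (z i)) := by
  intro P hP
  obtain ⟨h1, h2⟩ := h P hP
  have h3 : MvPolynomial.aeval (fun i => ι (z i)) P = ι (MvPolynomial.aeval z P) :=
    (MvPolynomial.comp_aeval_apply z ι P).symm
  rw [h3, hw _ h1]
  exact ⟨(_root_.map_ne_zero ι).2 h1, h2⟩

/-- The standing assumptions hold for the algebraic closure. -/
theorem LD.ctxD [Algebra L Ω] [IsScalarTower k L Ω] [Algebra.IsAlgebraic L Ω] {x : Fin r → L}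
    {z : Fin s → L} (h : LD k u r s x z)
    (hw : ∀ g : L, g ≠ 0 → w (algebraMap L Ω g) = u g) : CtxD k w r s := by
  have hw' : ∀ g : L, g ≠ 0 → w ((IsScalarTower.toAlgHom k L Ω) g) = u g := hw
  have hz' := ResInd.map (IsScalarTower.toAlgHom k L Ω) hw' h.z_val
  refine ⟨h.rpos, ?_, ⟨fun i => algebraMap L Ω (x i), fun i => ?_, ?_, ?_⟩,
    ⟨fun i => algebraMap L Ω (z i), hz', ?_⟩⟩
  · have h1 : Algebra.trdeg k L + Algebra.trdeg L Ω = Algebra.trdeg k Ω := trdeg_add_eq k L
    have h2 : Algebra.trdeg L Ω = 0 := trdeg_eq_zero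
    rw [h2, add_zero] at h1
    rw [← h1, h.trdeg]
  · exact (_root_.map_ne_zero _).2 (h.x_ne i)
  · have h1 : (fun i => w (algebraMap L Ω (x i))) = fun i => u (x i) :=
      funext fun i => hw _ (h.x_ne i)
    rw [h1]
    exact h.ind
  · have h1 : (fun i => w (algebraMap L Ω (x i))) = fun i => u (x i) :=
      funext fun i => hw _ (h.x_ne i)
    rw [h1]
    exact fun g hg => LU1.ExtVal_H2.val_mem_span u w hw _ h.span g hg
  · intro g hg hg0
    let k₀ := IntermediateField.adjoin k (Set.range z)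
    let k₁ := IntermediateField.adjoin k (Set.range fun i => algebraMap L Ω (z i))
    obtain ⟨P, hP, hPv⟩ := res_ext (k₀ := k₀) u w hw (fun c hc =>
      resInd_triv h.z_val c.2 (fun h0 => hc (Subtype.ext h0))) h.res g (fun _ => hg0.ge)
    have hle : ∀ c : k₀, algebraMap L Ω c ∈ k₁ := by
      intro c
      have h1 : k₀ ≤ k₁.comap (IsScalarTower.toAlgHom k L Ω) := by
        rw [IntermediateField.adjoin_le_iff]
        rintro _ ⟨i, rfl⟩
        exact IntermediateField.subset_adjoin _ _ ⟨i, rfl⟩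
      exact h1 c.2
    let e : k₀ →+* k₁ :=
      { toFun := fun c => ⟨algebraMap L Ω c, hle c⟩
        map_one' := Subtype.ext (map_one _)
        map_mul' := fun a b => Subtype.ext (map_mul (algebraMap L Ω) _ _)
        map_zero' := Subtype.ext (map_zero _)
        map_add' := fun a b => Subtype.ext (map_add (algebraMap L Ω) _ _) }
    refine ⟨P.map e, hP.map e, ?_⟩
    have h1 : aeval g (P.map e) = aeval g P := by
      rw [aeval_def, eval₂_map, aeval_def]
      rfl
    rw [h1]
    exact hPv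

end

end Pool.Agent.LU2
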