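import Pool.Agent.Lib.LU2_h80.Main
import Pool.Agent.Lib.LU2_h15z.ResExt
import Pool.Agent.Lib.LU2_h15z.QN
import Pool.Agent.Lib.LU2_h15z.Exit

/-! # LU2: the real case, defect one -/

set_option autoImplicit false

namespace Pool.Agent.LU2

open Pool.Agent.H15JM (RVal)
open Pool.Agent.LU1 (VPos ResInd CtxD CtxW BF NF locv QR FracIs Model TrivOn Ctx2)
open Pool.Agent.LU2G
open Polynomial

universe u

section

variable {k K Ω : Type u} [Field k] [Field K] [Field Ω] [Algebra k K] [Algebra k Ω]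
  {v : RVal K} {w : RVal Ω}

theorem mem_locv_map (ι : K →ₐ[k] Ω) (hw : ∀ f : K, f ≠ 0 → w (ι f) = v f)
    (S : Subalgebra k K) (f : Ω) : f ∈ locv w (S.map ι) ↔ ∃ s ∈ locv v S, ι s = f := by
  constructor
  · rintro ⟨a, ⟨a, ha, rfl⟩, b, ⟨b, hb, rfl⟩, hb0, hvb, rfl⟩
    have hb0' : b ≠ 0 := by
      rintro rfl
      exact hb0 (map_zero ι)
    refine ⟨a / b, ⟨a, ha, b, hb, hb0', ?_, rfl⟩, map_div₀ ι a b⟩
    rw [← hw b hb0']
    exact hvb
  · rintro ⟨s, ⟨a, ha, b, hb, hb0, hvb, rfl⟩, rfl⟩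
    exact ⟨ι a, ⟨a, ha, rfl⟩, ι b, ⟨b, hb, rfl⟩, (_root_.map_ne_zero ι).2 hb0,
      by rw [hw b hb0, hvb], map_div₀ ι a b⟩

/-- The exit, with everything inside the big field. -/
theorem lurAt_of' (ι : K →ₐ[k] Ω) (hw : ∀ f : K, f ≠ 0 → w (ι f) = v f)
    {V : ValuationSubring K} (hV : Rel V v)
    {C : Type u} [Field C] [Algebra C Ω] (A : Subalgebra k K) (R : Subalgebra C Ω) {n : ℕ}
    (zz : Fin n → Ω) (J : Finset (Fin n)) (hne : ∀ i, zz i ≠ 0) (hmem : ∀ i, zz i ∈ R)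
    (hpos : ∀ i, 0 < w (zz i))
    (hgen : ∀ f ∈ R, VPos w f → ∃ a : Fin n → Ω, (∀ i, a i ∈ R) ∧ f = ∑ i, a i * zz i)
    (hdim : ringKrullDim R = n) {g' : Ω} (hg : g' ∈ A.map ι) (hg0 : g' ≠ 0) (G' : Finset Ω)
    (hG : ∀ x ∈ G', x ∈ A.map ι ∧ w.Ge (w g') x)
    (hR : ∀ f, f ∈ R ↔ f ∈ locv w (Algebra.adjoin k (((A.map ι : Subalgebra k Ω) : Set Ω) ∪
      (fun x => x / g') '' (G' : Set Ω))))
    (T : Finset K)
    (hmono : ∀ t, t = g' ∨ (∃ t' ∈ T, t = ι t') → ∃ e : Fin n → ℤ, ∃ u ∈ R, u ≠ 0 ∧ w u = 0 ∧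
      t = (∏ i, zz i ^ e i) * u ∧ (∀ i, i ∉ J → e i = 0) ∧
      (0 < w t → ∀ i ∈ J, 0 < e i) ∧ (w t < 0 → ∀ i ∈ J, e i < 0) ∧
      (w t = 0 → ∀ i, e i = 0)) : LUrAt V A T := by
  classical
  have hι : Function.Injective ι := ι.toRingHom.injective
  obtain ⟨g, hgA, rfl⟩ := hg
  have hg1 : g ≠ 0 := by
    rintro rfl
    exact hg0 (map_zero ι)
  refine lurAt_of (g := g) ι hw hV A R zz J hne hmem hpos hgen hdim hgA hg1
    (G'.preimage ι hι.injOn) ?_ ?_ T ?_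
  · intro x hx
    obtain ⟨h1, h2⟩ := hG _ (Finset.mem_preimage.1 hx)
    obtain ⟨x', hx', hxe⟩ := h1
    have hxx : x' = x := hι hxe
    rw [hxx] at hx'
    refine ⟨hx', ?_⟩
    intro h0
    have h3 := h2 (fun h1 => h0 (hι (by rw [h1, map_zero])))
    have h4 : w (ι g) ≤ w (ι x) := h3
    rwa [hw g hg1, hw x h0] at h4
  · intro f
    have h1 : ((A.map ι : Subalgebra k Ω) : Set Ω) ∪ (fun x => x / ι g) '' (G' : Set Ω) =
        ι '' ((A : Set K) ∪ (fun x => x / g) '' ((G'.preimage ι hι.injOn : Finset K) : Set K)) := by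
      rw [Set.image_union]
      congr 1
      ext z
      constructor
      · rintro ⟨x, hx, rfl⟩
        obtain ⟨⟨x', hx', hxe⟩, -⟩ := hG _ (Finset.mem_coe.1 hx)
        have hxe' : ι x' = x := hxe
        subst hxe'
        exact ⟨x' / g, ⟨x', Finset.mem_coe.2 (Finset.mem_preimage.2 hx), rfl⟩, map_div₀ ι x' g⟩
      · rintro ⟨_, ⟨x, hx, rfl⟩, rfl⟩
        exact ⟨ι x, Finset.mem_preimage.1 (Finset.mem_coe.1 hx), (map_div₀ ι x g).symm⟩
    rw [hR f, ← mem_locv_map ι hw, AlgHom.map_adjoin, ← h1]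
    rfl
  · rintro t (rfl | ht)
    · exact hmono _ (Or.inl rfl)
    · exact hmono _ (Or.inr ⟨t, ht, rfl⟩)

/-- Monomials in a noetherian frame. -/
theorem smono_of_nf {C : Type u} [Field C] [Algebra C Ω] {r : ℕ} (N : NF C w r) {t : Ω}
    (ht : N.MonoPos t) (c : Ω) :
    ∃ e : Fin (r + 1) → ℤ, ∃ u ∈ N.R, u ≠ 0 ∧ w u = 0 ∧
      t = (∏ i, (Fin.cons c N.x : Fin (r + 1) → Ω) i ^ e i) * u ∧
      (∀ i, i ∉ (Finset.univ.image Fin.succ : Finset (Fin (r + 1))) → e i = 0) ∧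
      (0 < w t → ∀ i ∈ (Finset.univ.image Fin.succ : Finset (Fin (r + 1))), 0 < e i) ∧
      (w t < 0 → ∀ i ∈ (Finset.univ.image Fin.succ : Finset (Fin (r + 1))), e i < 0) ∧
      (w t = 0 → ∀ i, e i = 0) := by
  classical
  obtain ⟨n, u, hu0, hu1, hu2, hf, h1, h2, h3⟩ := ht
  have hwu : w u = 0 := by
    have h4 : 0 ≤ w u := N.nonneg u hu1 hu0
    have h5 : 0 ≤ w u⁻¹ := N.nonneg _ hu2 (inv_ne_zero hu0)
    rw [w.map_inv hu0] at h5
    linarith
  refine ⟨Fin.cons 0 n, u, hu1, hu0, hwu, ?_, ?_, ?_, ?_, ?_⟩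
  · rw [Fin.prod_univ_succ]
    simp only [Fin.cons_zero, Fin.cons_succ, zpow_zero, one_mul]
    exact hf
  · intro i
    refine Fin.cases ?_ (fun j => ?_) i
    · intro _
      rfl
    · intro hj
      exact absurd (Finset.mem_image_of_mem _ (Finset.mem_univ j)) hj
  · intro h i hi
    obtain ⟨j, -, rfl⟩ := Finset.mem_image.1 hi
    rw [Fin.cons_succ]
    exact h1 h j
  · intro h i hi
    obtain ⟨j, -, rfl⟩ := Finset.mem_image.1 hi
    rw [Fin.cons_succ]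
    exact h2 h j
  · intro h i
    refine Fin.cases ?_ (fun j => ?_) i
    · rfl
    · rw [Fin.cons_succ]
      exact h3 h j

/-- A frame with the Q-property gives a regular chart. -/
theorem lurAt_of_bf {r s : ℕ} {V : ValuationSubring K} (hV : Rel V v) (ι : K →ₐ[k] Ω)
    (hw : ∀ f : K, f ≠ 0 → w (ι f) = v f) (hc : CtxD k w r s) {z : Fin s → K}
    (hz : ResInd k v z) (A : Subalgebra k K) (hA : A.FG) (hzA : ∀ i, z i ∈ A)
    (B : BF k w) (hAB : ∀ a ∈ A, ι a ∈ B.R) (hQR : ∀ f ∈ B.R, QR (A.map ι) B.MonoS f)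
    (T : Finset K) (hT : ∀ t ∈ T, B.Mono (ι t)) : LUrAt V A T := by
  classical
  have hz' : ResInd k w (fun i => ι (z i)) := ResInd.map ι hw hz
  set C : IntermediateField k Ω := IntermediateField.adjoin k (Set.range fun i => ι (z i)) with hC
  have haev : ∀ P : MvPolynomial (Fin s) k, MvPolynomial.aeval (fun i => ι (z i)) P ∈ A.map ι := by
    intro P
    have h1 : MvPolynomial.aeval (fun i => ι (z i)) P = ι (MvPolynomial.aeval z P) :=
      (MvPolynomial.comp_aeval_apply z ι P).symm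
    rw [h1]
    refine ⟨_, ?_, rfl⟩
    have h2 : Algebra.adjoin k (Set.range z) ≤ A := by
      rw [Algebra.adjoin_le_iff]
      rintro _ ⟨i, rfl⟩
      exact hzA i
    apply h2
    rw [Algebra.adjoin_range_eq_range_aeval]
    exact ⟨P, rfl⟩
  have hCA : ∀ c ∈ C, ∃ a ∈ A.map ι, ∃ b ∈ A.map ι, b ≠ 0 ∧ w b = 0 ∧ c = a / b := by
    intro c hcC
    obtain ⟨P, Q, hQ, -, hcPQ⟩ := resInd_mem hcC
    obtain ⟨h1, h2⟩ := hz' Q hQ
    exact ⟨_, haev P, _, haev Q, h1, h2, hcPQ⟩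
  have hAB' : ∀ a ∈ A.map ι, a ∈ B.R := by
    rintro _ ⟨a, ha, rfl⟩
    exact hAB a ha
  have hCB : ∀ c ∈ C, c ∈ B.R := by
    intro c hcC
    obtain ⟨a, ha, b, hb, hb0, hvb, rfl⟩ := hCA c hcC
    rw [div_eq_mul_inv]
    exact B.R.mul_mem (hAB' a ha) (B.loc b (hAB' b hb) hb0 hvb)
  obtain ⟨B', hΓ, hχ, hy, hR⟩ := B.exists_over C hCB
  have hMono : ∀ f, B.Mono f → B'.Mono f := by
    rintro f ⟨h1, h2, h3, h4⟩
    refine ⟨h1, by rw [hΓ]; exact h2, ?_, ?_⟩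
    · rw [hχ, hR]; exact h3
    · rw [hχ]; exact h4
  have hcw : CtxW w r := ⟨hc.rpos, hc.rank⟩
  obtain ⟨N, -, g', hg', hg0, hgm, G', hG', hR', hT'⟩ := LU1.exists_QN2 hcw C B' (A.map ι)
    (hA.map ι) (fun a ha => (hR a).2 (hAB' a ha)) hCA (by
      intro f hf
      obtain ⟨a, ha, b, hb, hb0, hbm, hab⟩ := hQR f ((hR f).1 hf)
      exact ⟨a, ha, b, hb, hb0, hMono b hbm, hab⟩) (T.image ι) (by
      intro t ht
      obtain ⟨t', ht', rfl⟩ := Finset.mem_image.1 ht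
      exact hMono _ (hT t' ht'))
  have h2 : Ctx2 C w r := hc.ctx2 C (fun c hcC hc0 => resInd_triv hz' hcC hc0)
    (trdeg_coeff' (resInd_algInd hz'))
  have hne : ∀ i, (Fin.cons N.y N.x : Fin (r + 1) → Ω) i ≠ 0 := by
    intro i
    refine Fin.cases ?_ (fun j => ?_) i
    · exact N.y_ne
    · exact N.x_ne j
  refine lurAt_of' ι hw hV A N.R (Fin.cons N.y N.x : Fin (r + 1) → Ω)
    (Finset.univ.image Fin.succ) hne ?_ ?_ ?_ ?_ hg' hg0 G' hG' hR' T ?_
  · intro i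
    refine Fin.cases ?_ (fun j => ?_) i
    · exact N.y_mem
    · exact N.x_mem j
  · intro i
    refine Fin.cases ?_ (fun j => ?_) i
    · exact N.y_pos
    · exact N.x_pos j
  · intro f hf hv
    obtain ⟨a, ha, b, hb, hfe⟩ := N.gen f hf hv
    refine ⟨Fin.cons b a, ?_, ?_⟩
    · intro i
      refine Fin.cases ?_ (fun j => ?_) i
      · exact hb
      · exact ha j
    · rw [Fin.sum_univ_succ]
      simp only [Fin.cons_zero, Fin.cons_succ]
      rw [hfe, add_comm, mul_comm]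
      congr 1
      exact Finset.sum_congr rfl fun i _ => mul_comm _ _
  · rw [N.dim2 h2]
    push_cast
    rfl
  · rintro t (rfl | ⟨t, ht, rfl⟩)
    · exact smono_of_nf N hgm _
    · exact smono_of_nf N (hT' _ (Finset.mem_image_of_mem _ ht)) _

end

/-- Frames over function fields with a real valuation of defect one. -/
theorem LD.exists_frame {k L : Type u} [Field k] [Field L] [Algebra k L] (p : ℕ) (hp : p.Prime)
    [CharP k p] [PerfectField k] (hL : (⊤ : IntermediateField k L).FG) {u : RVal L} {r s : ℕ}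
    {x : Fin r → L} {z : Fin s → L} (h : LD k u r s x z) (A : Subalgebra k L) (hA : A.FG)
    (hAge : ∀ a ∈ A, u.Ge 0 a) (hfrac : ∀ f : L, ∃ a ∈ A, ∃ b ∈ A, b ≠ 0 ∧ f = a / b)
    (T : Finset L) (hT : ∀ t ∈ T, t ≠ 0) :
    ∃ w : RVal (AlgebraicClosure L),
      (∀ g : L, g ≠ 0 → w (algebraMap L (AlgebraicClosure L) g) = u g) ∧ CtxD k w r s ∧
      ∃ B : BF k w, FracIs B.R (IsScalarTower.toAlgHom k L (AlgebraicClosure L)).fieldRange ∧
        (∀ a ∈ A, algebraMap L (AlgebraicClosure L) a ∈ B.R) ∧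
        (∀ t ∈ T, B.Mono (algebraMap L (AlgebraicClosure L) t)) ∧
        ∀ f ∈ B.R, QR (A.map (IsScalarTower.toAlgHom k L (AlgebraicClosure L))) B.MonoS f := by
  classical
  set ι : L →ₐ[k] AlgebraicClosure L := IsScalarTower.toAlgHom k L (AlgebraicClosure L) with hιdef
  obtain ⟨w, hw⟩ := LU1.exists_extVal L (AlgebraicClosure L) u
  have hw' : ∀ g : L, g ≠ 0 → w (ι g) = u g := hw
  have hc : CtxD k w r s := h.ctxD hw
  have hfg : ι.fieldRange.FG := by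
    obtain ⟨S, hS⟩ := hL
    refine ⟨S.image ι, ?_⟩
    rw [Finset.coe_image, ← IntermediateField.adjoin_map, hS]
    exact (AlgHom.fieldRange_eq_map ι).symm
  have halg : ∀ g : AlgebraicClosure L, IsAlgebraic ι.fieldRange g := by
    intro g
    obtain ⟨P, hP0, hP⟩ := (Algebra.IsAlgebraic.isAlgebraic g : IsAlgebraic L g)
    let j : L →+* ι.fieldRange := (ι.rangeRestrict : L →ₐ[k] ι.range).toRingHom
    refine ⟨P.map j, ?_, ?_⟩
    · exact (Polynomial.map_ne_zero_iff j.injective).2 hP0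
    · rw [Polynomial.aeval_def, Polynomial.eval₂_map]
      exact hP
  have hM : Model w (A.map ι) ι.fieldRange := by
    refine ⟨hA.map ι, ?_, ?_, ?_⟩
    · rintro _ ⟨a, -, rfl⟩
      exact ⟨a, rfl⟩
    · rintro _ ⟨a, ha, rfl⟩ h0
      have ha0 : a ≠ 0 := by
        rintro rfl
        exact h0 (map_zero ι)
      change 0 ≤ w (ι a)
      rw [hw' a ha0]
      exact hAge a ha ha0
    · rintro _ ⟨f, rfl⟩
      obtain ⟨a, ha, b, hb, hb0, rfl⟩ := hfrac f
      exact ⟨ι a, ⟨a, ha, rfl⟩, ι b, ⟨b, hb, rfl⟩, (_root_.map_ne_zero ι).2 hb0, map_div₀ ι a b⟩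
  obtain ⟨B, h1, h2, h3, h4⟩ := LU1.exists_big_frame p hp hc ι.fieldRange hfg halg
    (z := fun i => ι (z i)) (ResInd.map ι hw' h.z_val) (fun i => ⟨z i, rfl⟩)
    hM (T.image ι) (by
      intro t ht
      obtain ⟨t', ht', rfl⟩ := Finset.mem_image.1 ht
      exact ⟨⟨t', rfl⟩, (_root_.map_ne_zero ι).2 (hT t' ht')⟩)
  exact ⟨w, hw, hc, B, h1, fun a ha => h2 _ ⟨a, ha, rfl⟩,
    fun t ht => h3 _ (Finset.mem_image_of_mem _ ht), h4⟩

/-- The real case, defect one. -/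
theorem LD.lur {k K : Type u} [Field k] [Field K] [Algebra k K] (p : ℕ) (hp : p.Prime)
    [CharP k p] [PerfectField k] (hK : (⊤ : IntermediateField k K).FG) {V : ValuationSubring K}
    {v : RVal K} (hV : Rel V v) {r s : ℕ}
    {x : Fin r → K} {z : Fin s → K} (h : LD k v r s x z) : LUr k V := by
  classical
  intro A hA hAV hfrac T hT
  have hzV : ∀ i, z i ∈ V := by
    intro i
    have h1 := h.z_val (MvPolynomial.X i) (MvPolynomial.X_ne_zero i)
    rw [MvPolynomial.aeval_X] at h1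
    rw [hV.mem_iff]
    exact fun _ => h1.2.ge
  obtain ⟨A', g, hch, hzA⟩ := exists_chart_mem hAV hfrac (Finset.univ.image z) (by
    intro f hf
    obtain ⟨i, -, rfl⟩ := Finset.mem_image.1 hf
    exact hzV i)
  refine LUrAt.of_chart hAV hch (T' := insert g T) (Finset.mem_insert_self _ _)
    (fun t ht => Finset.mem_insert_of_mem ht) ?_
  have hA'V : ∀ a ∈ A', a ∈ V := hch.mem hAV
  obtain ⟨w, hw, hc, B, hF, hAB, hTB, hQR⟩ := h.exists_frame p hp hK A' (hch.fg hA)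
    (fun a ha => (hV.mem_iff a).1 (hA'V a ha)) (fun f => by
      obtain ⟨a, ha, b, hb, hb0, hab⟩ := hfrac f
      exact ⟨a, hch.le ha, b, hch.le hb, hb0, hab⟩) (insert g T) (by
      intro t ht
      rcases Finset.mem_insert.1 ht with rfl | ht
      · exact hch.2.1
      · exact hT t ht)
  exact lurAt_of_bf hV (IsScalarTower.toAlgHom k K (AlgebraicClosure K)) hw hc h.z_val A'
    (hch.fg hA) (fun i => hzA _ (Finset.mem_image_of_mem _ (Finset.mem_univ i))) B hAB hQR _ hTB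

end Pool.Agent.LU2
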