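import Pool.Agent.Lib.JM_H15.Basic

/-! # LU2, defect 0: the completion of a real valued field contains a lacunary series -/

set_option autoImplicit false

namespace Pool.Agent.LU2

open Pool.Agent.H15JM (RVal)
open Filter Topology

universe u

variable {K : Type u} [Field K]

/-- The absolute value `exp (- v f)`. -/
noncomputable def rabs (v : RVal K) : AbsoluteValue K ℝ where
  toFun f := by
    classical
    exact if f = 0 then 0 else Real.exp (-v f)
  map_mul' f g := by
    by_cases hf : f = 0
    · subst hf; simp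
    by_cases hg : g = 0
    · subst hg; simp
    rw [if_neg hf, if_neg hg, if_neg (mul_ne_zero hf hg), v.map_mul hf hg, ← Real.exp_add]
    congr 1
    ring
  nonneg' f := by
    by_cases hf : f = 0
    · rw [if_pos hf]
    · rw [if_neg hf]; exact (Real.exp_pos _).le
  eq_zero' f := by
    by_cases hf : f = 0
    · rw [if_pos hf]; exact ⟨fun _ => hf, fun _ => rfl⟩
    · rw [if_neg hf]
      exact ⟨fun h => absurd h (Real.exp_pos _).ne', fun h => absurd h hf⟩
  add_le' f g := by
    by_cases hf : f = 0
    · subst hf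
      rw [if_pos (rfl : (0 : K) = 0), zero_add, zero_add]
    by_cases hg : g = 0
    · subst hg
      rw [if_pos (rfl : (0 : K) = 0), add_zero, add_zero]
    rw [if_neg hf, if_neg hg]
    by_cases hfg : f + g = 0
    · rw [if_pos hfg]; positivity
    rw [if_neg hfg]
    have h1 := v.map_add hf hg hfg
    rcases min_le_iff.1 h1 with h2 | h2
    · have : Real.exp (-v (f + g)) ≤ Real.exp (-v f) := Real.exp_le_exp.2 (by linarith)
      linarith [Real.exp_pos (-v g)]
    · have : Real.exp (-v (f + g)) ≤ Real.exp (-v g) := Real.exp_le_exp.2 (by linarith)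
      linarith [Real.exp_pos (-v f)]

theorem rabs_apply (v : RVal K) {f : K} (hf : f ≠ 0) : rabs v f = Real.exp (-v f) := by
  exact if_neg hf

theorem rabs_add_le (v : RVal K) (f g : K) : rabs v (f + g) ≤ max (rabs v f) (rabs v g) := by
  by_cases hf : f = 0
  · subst hf; rw [zero_add]; exact le_max_right _ _
  by_cases hg : g = 0
  · subst hg; rw [add_zero]; exact le_max_left _ _
  by_cases hfg : f + g = 0
  · rw [hfg, map_zero]
    exact le_max_of_le_left ((rabs v).nonneg _)
  rw [rabs_apply v hf, rabs_apply v hg, rabs_apply v hfg, le_max_iff, Real.exp_le_exp,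
    Real.exp_le_exp]
  rcases min_le_iff.1 (v.map_add hf hg hfg) with h2 | h2
  · left; linarith
  · right; linarith

theorem norm_add_le_max (v : RVal K) (f g : (rabs v).Completion) : ‖f + g‖ ≤ max ‖f‖ ‖g‖ := by
  refine UniformSpace.Completion.induction_on₂
    (p := fun f g : (rabs v).Completion => ‖f + g‖ ≤ max ‖f‖ ‖g‖) f g ?_ ?_
  · refine isClosed_le ?_ ?_
    · exact (continuous_fst.add continuous_snd).norm
    · exact continuous_fst.norm.max continuous_snd.norm
  · intro a b
    rw [← UniformSpace.Completion.coe_add, UniformSpace.Completion.norm_coe,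
      UniformSpace.Completion.norm_coe, UniformSpace.Completion.norm_coe,
      WithAbs.norm_eq_apply_ofAbs, WithAbs.norm_eq_apply_ofAbs, WithAbs.norm_eq_apply_ofAbs]
    exact rabs_add_le v _ _

/-- The real valuation of the completion. -/
noncomputable def cval (v : RVal K) : RVal (rabs v).Completion where
  toFun f := -Real.log ‖f‖
  map_mul' f g hf hg := by
    rw [norm_mul, Real.log_mul (norm_ne_zero_iff.2 hf) (norm_ne_zero_iff.2 hg)]
    ring
  map_add' f g hf hg hfg := by
    rw [min_neg_neg, neg_le_neg_iff]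
    rcases le_max_iff.1 (norm_add_le_max v f g) with h | h
    · exact (Real.log_le_log (norm_pos_iff.2 hfg) h).trans (le_max_left _ _)
    · exact (Real.log_le_log (norm_pos_iff.2 hfg) h).trans (le_max_right _ _)

/-- The embedding in the completion. -/
noncomputable def cemb (v : RVal K) : K →+* (rabs v).Completion :=
  (UniformSpace.Completion.coeRingHom).comp (WithAbs.equiv (rabs v)).symm.toRingHom

theorem norm_cemb (v : RVal K) (f : K) : ‖cemb v f‖ = rabs v f := by
  change ‖((WithAbs.toAbs (rabs v) f : WithAbs (rabs v)) : (rabs v).Completion)‖ = _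
  rw [UniformSpace.Completion.norm_coe, WithAbs.norm_eq_apply_ofAbs]

theorem cval_cemb (v : RVal K) {f : K} (hf : f ≠ 0) : cval v (cemb v f) = v f := by
  change -Real.log ‖cemb v f‖ = v f
  rw [norm_cemb, rabs_apply v hf, Real.log_exp, neg_neg]

theorem cval_ge_iff (v : RVal K) (c : ℝ) (f : (rabs v).Completion) :
    (cval v).Ge c f ↔ ‖f‖ ≤ Real.exp (-c) := by
  constructor
  · intro h
    by_cases hf : f = 0
    · rw [hf, norm_zero]; positivity
    · have h1 : c ≤ -Real.log ‖f‖ := h hf
      rw [← Real.log_le_iff_le_exp (norm_pos_iff.2 hf)]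
      linarith
  · intro h hf
    change c ≤ -Real.log ‖f‖
    rw [← Real.log_le_iff_le_exp (norm_pos_iff.2 hf)] at h
    linarith

/-- The partial sums of the lacunary series. -/
def lac {A : Type*} [CommSemiring A] (x : A) (n : ℕ) : A :=
  ∑ j ∈ Finset.range n, x ^ (j + 1).factorial

/-- The lacunary series. -/
theorem exists_lac (v : RVal K) {x : K} (hx0 : x ≠ 0) (hx : 0 < v x) :
    ∃ (L : Type u) (_ : Field L) (ι : K →+* L) (w : RVal L) (t : L),
      (∀ f, f ≠ 0 → w (ι f) = v f) ∧
      ∀ n, w.Ge (((n + 1).factorial : ℝ) * v x) (t - ι (lac x n)) := by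
  let ρ : ℝ := Real.exp (-v x)
  have hρ1 : ρ < 1 := by
    rw [← Real.exp_zero]; exact Real.exp_lt_exp.2 (by linarith)
  have hnorm : ∀ j : ℕ, ‖cemb v x ^ (j + 1).factorial‖ ≤ ρ ^ j := by
    intro j
    rw [norm_pow, norm_cemb, rabs_apply v hx0]
    refine pow_le_pow_of_le_one (Real.exp_pos _).le hρ1.le ?_
    exact (Nat.le_succ j).trans (Nat.self_le_factorial _)
  have hs : Summable fun j : ℕ => cemb v x ^ (j + 1).factorial :=
    Summable.of_norm_bounded (summable_geometric_of_lt_one (Real.exp_pos _).le hρ1) hnorm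
  refine ⟨(rabs v).Completion, inferInstance, cemb v, cval v,
    ∑' j : ℕ, cemb v x ^ (j + 1).factorial, fun f hf => cval_cemb v hf, fun n => ?_⟩
  rw [cval_ge_iff]
  have ht := hs.hasSum.tendsto_sum_nat
  have hlac : ∀ n, cemb v (lac x n) = ∑ j ∈ Finset.range n, cemb v x ^ (j + 1).factorial := by
    intro n
    rw [lac, map_sum]
    exact Finset.sum_congr rfl fun j _ => map_pow _ _ _
  have ht2 := (ht.sub_const (cemb v (lac x n))).norm
  refine le_of_tendsto ht2 ?_
  filter_upwards [eventually_ge_atTop n] with m hm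
  rw [hlac, Finset.sum_range_sub_sum_range hm, ← cval_ge_iff]
  refine RVal.Ge.sum _ _ fun j hj => ?_
  have hj' : n ≤ j := (Finset.mem_filter.1 hj).2
  rw [cval_ge_iff, norm_pow, norm_cemb, rabs_apply v hx0, ← Real.exp_nat_mul]
  refine Real.exp_le_exp.2 ?_
  have h1 : ((n + 1).factorial : ℝ) ≤ ((j + 1).factorial : ℝ) := by
    exact_mod_cast Nat.factorial_le (by omega)
  nlinarith

end Pool.Agent.LU2
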