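import Pool.Agent.Lib.LU2_h15z.ValA
import Pool.Agent.Lib.LU1_h15.Basic

/-! # LU2, defect 0: lacunary series are transcendental over `k(x)` -/

set_option autoImplicit false

namespace Pool.Agent.LU2

open Pool.Agent.H15JM (RVal)
open Pool.Agent.LU1 (VPos val_add_vpos)
open Polynomial

universe u

variable {k L : Type u} [Field k] [Field L] [Algebra k L]

theorem map_lac {A B : Type*} [CommSemiring A] [CommSemiring B] (f : A →+* B) (x : A) (n : ℕ) :
    f (lac x n) = lac (f x) n := by
  rw [lac, lac, map_sum]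
  exact Finset.sum_congr rfl fun j _ => map_pow _ _ _

theorem lac_succ {A : Type*} [CommSemiring A] (x : A) (n : ℕ) :
    lac x (n + 1) = lac x n + x ^ (n + 1).factorial := by
  rw [lac, Finset.sum_range_succ]
  rfl

theorem natDegree_lac_le (n : ℕ) : (lac (X : k[X]) n).natDegree ≤ n.factorial := by
  refine Polynomial.natDegree_sum_le_of_forall_le _ _ fun j hj => ?_
  rw [natDegree_X_pow]
  exact Nat.factorial_le (Finset.mem_range.1 hj)

theorem natDegree_lac (n : ℕ) : (lac (X : k[X]) (n + 2)).natDegree = (n + 2).factorial := by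
  rw [lac_succ, natDegree_add_eq_right_of_natDegree_lt, natDegree_X_pow]
  rw [natDegree_X_pow]
  refine (natDegree_lac_le (n + 1)).trans_lt ?_
  exact (Nat.factorial_lt (by omega)).2 (by omega)

/-- The value of a polynomial in `x` is at most its degree. -/
theorem val_aeval_le (w : RVal L) (htriv : ∀ c : k, c ≠ 0 → w (algebraMap k L c) = 0) {x : L}
    (hx0 : x ≠ 0) (hx : 0 < w x) (n : ℕ) : ∀ R : k[X], R ≠ 0 → R.natDegree ≤ n →
      aeval x R ≠ 0 ∧ w (aeval x R) ≤ n * w x := by
  have hge : ∀ c : k, w.Ge 0 (algebraMap k L c) := fun c h0 => by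
    rw [htriv c (by rintro rfl; simp at h0)]
  have hnn : ∀ R : k[X], w.Ge 0 (aeval x R) := by
    intro R
    rw [Polynomial.aeval_eq_sum_range]
    refine RVal.Ge.sum _ _ fun i _ => ?_
    rw [Algebra.smul_def]
    have h1 : w.Ge 0 (x ^ i) := fun _ => by
      rw [w.map_pow hx0]; positivity
    simpa using (hge _).mul h1
  induction n with
  | zero =>
    intro R hR hn
    have h1 := Polynomial.eq_C_of_natDegree_le_zero hn
    have h2 : R.coeff 0 ≠ 0 := by
      intro h0
      rw [h0, C_0] at h1
      exact hR h1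
    rw [h1, aeval_C]
    refine ⟨by simpa using h2, ?_⟩
    rw [htriv _ h2]; simp
  | succ n ih =>
    intro R hR hn
    have h1 := Polynomial.divX_mul_X_add R
    have h2 : aeval x R = aeval x R.divX * x + algebraMap k L (R.coeff 0) := by
      conv_lhs => rw [← h1]
      rw [map_add, map_mul, aeval_X, aeval_C]
    by_cases h0 : R.coeff 0 = 0
    · have h3 : R.divX ≠ 0 := by
        intro h4
        rw [h4, h0] at h1
        simp at h1
        exact hR h1.symm
      have h4 : R.divX.natDegree ≤ n := by
        rw [Polynomial.natDegree_divX_eq_natDegree_tsub_one]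
        omega
      obtain ⟨h5, h6⟩ := ih _ h3 h4
      rw [h2, h0, map_zero, add_zero]
      refine ⟨mul_ne_zero h5 hx0, ?_⟩
      rw [w.map_mul h5 hx0]
      push_cast
      linarith
    · have h3 : algebraMap k L (R.coeff 0) ≠ 0 := by simpa using h0
      have h4 : VPos w (aeval x R.divX * x) := VPos.mul' (hnn _) fun _ => hx
      obtain ⟨h5, h6⟩ := val_add_vpos h3 (htriv _ h0) h4
      rw [h2, add_comm]
      refine ⟨h5, ?_⟩
      rw [h6]
      positivity

/-- Polynomials with coefficients of nonnegative value are Lipschitz. -/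
theorem ge_eval_sub (w : RVal L) {ι : Type*} (s : Finset ι) (p : ι → L) (e : ι → ℕ)
    (hp : ∀ i ∈ s, w.Ge 0 (p i)) {a b : L} (ha : w.Ge 0 a) (hb : w.Ge 0 b) {δ : ℝ}
    (hab : w.Ge δ (a - b)) :
    w.Ge δ ((∑ i ∈ s, p i * a ^ e i) - ∑ i ∈ s, p i * b ^ e i) := by
  have hpow : ∀ {a : L}, w.Ge 0 a → ∀ n : ℕ, w.Ge 0 (a ^ n) := by
    intro a ha n
    induction n with
    | zero => rw [pow_zero]; intro _; rw [w.map_one]
    | succ n ih => rw [pow_succ]; simpa using ih.mul ha
  rw [← Finset.sum_sub_distrib]
  refine RVal.Ge.sum _ _ fun i hi => ?_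
  have h1 : p i * a ^ e i - p i * b ^ e i =
      p i * ((∑ j ∈ Finset.range (e i), a ^ j * b ^ (e i - 1 - j)) * (a - b)) := by
    rw [geom_sum₂_mul]; ring
  rw [h1]
  have h2 : w.Ge 0 (∑ j ∈ Finset.range (e i), a ^ j * b ^ (e i - 1 - j)) :=
    RVal.Ge.sum _ _ fun j _ => by simpa using (hpow ha j).mul (hpow hb (e i - 1 - j))
  simpa using (hp i hi).mul (h2.mul hab)

/-- The lacunary series is transcendental over `k[x]`. -/
theorem lac_transcendental (w : RVal L) (htriv : ∀ c : k, c ≠ 0 → w (algebraMap k L c) = 0)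
    {x : L} (hx0 : x ≠ 0) (hx : 0 < w x) {t : L}
    (ht : ∀ n, w.Ge (((n + 1).factorial : ℝ) * w x) (t - lac x n)) :
    Transcendental (Algebra.adjoin k {x}) t := by
  classical
  rintro ⟨Q, hQ0, hQ⟩
  -- lift the coefficients
  have hex : ∀ i, ∃ R : k[X], aeval x R = (Q.coeff i : L) := by
    intro i
    have h1 : ∀ z ∈ Algebra.adjoin k {x}, ∃ R : k[X], aeval x R = z := by
      intro z hz
      rw [Algebra.adjoin_singleton_eq_range_aeval] at hz
      exact hz
    exact h1 _ (Q.coeff i).2
  choose p hp using hex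
  let D := Q.natDegree
  let M := (Finset.range (D + 1)).sup fun i => (p i).natDegree
  let P : k[X][X] := ∑ i ∈ Finset.range (D + 1), C (p i) * X ^ i
  have hPcoeff : ∀ i, i ≤ D → P.coeff i = p i := by
    intro i hi
    simp only [P, Polynomial.finsetSum_coeff, Polynomial.coeff_C_mul, Polynomial.coeff_X_pow]
    rw [Finset.sum_eq_single i]
    · rw [if_pos rfl, mul_one]
    · intro j _ hj
      rw [if_neg (Ne.symm hj), mul_zero]
    · intro h
      exact absurd (Finset.mem_range.2 (Nat.lt_succ_of_le hi)) h
  have hP0 : P ≠ 0 := by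
    intro h0
    have h1 : p D = 0 := by rw [← hPcoeff D le_rfl, h0, coeff_zero]
    have h2 := hp D
    rw [h1, map_zero] at h2
    have h3 : Q.leadingCoeff = 0 := Subtype.ext h2.symm
    exact hQ0 (Polynomial.leadingCoeff_eq_zero.1 h3)
  have hPe : ∀ c : k[X], P.eval c = ∑ i ∈ Finset.range (D + 1), p i * c ^ i := by
    intro c
    simp only [P, Polynomial.eval_finsetSum, eval_mul, eval_C, eval_pow, eval_X]
  have hQe : ∀ l : L, aeval l Q = ∑ i ∈ Finset.range (D + 1), aeval x (p i) * l ^ i := by
    intro l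
    rw [Polynomial.aeval_eq_sum_range]
    refine Finset.sum_congr rfl fun i _ => ?_
    rw [hp, Algebra.smul_def]
    rfl
  -- values
  have hge : ∀ c : k, w.Ge 0 (algebraMap k L c) := fun c h0 => by
    rw [htriv c (by rintro rfl; simp at h0)]
  have hxn : ∀ i : ℕ, w.Ge 0 (x ^ i) := fun i _ => by rw [w.map_pow hx0]; positivity
  have hnn : ∀ R : k[X], w.Ge 0 (aeval x R) := by
    intro R
    rw [Polynomial.aeval_eq_sum_range]
    refine RVal.Ge.sum _ _ fun i _ => ?_
    rw [Algebra.smul_def]
    simpa using (hge _).mul (hxn i)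
  have hcn : ∀ n, w.Ge 0 (lac x n) := fun n => RVal.Ge.sum _ _ fun i _ => hxn _
  have htn : w.Ge 0 t := by
    have h1 := ht 0
    have h2 : lac x 0 = 0 := by simp [lac]
    rw [h2, sub_zero] at h1
    exact h1.mono (by positivity)
  -- the polynomial vanishes at all partial sums
  have hvan : ∀ n, P.eval (lac X (n + (M + D + 2))) = 0 := by
    intro n
    set N := n + (M + D + 2) with hN
    by_contra hne
    have hdeg : (P.eval (lac X N)).natDegree ≤ M + D * N.factorial := by
      rw [hPe]
      refine Polynomial.natDegree_sum_le_of_forall_le _ _ fun i hi => ?_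
      refine Polynomial.natDegree_mul_le.trans (add_le_add ?_ ?_)
      · exact Finset.le_sup (f := fun i => (p i).natDegree) hi
      · refine Polynomial.natDegree_pow_le.trans ?_
        exact Nat.mul_le_mul (Nat.lt_succ_iff.1 (Finset.mem_range.1 hi)) (natDegree_lac_le N)
    obtain ⟨h1, h2⟩ := val_aeval_le w htriv hx0 hx _ _ hne hdeg
    have h3 : aeval x (P.eval (lac X N)) = ∑ i ∈ Finset.range (D + 1),
        aeval x (p i) * lac x N ^ i := by
      rw [hPe, map_sum]
      refine Finset.sum_congr rfl fun i _ => ?_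
      have h5 : aeval x (lac X N : k[X]) = lac x N := by
        have h4 := map_lac (aeval x : k[X] →ₐ[k] L).toRingHom X N
        have h6 : (aeval x : k[X] →ₐ[k] L).toRingHom X = x := aeval_X x
        rw [h6] at h4
        exact h4
      rw [map_mul, map_pow, h5]
    have h4 := ge_eval_sub w (Finset.range (D + 1)) (fun i => aeval x (p i)) (fun i => i)
      (fun i _ => hnn _) htn (hcn N) (ht N)
    rw [← hQe, hQ, ← h3, zero_sub] at h4
    have h5 := h4 (neg_ne_zero.2 h1)
    rw [w.map_neg _ h1] at h5
    have h6 : ((N + 1).factorial : ℝ) * w x ≤ ((M + D * N.factorial : ℕ) : ℝ) * w x :=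
      h5.trans h2
    have h7 : ((N + 1).factorial : ℝ) ≤ ((M + D * N.factorial : ℕ) : ℝ) :=
      le_of_mul_le_mul_right h6 hx
    have h8 : (N + 1).factorial ≤ M + D * N.factorial := by exact_mod_cast h7
    have h9 : 0 < N.factorial := Nat.factorial_pos N
    rw [Nat.factorial_succ] at h8
    have h10 : M + D * N.factorial < (N + 1) * N.factorial := by
      have : M ≤ M * N.factorial := Nat.le_mul_of_pos_right M h9
      calc M + D * N.factorial ≤ M * N.factorial + D * N.factorial := by omega
        _ = (M + D) * N.factorial := by ring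
        _ < (N + 1) * N.factorial := by
          refine Nat.mul_lt_mul_of_pos_right ?_ h9
          omega
    omega
  -- infinitely many roots
  have hinj : Function.Injective fun n : ℕ => (lac X (n + (M + D + 2)) : k[X]) := by
    intro a b hab
    have h1 := congrArg Polynomial.natDegree hab
    simp only at h1
    have h2 : ∀ n, (lac X (n + (M + D + 2)) : k[X]).natDegree = (n + (M + D + 2)).factorial :=
      fun n => natDegree_lac (n + (M + D))
    rw [h2, h2] at h1
    rw [Nat.factorial_inj (by omega)] at h1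
    omega
  have hinf : Set.Infinite {c : k[X] | P.IsRoot c} :=
    Set.infinite_of_injective_forall_mem hinj hvan
  exact hP0 (Polynomial.eq_zero_of_infinite_isRoot P hinf)

end Pool.Agent.LU2
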