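import Pool.Agent.Lib.LU2_h15z.ZeroE

/-! # LU2: the real case, defect zero -/

set_option autoImplicit false

namespace Pool.Agent.LU1

open Pool.Agent.H15JM (RVal)
open Polynomial

universe u

variable {k Ω : Type u} [Field k] [Field Ω] [Algebra k Ω] {v : RVal Ω} {r : ℕ}

/-- A monic polynomial with non-zero constant term killing the residue of a unit. -/
theorem res0_gen (hres : ∀ g : Ω, g ≠ 0 → v g = 0 → ∃ P : k[X], P.Monic ∧ VPos v (aeval g P))
    {g : Ω} (h0 : g ≠ 0) (h1 : v g = 0) :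
    ∃ P : k[X], P.Monic ∧ P.coeff 0 ≠ 0 ∧ VPos v (aeval g P) := by
  have key : ∀ n : ℕ, ∀ P : k[X], P.natDegree = n → P.Monic → VPos v (aeval g P) →
      ∃ P : k[X], P.Monic ∧ P.coeff 0 ≠ 0 ∧ VPos v (aeval g P) := by
    intro n
    induction n with
    | zero =>
      intro P hn hm hP
      have h2 : P = 1 := hm.natDegree_eq_zero.1 hn
      rw [h2, map_one] at hP
      have h3 := hP one_ne_zero
      rw [v.map_one] at h3
      exact absurd h3 (lt_irrefl _)
    | succ n ih =>
      intro P hn hm hP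
      by_cases hc : P.coeff 0 = 0
      · have h2 : P = P.divX * X := by
          conv_lhs => rw [← Polynomial.divX_mul_X_add P]
          rw [hc, C_0, add_zero]
        refine ih P.divX (by rw [Polynomial.natDegree_divX_eq_natDegree_tsub_one, hn]; rfl) ?_ ?_
        · have h3 : (P.divX * X).Monic := by rw [← h2]; exact hm
          exact monic_X.of_mul_monic_right h3
        · intro h3
          have h4 : aeval g P = aeval g P.divX * g := by
            conv_lhs => rw [h2]
            rw [map_mul, aeval_X]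
          have h5 := hP (by rw [h4]; exact mul_ne_zero h3 h0)
          rwa [h4, v.map_mul h3 h0, h1, add_zero] at h5
      · exact ⟨P, hm, hc, hP⟩
  obtain ⟨P, hm, hP⟩ := hres g h0 h1
  exact key _ P rfl hm hP

theorem NF.dim_ge_gen
    (hres : ∀ g : Ω, g ≠ 0 → v g = 0 → ∃ P : k[X], P.Monic ∧ VPos v (aeval g P))
    {n : ℕ} (htr : Algebra.trdeg k Ω = n) (N : NF k v r) :
    (n : WithBot ℕ∞) ≤ ringKrullDim N.R := by
  obtain ⟨F, hF⟩ := N.fgen
  let A : Subalgebra k Ω := Algebra.adjoin k (F : Set Ω)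
  have hle : A ≤ N.R := by
    rw [hF]
    exact le_locv A
  have hA0 : ∀ a ∈ A, v.Ge 0 a := fun a ha => N.nonneg a (hle ha)
  let _ : Algebra A N.R := (Subalgebra.inclusion hle).toRingHom.toAlgebra
  let p : Ideal A :=
    { carrier := {a | VPos v (a : Ω)}
      add_mem' := fun {a b} ha hb => by
        have := VPos.add ha hb
        exact this
      zero_mem' := VPos.zero
      smul_mem' := fun c a ha => by
        have := VPos.mul' (hA0 c c.2) ha
        exact this }
  have hmem : ∀ a : A, a ∈ p ↔ VPos v (a : Ω) := fun a => Iff.rfl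
  have h1p : (1 : A) ∉ p := by
    intro h1
    have h2 := ((hmem 1).1 h1) one_ne_zero
    have h3 : v ((1 : A) : Ω) = 0 := v.map_one
    rw [h3] at h2
    exact lt_irrefl _ h2
  have hp : p.IsMaximal := by
    rw [Ideal.isMaximal_iff]
    refine ⟨h1p, fun J x hJ hx hxJ => ?_⟩
    have hx0 : (x : Ω) ≠ 0 := fun h0 => hx (by rw [hmem, h0]; exact VPos.zero)
    have hxv : v (x : Ω) = 0 := by
      by_contra h1
      exact hx (fun _ => lt_of_le_of_ne (hA0 x x.2 hx0) (Ne.symm h1))
    obtain ⟨P, -, hc0, hP⟩ := res0_gen hres hx0 hxv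
    set c := P.coeff 0 with hcdef
    have hPx : aeval x P ∈ p := by
      rw [hmem]
      have h3 : ((aeval x P : A) : Ω) = aeval (x : Ω) P := by
        exact (Polynomial.aeval_algHom_apply A.val x P).symm
      rw [h3]
      exact hP
    have h2 : algebraMap k A c ∈ J := by
      have h3 : aeval x P = aeval x P.divX * x + algebraMap k A c := by
        conv_lhs => rw [← Polynomial.divX_mul_X_add P]
        rw [map_add, map_mul, aeval_X, aeval_C]
      have h4 := J.sub_mem (hJ hPx) (J.mul_mem_left (aeval x P.divX) hxJ)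
      rwa [h3, add_sub_cancel_left] at h4
    have h4 := J.mul_mem_left (algebraMap k A c⁻¹) h2
    rwa [← _root_.map_mul, inv_mul_cancel₀ hc0, _root_.map_one] at h4
  have hpr : p.IsPrime := hp.isPrime
  have hloc : IsLocalization.AtPrime N.R p := by
    rw [IsLocalization.AtPrime, isLocalization_iff]
    refine ⟨?_, ?_, ?_⟩
    · rintro ⟨y, hy⟩
      have hy0 : (y : Ω) ≠ 0 := by
        intro h0
        apply hy
        rw [SetLike.mem_coe, hmem, h0]
        exact VPos.zero
      have hyv : v (y : Ω) = 0 := by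
        by_contra h1
        apply hy
        rw [SetLike.mem_coe, hmem]
        intro _
        exact lt_of_le_of_ne (hA0 y y.2 hy0) (Ne.symm h1)
      have hinv : (y : Ω)⁻¹ ∈ N.R := by
        rw [hF]
        exact locv_inv (le_locv A y.2) hy0 hyv
      refine IsUnit.of_mul_eq_one ⟨(y : Ω)⁻¹, hinv⟩ ?_
      apply Subtype.ext
      exact mul_inv_cancel₀ hy0
    · rintro ⟨z, hzR⟩
      have hz : z ∈ locv v A := by
        rw [← hF]
        exact hzR
      obtain ⟨a, ha, b, hb, hb0, hvb, hab⟩ := hz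
      refine ⟨(⟨a, ha⟩, ⟨⟨b, hb⟩, ?_⟩), ?_⟩
      · intro h1
        have h2 := ((hmem _).1 h1) hb0
        change 0 < v b at h2
        rw [hvb] at h2
        exact lt_irrefl _ h2
      · apply Subtype.ext
        change z * b = a
        rw [hab, div_mul_cancel₀ _ hb0]
    · intro x y hxy
      refine ⟨1, ?_⟩
      have h1 : (x : Ω) = y := congrArg (fun t : N.R => (t : Ω)) hxy
      rw [Subtype.ext h1]
  have hft : Algebra.FiniteType k A := (Subalgebra.fg_iff_finiteType _).1 ⟨F, rfl⟩
  have htow : IsScalarTower A N.R Ω := IsScalarTower.of_algebraMap_eq fun _ => rfl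
  have halg1 : Algebra.IsAlgebraic A N.R := IsLocalization.isAlgebraic N.R p.primeCompl
  have halg2 : Algebra.IsAlgebraic N.R Ω := ⟨N.alg⟩
  have halg : Algebra.IsAlgebraic A Ω := Algebra.IsAlgebraic.trans A N.R Ω
  have h1 := RegAux.le_height (A := A) n htr p hp
  rw [IsLocalization.AtPrime.ringKrullDim_eq_height p N.R]
  exact_mod_cast h1



/-- A noetherian frame whose last parameter is a monomial. -/
theorem NF.gen_zero (N : NF k v r) (hr : 0 < r) (hy : N.MonoPos N.y) {f : Ω} (hf : f ∈ N.R)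
    (hv : VPos v f) : ∃ a : Fin r → Ω, (∀ i, a i ∈ N.R) ∧ f = ∑ i, a i * N.x i := by
  classical
  obtain ⟨a, ha, b, hb, hab⟩ := N.gen f hf hv
  obtain ⟨c, hc, hyc⟩ := hy.dvd N.y_pos
  let i0 : Fin r := ⟨0, hr⟩
  have h1 : N.y = N.x i0 * ((∏ j ∈ Finset.univ.erase i0, N.x j) * c) := by
    rw [hyc, ← Finset.mul_prod_erase _ _ (Finset.mem_univ i0)]
    ring
  have h2 : (∏ j ∈ Finset.univ.erase i0, N.x j) * c ∈ N.R :=
    N.R.mul_mem (N.R.prod_mem fun j _ => N.x_mem j) hc
  refine ⟨fun i => a i + if i = i0 then (∏ j ∈ Finset.univ.erase i0, N.x j) * c * b else 0,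
    fun i => ?_, ?_⟩
  · refine N.R.add_mem (ha i) ?_
    split
    · exact N.R.mul_mem h2 hb
    · exact N.R.zero_mem
  · simp only [add_mul, ite_mul, zero_mul, Finset.sum_add_distrib]
    rw [Finset.sum_ite_eq' Finset.univ i0, if_pos (Finset.mem_univ _), hab]
    congr 1
    · exact Finset.sum_congr rfl fun i _ => mul_comm _ _
    · rw [h1]; ring

theorem NF.dim_zero (N : NF k v r) (hr : 0 < r) (hy : N.MonoPos N.y)
    (hres : ∀ g : Ω, g ≠ 0 → v g = 0 → ∃ P : k[X], P.Monic ∧ VPos v (aeval g P))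
    (htr : Algebra.trdeg k Ω = r) : ringKrullDim N.R = r := by
  classical
  have h1 := N.isNoetherian
  have h2 := N.isLocalRing
  apply le_antisymm
  · refine (ringKrullDim_le_spanFinrank_maximalIdeal N.R).trans ?_
    have h3 : IsLocalRing.maximalIdeal N.R = Ideal.span (Set.range fun i => N.par (some i)) := by
      apply le_antisymm
      · intro z hz
        rw [IsLocalRing.mem_maximalIdeal, _root_.mem_nonunits_iff, N.mem_nonunits] at hz
        obtain ⟨a, ha, hab⟩ := N.gen_zero hr hy z.2 hz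
        have h4 : z = ∑ i, (⟨a i, ha i⟩ : N.R) * N.par (some i) := by
          apply Subtype.ext
          rw [hab]
          push_cast
          rfl
        rw [h4]
        exact Ideal.sum_mem _ fun i _ => Ideal.mul_mem_left _ _ (Ideal.subset_span ⟨i, rfl⟩)
      · rw [Ideal.span_le]
        rintro _ ⟨i, rfl⟩
        rw [SetLike.mem_coe, IsLocalRing.mem_maximalIdeal, _root_.mem_nonunits_iff,
          N.mem_nonunits]
        exact N.vpos_par _
    have h4 : (IsLocalRing.maximalIdeal N.R).spanFinrank ≤ r := by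
      rw [h3]
      refine (Submodule.spanFinrank_span_le_ncard_of_finite (Set.finite_range _)).trans ?_
      rw [← Set.image_univ]
      refine (Set.ncard_image_le Set.finite_univ).trans ?_
      rw [Set.ncard_univ]
      simp
    exact_mod_cast h4
  · exact N.dim_ge_gen hres htr

end Pool.Agent.LU1

namespace Pool.Agent.LU2

open Pool.Agent.H15JM (RVal)
open Pool.Agent.LU1 (VPos ResInd CtxW BF NF locv QR)
open Pool.Agent.LU2G
open Polynomial

universe u

/-- Monomials in a noetherian frame. -/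
theorem smono_of_nf' {C Ω : Type u} [Field C] [Field Ω] [Algebra C Ω] {w : RVal Ω} {r : ℕ}
    (N : NF C w r) {t : Ω} (ht : N.MonoPos t) :
    ∃ e : Fin r → ℤ, ∃ u ∈ N.R, u ≠ 0 ∧ w u = 0 ∧
      t = (∏ i, N.x i ^ e i) * u ∧
      (∀ i, i ∉ (Finset.univ : Finset (Fin r)) → e i = 0) ∧
      (0 < w t → ∀ i ∈ (Finset.univ : Finset (Fin r)), 0 < e i) ∧
      (w t < 0 → ∀ i ∈ (Finset.univ : Finset (Fin r)), e i < 0) ∧
      (w t = 0 → ∀ i, e i = 0) := by
  obtain ⟨n, u, hu0, hu1, hu2, hf, h1, h2, h3⟩ := ht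
  have hwu : w u = 0 := by
    have h4 : 0 ≤ w u := N.nonneg u hu1 hu0
    have h5 : 0 ≤ w u⁻¹ := N.nonneg _ hu2 (inv_ne_zero hu0)
    rw [w.map_inv hu0] at h5
    linarith
  exact ⟨n, u, hu1, hu0, hwu, hf, fun i hi => absurd (Finset.mem_univ i) hi,
    fun h i _ => h1 h i, fun h i _ => h2 h i, h3⟩

/-- The real case, defect zero. -/
theorem Entry.lur_zero {k K : Type u} [Field k] [Field K] [Algebra k K] (p : ℕ)
    (hp : p.Prime) [CharP k p] [PerfectField k] (hK : (⊤ : IntermediateField k K).FG)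
    {V : ValuationSubring K} {v : RVal K} {r s : ℕ} {x : Fin r → K} {z : Fin s → K}
    (h : Entry k V v r s x z)
    (htr : Algebra.trdeg (IntermediateField.adjoin k (Set.range z)) K = r) : LUr k V := by
  classical
  have htrk : Algebra.trdeg k K = ((r + s : ℕ) : Cardinal) := by
    have h1 := trdeg_coeff (resInd_algInd h.z_val)
    rw [htr] at h1
    rw [← h1]
    push_cast
    ring
  obtain ⟨B, hBR, hBM⟩ := h.exists_bf_zero p hp hK htrk
  have hV := h.rel
  intro A hA hAV hfrac T hT
  have hzV : ∀ i, z i ∈ V := by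
    intro i
    have h1 := h.z_val (MvPolynomial.X i) (MvPolynomial.X_ne_zero i)
    rw [MvPolynomial.aeval_X] at h1
    rw [hV.mem_iff]
    exact fun _ => h1.2.ge
  obtain ⟨A', g, hch, hzA⟩ := exists_chart_mem hAV hfrac (Finset.univ.image z) (by
    intro f hf
    obtain ⟨i, -, rfl⟩ := Finset.mem_image.1 hf
    exact hzV i)
  refine LUrAt.of_chart hAV hch (T' := insert g T) (Finset.mem_insert_self _ _)
    (fun t ht => Finset.mem_insert_of_mem ht) ?_
  have hA'V : ∀ a ∈ A', a ∈ V := hch.mem hAV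
  have hA'fg : A'.FG := hch.fg hA
  have hA'frac : ∀ f : K, ∃ a ∈ A', ∃ b ∈ A', b ≠ 0 ∧ f = a / b := fun f => by
    obtain ⟨a, ha, b, hb, hb0, hab⟩ := hfrac f
    exact ⟨a, hch.le ha, b, hch.le hb, hb0, hab⟩
  have hT0 : ∀ t ∈ insert g T, t ≠ 0 := by
    intro t ht
    rcases Finset.mem_insert.1 ht with rfl | ht
    · exact hch.2.1
    · exact hT t ht
  have hcw : CtxW v r := ⟨h.rpos, x, h.x_ne, h.ind, h.span⟩
  obtain ⟨N, hNy, g', hg', hg0, hgm, G', hG', hR', hT'⟩ := LU1.exists_QN2 hcw
    (IntermediateField.adjoin k (Set.range z)) B A' hA'fg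
    (fun a ha => (hBR a).2 ((hV.mem_iff a).1 (hA'V a ha))) (by
      intro c hc
      obtain ⟨P, Q, hQ, -, hcPQ⟩ := resInd_mem hc
      obtain ⟨h1, h2⟩ := h.z_val Q hQ
      have haev : ∀ P : MvPolynomial (Fin s) k, MvPolynomial.aeval z P ∈ A' := by
        intro P
        have h2 : Algebra.adjoin k (Set.range z) ≤ A' := by
          rw [Algebra.adjoin_le_iff]
          rintro _ ⟨i, rfl⟩
          exact hzA _ (Finset.mem_image_of_mem _ (Finset.mem_univ i))
        apply h2
        rw [Algebra.adjoin_range_eq_range_aeval]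
        exact ⟨P, rfl⟩
      exact ⟨_, haev P, _, haev Q, h1, h2, hcPQ⟩) (by
      intro f _
      obtain ⟨a, ha, b, hb, hb0, hab⟩ := hA'frac f
      exact ⟨a, ha, b, hb, hb0, hBM b hb0, hab⟩) (insert B.y (insert g T)) (by
      intro t ht
      rcases Finset.mem_insert.1 ht with rfl | ht
      · exact hBM _ B.y_ne
      · exact hBM _ (hT0 t ht))
  have hyM : N.MonoPos N.y := by
    rw [hNy]
    exact hT' _ (Finset.mem_insert_self _ _)
  have hres : ∀ f : K, f ≠ 0 → v f = 0 →
      ∃ P : (IntermediateField.adjoin k (Set.range z))[X], P.Monic ∧ VPos v (aeval f P) :=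
    fun f _ hv => h.res f fun _ => hv.ge
  have hR'' : ∀ f, f ∈ N.R ↔ ∃ s ∈ locv v (Algebra.adjoin k ((A' : Set K) ∪
      (fun x => x / g') '' (G' : Set K))), (AlgHom.id k K) s = f := by
    intro f
    rw [hR' f]
    constructor
    · exact fun h => ⟨f, h, rfl⟩
    · rintro ⟨s, hs, rfl⟩
      exact hs
  refine lurAt_of (g := g') (AlgHom.id k K) (w := v) (fun _ _ => rfl) hV A' N.R N.x
    Finset.univ N.x_ne N.x_mem N.x_pos
    (fun f hf hv => N.gen_zero h.rpos hyM hf hv) (N.dim_zero h.rpos hyM hres htr) hg' hg0 G' hG'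
    hR'' (insert g T) ?_
  rintro t (rfl | ht)
  · exact smono_of_nf' N hgm
  · exact smono_of_nf' N (hT' t (Finset.mem_insert_of_mem ht))

end Pool.Agent.LU2
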