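import Pool.Agent.Lib.LU2_h15z.Normal

/-! # LU2, defect 0, part A: elements that are algebraic over the monomials lie in the ring of the
frame -/

set_option autoImplicit false

namespace Pool.Agent.LU1

open Pool.Agent.H15JM (RVal)
open Polynomial

universe u

variable {k Ω : Type u} [Field k] [Field Ω] [Algebra k Ω] {v : RVal Ω} {r : ℕ}

/-- Horner partial sums of an algebraic equation. -/
def horner (c : ℕ → Ω) (n : ℕ) (f : Ω) : ℕ → Ω
  | 0 => c n
  | m + 1 => horner c n f m * f + c (n - (m + 1))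

theorem horner_rel (c : ℕ → Ω) (n : ℕ) (f : Ω)
    (h0 : ∑ i ∈ Finset.range (n + 1), c i * f ^ i = 0) (m : ℕ) (hm : m ≤ n) :
    horner c n f m * f ^ (n - m) + ∑ i ∈ Finset.range (n - m), c i * f ^ i = 0 := by
  induction m with
  | zero =>
    rw [Nat.sub_zero]
    rw [Finset.sum_range_succ, add_comm] at h0
    exact h0
  | succ m ih =>
    have h1 := ih (Nat.le_of_succ_le hm)
    obtain ⟨s, hs⟩ : ∃ s, n - m = s + 1 := ⟨n - m - 1, by omega⟩
    have hs' : n - (m + 1) = s := by omega
    rw [hs, Finset.sum_range_succ] at h1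
    change (horner c n f m * f + c (n - (m + 1))) * f ^ (n - (m + 1)) + _ = 0
    rw [hs']
    rw [← h1]; ring

/-- The elements `b f` are integral. -/
theorem horner_integral (R : Subalgebra k Ω) (c : ℕ → Ω) (n : ℕ) (f : Ω)
    (hc : ∀ i, i ≤ n → c i ∈ R) (h0 : ∑ i ∈ Finset.range (n + 1), c i * f ^ i = 0) (m : ℕ)
    (hm : m < n) (hb : horner c n f m ∈ R) : IsIntegral R (horner c n f m * f) := by
  classical
  have hrel := horner_rel c n f h0 m hm.le
  set b := horner c n f m with hbdef
  obtain ⟨s, hs⟩ : ∃ s, n - m = s + 1 := ⟨n - m - 1, by omega⟩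
  rw [hs] at hrel
  have hmem : ∀ i, i ∈ Finset.range (s + 1) → c i * b ^ (s - i) ∈ R := fun i hi =>
    R.mul_mem (hc i (by have := Finset.mem_range.1 hi; omega)) (R.pow_mem hb _)
  let Q0 : R[X] := ∑ i : Finset.range (s + 1), C ⟨c i * b ^ (s - i), hmem i i.2⟩ * X ^ (i : ℕ)
  refine ⟨X ^ (s + 1) + Q0, monic_X_pow_add ?_, ?_⟩
  · rw [Polynomial.degree_lt_iff_coeff_zero]
    intro l hl
    rw [Polynomial.finsetSum_coeff]
    refine Finset.sum_eq_zero fun i _ => ?_
    rw [Polynomial.coeff_C_mul, Polynomial.coeff_X_pow, if_neg, mul_zero]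
    have := Finset.mem_range.1 i.2
    intro h1
    exact absurd (h1 ▸ hl) (not_le.2 this)
  · rw [← Polynomial.aeval_def, map_add, map_pow, aeval_X, map_sum]
    have h1 : ∀ i : Finset.range (s + 1),
        aeval (b * f) (C (⟨c i * b ^ (s - i), hmem i i.2⟩ : R) * X ^ (i : ℕ)) =
          c i * b ^ (s - i) * (b * f) ^ (i : ℕ) := by
      intro i
      rw [map_mul, aeval_C, map_pow, aeval_X]
      rfl
    rw [Finset.sum_congr rfl fun i _ => h1 i]
    rw [Finset.sum_coe_sort (Finset.range (s + 1)) fun i => c i * b ^ (s - i) * (b * f) ^ i]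
    have h2 : ∀ i ∈ Finset.range (s + 1), c i * b ^ (s - i) * (b * f) ^ i =
        b ^ s * (c i * f ^ i) := by
      intro i hi
      have h3 : s = (s - i) + i := by have := Finset.mem_range.1 hi; omega
      conv_rhs => rw [h3, pow_add]
      rw [mul_pow]; ring
    rw [Finset.sum_congr rfl h2, ← Finset.mul_sum]
    have h3 : (b * f) ^ (s + 1) = b ^ s * (b * f ^ (s + 1)) := by
      rw [mul_pow, pow_succ b]; ring
    rw [h3, ← mul_add, hrel, mul_zero]

/-- An element of the fraction field of the ring of a frame, of nonnegative value, is in the ring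
if it is a root of a polynomial over the ring one of whose coefficients is a unit, the following
ones having positive values. -/
theorem BF.mem_of_eqn (h : Ctx2 k v r) (B : BF k v) {f : Ω} (hf : v.Ge 0 f)
    {a b : Ω} (ha : a ∈ B.R) (hb : b ∈ B.R) (hb0 : b ≠ 0) (hfab : f = a / b)
    (c : ℕ → Ω) (n j : ℕ) (hc : ∀ i, i ≤ n → c i ∈ B.R) (hjn : j ≤ n) (hj : B.Un (c j))
    (hpos : ∀ i, j < i → i ≤ n → VPos v (c i))
    (h0 : ∑ i ∈ Finset.range (n + 1), c i * f ^ i = 0) : f ∈ B.R := by
  have hfrac : ∀ g ∈ B.R, ∃ a ∈ B.R, g * f = a / b := fun g hg =>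
    ⟨g * a, B.R.mul_mem hg ha, by rw [hfab]; ring⟩
  -- the partial sums
  have hmem : ∀ m, m ≤ n → horner c n f m ∈ B.R := by
    intro m
    induction m with
    | zero => exact fun _ => hc n le_rfl
    | succ m ih =>
      intro hm
      have h1 := ih (Nat.le_of_succ_le hm)
      obtain ⟨a', ha', hf'⟩ := hfrac _ h1
      have h2 := B.normal2 h (horner_integral B.R c n f hc h0 m hm h1) ha' hb hb0 hf'
      exact B.R.add_mem h2 (hc _ (Nat.sub_le _ _))
  have hval : ∀ m, m < n - j → VPos v (horner c n f m) := by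
    intro m
    induction m with
    | zero => exact fun hm => hpos n (by omega) le_rfl
    | succ m ih =>
      intro hm
      exact ((ih (by omega)).mul hf).add (hpos _ (by omega) (by omega))
  have hun : B.Un (horner c n f (n - j)) := by
    rcases Nat.eq_zero_or_pos (n - j) with h1 | h1
    · rw [h1]
      have : n = j := by omega
      subst this
      exact hj
    · obtain ⟨s, hs⟩ : ∃ s, n - j = s + 1 := ⟨n - j - 1, by omega⟩
      have h2 := hmem (s + 1) (by omega)
      rw [hs]
      have h3 : n - (s + 1) = j := by omega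
      change B.Un (horner c n f s * f + c (n - (s + 1)))
      change horner c n f s * f + c (n - (s + 1)) ∈ B.R at h2
      rw [h3] at h2 ⊢
      rw [add_comm] at h2 ⊢
      obtain ⟨h4, h5⟩ := val_add_vpos hj.2.1 hj.2.2 ((hval s (by omega)).mul hf)
      exact ⟨h2, h4, h5⟩
  have hj0 : 0 < j := by
    by_contra h1
    have h2 : j = 0 := by omega
    subst h2
    rw [Nat.sub_zero] at hun
    have h3 := horner_rel c n f h0 n le_rfl
    rw [Nat.sub_self, pow_zero, mul_one, Finset.sum_range_zero, add_zero] at h3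
    exact hun.2.1 h3
  have h1 := hmem (n - j) (by omega)
  obtain ⟨a', ha', hf'⟩ := hfrac _ h1
  have h2 := B.normal2 h (horner_integral B.R c n f hc h0 (n - j) (by omega) h1) ha' hb hb0 hf'
  have h3 : f = (horner c n f (n - j))⁻¹ * (horner c n f (n - j) * f) := by
    rw [← mul_assoc, inv_mul_cancel₀ hun.2.1, one_mul]
  rw [h3]
  exact B.R.mul_mem hun.inv.1 h2

/-- Polynomials in the monomials. -/
theorem BF.mono_aeval (h : Ctx2 k v r) (B : BF k v) {x : Fin r → Ω} (hx : ∀ i, B.Mono (x i))
    (hind : LinearIndependent ℚ fun i => v (x i)) (P : MvPolynomial (Fin r) k) (hP : P ≠ 0) :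
    B.Mono (MvPolynomial.aeval x P) := by
  classical
  -- the values of the monomials
  have hne : ∀ m : Fin r →₀ ℕ, (m.prod fun i n => x i ^ n) ≠ 0 := fun m =>
    Finset.prod_ne_zero_iff.2 fun i _ => pow_ne_zero _ (hx i).1
  have hmm : ∀ m : Fin r →₀ ℕ, B.Mono (m.prod fun i n => x i ^ n) := by
    intro m
    rw [Finsupp.prod]
    have : ∀ s : Finset (Fin r), B.Mono (∏ i ∈ s, x i ^ m i) := by
      intro s
      induction s using Finset.induction_on with
      | empty => rw [Finset.prod_empty]; exact BF.Mono.un BF.Un.one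
      | insert a s ha ih => rw [Finset.prod_insert ha]; exact ((hx a).pow _).mul ih
    exact this _
  have hv : ∀ m : Fin r →₀ ℕ, v (m.prod fun i n => x i ^ n) = ∑ i, (m i : ℝ) * v (x i) := by
    intro m
    rw [Finsupp.prod_fintype _ _ (fun i => pow_zero _),
      v.map_prod _ _ (fun i _ => pow_ne_zero _ (hx i).1)]
    exact Finset.sum_congr rfl fun i _ => v.map_pow (hx i).1 _
  have hinj : ∀ m m' : Fin r →₀ ℕ, v (m.prod fun i n => x i ^ n) =
      v (m'.prod fun i n => x i ^ n) → m = m' := by
    intro m m' he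
    rw [hv, hv] at he
    have h1 : ∑ i, ((m i : ℚ) - (m' i : ℚ)) • v (x i) = 0 := by
      have h2 : ∀ i, ((m i : ℚ) - (m' i : ℚ)) • v (x i) =
          (m i : ℝ) * v (x i) - (m' i : ℝ) * v (x i) := by
        intro i
        rw [Rat.smul_def]; push_cast; ring
      rw [Finset.sum_congr rfl fun i _ => h2 i, Finset.sum_sub_distrib, he, sub_self]
    have h2 := Fintype.linearIndependent_iff.1 hind _ h1
    ext i
    have := h2 i
    have h3 : (m i : ℚ) = m' i := by linarith
    exact_mod_cast h3
  -- the monomial of least value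
  obtain ⟨m0, hm0, hmin⟩ := P.support.exists_min_image
    (fun m => v (m.prod fun i n => x i ^ n)) (MvPolynomial.support_nonempty.2 hP)
  set X0 := m0.prod fun i n => x i ^ n with hX0
  have hc0 : P.coeff m0 ≠ 0 := MvPolynomial.mem_support_iff.1 hm0
  have hev : MvPolynomial.aeval x P =
      X0 * (algebraMap k Ω (P.coeff m0) + ∑ m ∈ P.support.erase m0,
        algebraMap k Ω (P.coeff m) * ((m.prod fun i n => x i ^ n) / X0)) := by
    rw [MvPolynomial.aeval_def, MvPolynomial.eval₂_eq, ← Finset.add_sum_erase _ _ hm0, mul_add,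
      Finset.mul_sum]
    congr 1
    · rw [hX0, Finsupp.prod]; ring
    · refine Finset.sum_congr rfl fun m _ => ?_
      rw [mul_left_comm, mul_div_cancel₀ _ (hne m0)]
      rfl
  rw [hev]
  refine (hmm m0).mul (BF.Mono.un ?_)
  have key : ∀ s : Finset (Fin r →₀ ℕ), s ⊆ P.support.erase m0 →
      (∑ m ∈ s, algebraMap k Ω (P.coeff m) * ((m.prod fun i n => x i ^ n) / X0)) ∈ B.R ∧
      VPos v (∑ m ∈ s, algebraMap k Ω (P.coeff m) * ((m.prod fun i n => x i ^ n) / X0)) := by
    intro s
    induction s using Finset.induction_on with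
    | empty =>
      intro _
      rw [Finset.sum_empty]
      exact ⟨B.R.zero_mem, VPos.zero⟩
    | insert m s hm ih =>
      intro hs
      obtain ⟨h1, h2⟩ := ih ((Finset.subset_insert _ _).trans hs)
      have h3 := Finset.mem_erase.1 (hs (Finset.mem_insert_self m s))
      have h4 : v X0 < v (m.prod fun i n => x i ^ n) := by
        refine lt_of_le_of_ne (hmin m h3.2) fun h5 => h3.1 (hinj _ _ h5.symm)
      have h5 : B.Mono ((m.prod fun i n => x i ^ n) / X0) := (hmm m).div (hmm m0)
      have h6 : 0 < v ((m.prod fun i n => x i ^ n) / X0) := by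
        rw [v.map_div (hne m) (hne m0)]
        linarith
      rw [Finset.sum_insert hm]
      refine ⟨B.R.add_mem (B.R.mul_mem (B.R.algebraMap_mem _) (h5.mem h6.le)) h1, ?_⟩
      exact (VPos.mul' (h.ge _) fun _ => h6).add h2
  obtain ⟨h1, h2⟩ := key _ subset_rfl
  exact (BF.Un.const2 h hc0).add_vpos h1 h2

/-- Elements of nonnegative value of the fraction field of the ring of a frame that are algebraic
over the monomials are in the ring of the frame. -/
theorem BF.mem_of_algebraic (h : Ctx2 k v r) (B : BF k v) {x : Fin r → Ω}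
    (hx : ∀ i, B.Mono (x i)) (hind : LinearIndependent ℚ fun i => v (x i)) {f : Ω}
    (hf : v.Ge 0 f) {a b : Ω} (ha : a ∈ B.R) (hb : b ∈ B.R) (hb0 : b ≠ 0) (hfab : f = a / b)
    (halg : IsAlgebraic (Algebra.adjoin k (Set.range x)) f) : f ∈ B.R := by
  classical
  obtain ⟨P, hP, hPf⟩ := halg
  have hmono : ∀ i, P.coeff i ≠ 0 → B.Mono (P.coeff i : Ω) := by
    intro i hi
    have h1 : ∀ z ∈ Algebra.adjoin k (Set.range x),
        ∃ Q : MvPolynomial (Fin r) k, MvPolynomial.aeval x Q = z := by
      intro z hz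
      rw [Algebra.adjoin_range_eq_range_aeval] at hz
      exact hz
    obtain ⟨Q, hQ⟩ := h1 _ (P.coeff i).2
    have hQ0 : Q ≠ 0 := by
      rintro rfl
      apply hi
      apply Subtype.ext
      rw [← hQ]
      exact map_zero _
    have h2 := B.mono_aeval h hx hind Q hQ0
    have h3 : (P.coeff i : Ω) = MvPolynomial.aeval x Q := hQ.symm
    rw [h3]
    exact h2
  obtain ⟨i0, hi0, hmin⟩ := P.support.exists_min_image
    (fun i => v (P.coeff i : Ω)) (Polynomial.support_nonempty.2 hP)
  have hne0 : (P.coeff i0 : Ω) ≠ 0 := fun h0 =>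
    (Polynomial.mem_support_iff.1 hi0) (Subtype.ext h0)
  let c : ℕ → Ω := fun i => (P.coeff i : Ω) / (P.coeff i0 : Ω)
  have hc : ∀ i, c i ∈ B.R := by
    intro i
    by_cases hi : P.coeff i = 0
    · have : c i = 0 := by
        simp only [c, hi]
        rw [ZeroMemClass.coe_zero, zero_div]
      rw [this]; exact B.R.zero_mem
    · refine ((hmono i hi).div (hmono i0 (Polynomial.mem_support_iff.1 hi0))).mem ?_
      have h1 : (P.coeff i : Ω) ≠ 0 := fun h0 => hi (Subtype.ext h0)
      rw [v.map_div h1 hne0]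
      linarith [hmin i (Polynomial.mem_support_iff.2 hi)]
  -- the largest index of a unit
  let U : Finset ℕ := P.support.filter fun i => v (c i) = 0
  have hU : U.Nonempty := ⟨i0, by
    rw [Finset.mem_filter]
    refine ⟨hi0, ?_⟩
    change v ((P.coeff i0 : Ω) / (P.coeff i0 : Ω)) = 0
    rw [div_self hne0, v.map_one]⟩
  obtain ⟨j, hj, hmax⟩ := U.exists_max_image id hU
  rw [Finset.mem_filter] at hj
  have hjn : j ≤ P.natDegree := Polynomial.le_natDegree_of_mem_supp _ hj.1
  have hcne : ∀ i, i ∈ P.support → c i ≠ 0 := by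
    intro i hi
    exact div_ne_zero (fun h0 => (Polynomial.mem_support_iff.1 hi) (Subtype.ext h0)) hne0
  refine B.mem_of_eqn h hf ha hb hb0 hfab c P.natDegree j (fun i _ => hc i) hjn
    ⟨hc j, hcne j hj.1, hj.2⟩ ?_ ?_
  · intro i hji _ hci
    have h1 : i ∈ P.support := by
      rw [Polynomial.mem_support_iff]
      intro h0
      apply hci
      simp only [c, h0]
      rw [ZeroMemClass.coe_zero, zero_div]
    rcases (B.nonneg _ (hc i) hci).lt_or_eq with h2 | h2
    · exact h2
    · exfalso
      have h3 : i ∈ U := Finset.mem_filter.2 ⟨h1, h2.symm⟩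
      exact absurd (hmax i h3) (not_le.2 hji)
  · have h1 : ∀ i, c i * f ^ i = (P.coeff i0 : Ω)⁻¹ * ((P.coeff i : Ω) * f ^ i) := by
      intro i
      simp only [c]
      rw [div_eq_mul_inv]; ring
    rw [Finset.sum_congr rfl fun i _ => h1 i, ← Finset.mul_sum]
    rw [Polynomial.aeval_eq_sum_range] at hPf
    have h2 : ∑ i ∈ Finset.range (P.natDegree + 1), (P.coeff i : Ω) * f ^ i = 0 := by
      rw [← hPf]
      exact Finset.sum_congr rfl fun i _ => by rw [Algebra.smul_def]; rfl
    rw [h2, mul_zero]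

end Pool.Agent.LU1
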