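import Pool.Agent.Lib.LU2_h15z.ZeroB
import Pool.Agent.Lib.LU2_base.Rep

/-! # LU2, defect 0: all elements of `K` are monomial -/

set_option autoImplicit false

open Polynomial

namespace Pool.Agent.LU1

open Pool.Agent.H15JM (RVal)

universe u

variable {k Ω : Type u} [Field k] [Field Ω] [Algebra k Ω] {v : RVal Ω} {r : ℕ}

/-- Values are rational combinations of the values of `x`. -/
theorem Ctx2.exists_int (h : Ctx2 k v r) {x : Fin r → Ω} (hx : ∀ i, x i ≠ 0)
    (hind : LinearIndependent ℚ fun i => v (x i)) {g : Ω} (hg : g ≠ 0) :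
    ∃ n : ℕ, 0 < n ∧ ∃ m : Fin r → ℤ, (n : ℝ) * v g = ∑ i, (m i : ℝ) * v (x i) := by
  obtain ⟨X, hX0, hXi, hX⟩ := h.rank
  have hle : Submodule.span ℚ (Set.range fun i => v (x i)) ≤
      Submodule.span ℚ (Set.range fun i => v (X i)) := by
    rw [Submodule.span_le]
    rintro _ ⟨i, rfl⟩
    exact hX (x i) (hx i)
  have hfin : FiniteDimensional ℚ (Submodule.span ℚ (Set.range fun i => v (X i))) :=
    FiniteDimensional.span_of_finite ℚ (Set.finite_range _)
  have heq := Submodule.eq_of_le_of_finrank_eq hle (by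
    rw [finrank_span_eq_card hind, finrank_span_eq_card hXi])
  have hmem : v g ∈ Submodule.span ℚ (Set.range fun i => v (x i)) := by
    rw [heq]
    exact hX g hg
  obtain ⟨c, hc⟩ := (Submodule.mem_span_range_iff_exists_fun ℚ).1 hmem
  refine ⟨∏ i, (c i).den, Finset.prod_pos fun i _ => (c i).pos, ?_⟩
  refine ⟨fun i => (c i).num * ∏ j ∈ Finset.univ.erase i, ((c j).den : ℤ), ?_⟩
  rw [← hc, Finset.mul_sum]
  refine Finset.sum_congr rfl fun i _ => ?_
  rw [Rat.smul_def, ← Finset.mul_prod_erase _ _ (Finset.mem_univ i), ← mul_assoc]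
  congr 1
  have h1 : ((c i).num : ℝ) = (c i : ℝ) * (c i).den := by
    exact_mod_cast (Rat.mul_den_eq_num (c i)).symm
  push_cast
  rw [h1]
  ring

/-- Elements of a field over which everything is algebraic over the monomials are monomial. -/
theorem BF.mono_of_alg (h : Ctx2 k v r) (B : BF k v) (K : IntermediateField k Ω)
    (hKR : ∀ f ∈ K, ∃ a ∈ B.R, ∃ b ∈ B.R, b ≠ 0 ∧ f = a / b) {x : Fin r → Ω}
    (hx : ∀ i, B.Mono (x i)) (hxK : ∀ i, x i ∈ K)
    (hind : LinearIndependent ℚ fun i => v (x i))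
    (halg : ∀ g ∈ K, IsAlgebraic (Algebra.adjoin k (Set.range x)) g) {f : Ω} (hf : f ∈ K)
    (hf0 : f ≠ 0) : B.Mono f := by
  classical
  have hmem : ∀ g ∈ K, v.Ge 0 g → g ∈ B.R := by
    intro g hg hv
    obtain ⟨a, ha, b, hb, hb0, hab⟩ := hKR g hg
    exact B.mem_of_algebraic h hx hind hv ha hb hb0 hab (halg g hg)
  have hun : ∀ g ∈ K, g ≠ 0 → v g = 0 → B.Un g := fun g hg hg0 hv =>
    ⟨hmem g hg fun _ => hv.ge, hg0, hv⟩
  -- the case of non-negative value
  have hpos : ∀ g ∈ K, g ≠ 0 → 0 ≤ v g → B.Mono g := by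
    intro g hg hg0 hv
    obtain ⟨n, hn, m, hm⟩ := h.exists_int (fun i => (hx i).1) hind hg0
    set M : Ω := ∏ i, x i ^ m i with hM
    have hM0 : M ≠ 0 := Finset.prod_ne_zero_iff.2 fun i _ => zpow_ne_zero _ (hx i).1
    have hMK : M ∈ K := prod_mem fun i _ => zpow_mem (hxK i) _
    have hMv : v M = (n : ℝ) * v g := by
      rw [hM, v.map_prod _ _ (fun i _ => zpow_ne_zero _ (hx i).1), hm]
      exact Finset.sum_congr rfl fun i _ => v.map_zpow (hx i).1 _
    have hMM : B.Mono M := by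
      have : ∀ s : Finset (Fin r), B.Mono (∏ i ∈ s, x i ^ m i) := by
        intro s
        induction s using Finset.induction_on with
        | empty => rw [Finset.prod_empty]; exact BF.Mono.un BF.Un.one
        | insert a s ha ih => rw [Finset.prod_insert ha]; exact ((hx a).zpow _).mul ih
      exact this _
    have hU : B.Un (g ^ n / M) := by
      refine hun _ (div_mem (pow_mem hg _) hMK) (div_ne_zero (pow_ne_zero _ hg0) hM0) ?_
      rw [v.map_div (pow_ne_zero _ hg0) hM0, v.map_pow hg0, hMv, sub_self]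
    have hgn : B.Mono (g ^ n) := by
      have h1 := hMM.mul (BF.Mono.un hU)
      rwa [mul_div_cancel₀ _ hM0] at h1
    obtain ⟨κ, D, -, hrep⟩ := B.rep_exists2 h (hmem g hg fun _ => hv) hg0
    have h2 := hrep.pow n
    have h3 := h2.unique2 h hgn.rep
    have hD : D = 0 := by
      rcases Nat.mul_eq_zero.1 h3.2 with h4 | h4
      · omega
      · exact h4
    rw [hD] at hrep
    exact hrep.val_zero.2.2
  rcases le_total 0 (v f) with h0 | h0
  · exact hpos f hf hf0 h0
  · have h1 := hpos f⁻¹ (inv_mem hf) (inv_ne_zero hf0) (by rw [v.map_inv hf0]; linarith)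
    have h2 := h1.inv
    rwa [inv_inv] at h2

end Pool.Agent.LU1
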