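import Pool.Agent.Lib.LU2_h15z.ResExt
import Pool.Agent.Lib.LU2_h15z.ValC

/-! # LU2, defect 0: the field `K(t)` -/

set_option autoImplicit false

open Polynomial

namespace Pool.Agent.LU2

open Pool.Agent.H15JM (RVal)
open Pool.Agent.LU1 (VPos ResInd adj)

universe u

/-- Models. -/
theorem exists_model {k L : Type u} [Field k] [Field L] [Algebra k L]
    (hL : (⊤ : IntermediateField k L).FG) (V : ValuationSubring L)
    (hk : ∀ c : k, algebraMap k L c ∈ V) (S₀ : Finset L) (hS₀ : ∀ f ∈ S₀, f ∈ V) :
    ∃ A : Subalgebra k L, A.FG ∧ (∀ a ∈ A, a ∈ V) ∧ IsFrac A ∧ ∀ f ∈ S₀, f ∈ A := by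
  classical
  obtain ⟨S, hS⟩ := hL
  let φ : L → L := fun f => if f ∈ V then f else f⁻¹
  have hφV : ∀ f, φ f ∈ V := by
    intro f
    by_cases hf : f ∈ V
    · simp [φ, hf]
    · simpa [φ, hf] using (V.mem_or_inv_mem f).resolve_left hf
  let A : Subalgebra k L := Algebra.adjoin k ((S.image φ ∪ S₀ : Finset L) : Set L)
  have hSA : ∀ f ∈ S.image φ ∪ S₀, f ∈ A := fun f hf =>
    Algebra.subset_adjoin (Finset.mem_coe.2 hf)
  refine ⟨A, ⟨_, rfl⟩, ?_, ?_, fun f hf => hSA f (Finset.mem_union_right _ hf)⟩
  · intro a ha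
    induction ha using Algebra.adjoin_induction with
    | mem a ha =>
      rcases Finset.mem_union.1 (Finset.mem_coe.1 ha) with h | h
      · obtain ⟨f, -, rfl⟩ := Finset.mem_image.1 h
        exact hφV f
      · exact hS₀ a h
    | algebraMap c => exact hk c
    | add a b _ _ ha hb => exact V.add_mem _ _ ha hb
    | mul a b _ _ ha hb => exact V.mul_mem _ _ ha hb
  · intro f
    have h1 : f ∈ IntermediateField.adjoin k ((S.image φ ∪ S₀ : Finset L) : Set L) := by
      have h2 : IntermediateField.adjoin k (S : Set L) ≤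
          IntermediateField.adjoin k ((S.image φ ∪ S₀ : Finset L) : Set L) := by
        rw [IntermediateField.adjoin_le_iff]
        intro g hg
        have h3 : φ g ∈ IntermediateField.adjoin k ((S.image φ ∪ S₀ : Finset L) : Set L) :=
          IntermediateField.subset_adjoin _ _ (Finset.mem_coe.2
            (Finset.mem_union_left _ (Finset.mem_image_of_mem _ hg)))
        by_cases hgV : g ∈ V
        · simpa [φ, hgV] using h3
        · have h4 : φ g = g⁻¹ := by simp [φ, hgV]
          rw [h4] at h3
          have h5 := inv_mem h3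
          rwa [inv_inv] at h5
      apply h2
      rw [hS]
      exact IntermediateField.mem_top
    obtain ⟨a, ha, b, hb, hab⟩ := IntermediateField.mem_adjoin_iff_div.1 h1
    by_cases hb0 : b = 0
    · exact ⟨0, A.zero_mem, 1, A.one_mem, one_ne_zero, by rw [hab, hb0, div_zero, zero_div]⟩
    · exact ⟨a, ha, b, hb, hb0, hab⟩

/-- Polynomials of near elements are near. -/
theorem vpos_aeval_sub' {k L : Type u} [Field k] [Field L] [Algebra k L] (w : RVal L)
    (hk : ∀ c : k, w.Ge 0 (algebraMap k L c)) {a b : L}
    (ha : w.Ge 0 a) (hb : w.Ge 0 b) (hab : VPos w (a - b)) (P : k[X]) :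
    VPos w (aeval a P - aeval b P) := by
  have hge : ∀ {c : L}, w.Ge 0 c → ∀ n : ℕ, w.Ge 0 (c ^ n) := by
    intro c hc n
    induction n with
    | zero => rw [pow_zero]; exact fun _ => by rw [w.map_one]
    | succ n ih =>
      rw [pow_succ]
      simpa using ih.mul hc
  have hpow : ∀ n : ℕ, VPos w (a ^ n - b ^ n) := by
    intro n
    induction n with
    | zero => rw [pow_zero, pow_zero, sub_self]; exact VPos.zero
    | succ n ih =>
      have h1 : a ^ (n + 1) - b ^ (n + 1) = a ^ n * (a - b) + (a ^ n - b ^ n) * b := by ring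
      rw [h1]
      exact (VPos.mul' (hge ha n) hab).add (ih.mul hb)
  induction P using Polynomial.induction_on' with
  | add P Q hP hQ =>
    have h1 : aeval a (P + Q) - aeval b (P + Q) =
        (aeval a P - aeval b P) + (aeval a Q - aeval b Q) := by
      rw [map_add, map_add]; ring
    rw [h1]
    exact hP.add hQ
  | monomial n c =>
    rw [aeval_monomial, aeval_monomial, ← mul_sub]
    exact VPos.mul' (hk c) (hpow n)

/-- An immediate transcendental extension. -/
theorem Entry.exists_LD {k K : Type u} [Field k] [Field K] [Algebra k K]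
    (hK : (⊤ : IntermediateField k K).FG) {V : ValuationSubring K} {v : RVal K} {r s : ℕ}
    {x : Fin r → K} {z : Fin s → K} (h : Entry k V v r s x z)
    (htr : Algebra.trdeg k K = ((r + s : ℕ) : Cardinal)) :
    ∃ (L : Type u) (_ : Field L) (_ : Algebra k L) (_ : Algebra K L) (_ : IsScalarTower k K L)
      (u : RVal L) (t : L), (∀ f : K, f ≠ 0 → u (algebraMap K L f) = v f) ∧
      Transcendental K t ∧ (∀ N : ℝ, ∃ c : K, u.Ge N (t - algebraMap K L c)) ∧
      IntermediateField.adjoin K {t} = ⊤ ∧ (⊤ : IntermediateField k L).FG ∧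
      LD k u r s (fun i => algebraMap K L (x i)) (fun i => algebraMap K L (z i)) := by
  classical
  -- an element of positive value
  obtain ⟨X, hX0, hX⟩ : ∃ X : K, X ≠ 0 ∧ 0 < v X := by
    have h0 : v (x ⟨0, h.rpos⟩) ≠ 0 := h.ind.ne_zero ⟨0, h.rpos⟩
    rcases lt_or_gt_of_ne h0 with h1 | h1
    · exact ⟨(x ⟨0, h.rpos⟩)⁻¹, inv_ne_zero (h.x_ne _), by rw [v.map_inv (h.x_ne _)]; linarith⟩
    · exact ⟨_, h.x_ne _, h1⟩
  obtain ⟨L₁, i1, ι, w, t, hw, ht⟩ := exists_lac v hX0 hX
  let _ : Algebra K L₁ := ι.toAlgebra
  let _ : Algebra k L₁ := (ι.comp (algebraMap k K)).toAlgebra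
  have i2 : IsScalarTower k K L₁ := IsScalarTower.of_algebraMap_eq fun _ => rfl
  have htr1 : Transcendental K t := by
    refine transc_over v w hw h.x_ne h.ind h.z_val htr hX0 hX ?_
    intro n
    have h1 : lac (algebraMap K L₁ X) n = ι (lac X n) := (map_lac ι X n).symm
    rw [h1]
    exact ht n
  let L : IntermediateField K L₁ := IntermediateField.adjoin K {t}
  have htL : t ∈ L := IntermediateField.mem_adjoin_simple_self K t
  let t₀ : L := ⟨t, htL⟩
  let u : RVal L := rcomap w (algebraMap L L₁)
  have hu : ∀ f : K, f ≠ 0 → u (algebraMap K L f) = v f := fun f hf => hw f hf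
  have htr0 : Transcendental K t₀ := by
    intro h1
    exact htr1 (h1.algebraMap (A := L₁))
  have happ : ∀ N : ℝ, ∃ c : K, u.Ge N (t₀ - algebraMap K L c) := by
    intro N
    obtain ⟨n, hn⟩ := exists_nat_gt (N / v X)
    refine ⟨lac X n, ?_⟩
    have h1 : w.Ge N (t - ι (lac X n)) := by
      refine (ht n).mono ?_
      rw [div_lt_iff₀ hX] at hn
      have h2 : (n : ℝ) ≤ ((n + 1).factorial : ℝ) := by
        exact_mod_cast (Nat.le_succ n).trans (Nat.self_le_factorial _)
      nlinarith
    intro h0
    exact h1 (fun h2 => h0 (Subtype.ext h2))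
  have htop : IntermediateField.adjoin K {t₀} = ⊤ := by
    rw [eq_top_iff]
    rintro ⟨g, hg⟩ -
    have h1 : IntermediateField.adjoin K {t} ≤
        IntermediateField.lift (IntermediateField.adjoin K {t₀}) := by
      rw [IntermediateField.adjoin_le_iff, Set.singleton_subset_iff]
      exact (IntermediateField.mem_lift (F := L) t₀).2
        (IntermediateField.mem_adjoin_simple_self K t₀)
    exact (IntermediateField.mem_lift (F := L) ⟨g, hg⟩).1 (h1 hg)
  -- density
  have hdense : ∀ (g : L) (N : ℝ), ∃ f : K, u.Ge N (g - algebraMap K L f) := by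
    intro g N
    have hg : g ∈ adj (⊥ : IntermediateField K L) t₀ := by
      have h1 : IntermediateField.adjoin K {t₀} ≤ adj (⊥ : IntermediateField K L) t₀ :=
        le_sup_right
      apply h1
      rw [htop]
      exact IntermediateField.mem_top
    obtain ⟨δ, hδ⟩ := LU1.exists_ev (v := u) (⊥ : IntermediateField K L) t₀ hg N
    obtain ⟨c, hc⟩ := happ δ
    obtain ⟨b, hb, hbN⟩ := hδ _ hc
    have hb' := hb.mem ((⊥ : IntermediateField K L).algebraMap_mem c)
    obtain ⟨f, rfl⟩ := IntermediateField.mem_bot.1 hb'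
    exact ⟨f, hbN⟩
  have hfg : (⊤ : IntermediateField k L).FG := by
    have e1 : Algebra.EssFiniteType k K := IntermediateField.fg_top_iff.1 hK
    have e2 : Algebra.EssFiniteType K L := IntermediateField.fg_top_iff.1
      ⟨{t₀}, by rw [Finset.coe_singleton]; exact htop⟩
    have e3 : Algebra.EssFiniteType k L := Algebra.EssFiniteType.comp k K L
    exact IntermediateField.fg_top_iff.2 e3
  have hval : (fun i => u (algebraMap K L (x i))) = fun i => v (x i) :=
    funext fun i => hu _ (h.x_ne i)
  have hz' : ResInd k u fun i => algebraMap K L (z i) :=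
    ResInd.map (IsScalarTower.toAlgHom k K L) hu h.z_val
  refine ⟨L, inferInstance, inferInstance, inferInstance, inferInstance, u, t₀, hu, htr0, happ,
    htop, hfg, h.rpos, fun i => (_root_.map_ne_zero _).2 (h.x_ne i), ?_, ?_, hz', ?_, ?_⟩
  · rw [hval]
    exact h.ind
  · intro g hg
    rw [hval]
    obtain ⟨f, hf⟩ := hdense g (u g + 1)
    have h1 : f ≠ 0 ∧ v f = u g := by
      by_cases h0 : g - algebraMap K L f = 0
      · rw [sub_eq_zero] at h0
        have hf0 : f ≠ 0 := by
          rintro rfl
          rw [map_zero] at h0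
          exact hg h0
        exact ⟨hf0, by rw [h0, hu f hf0]⟩
      · have h2 := hf h0
        have h3 : u g < u (-(g - algebraMap K L f)) := by
          rw [u.map_neg _ h0]; linarith
        have h4 := u.add_of_lt hg (neg_ne_zero.2 h0) h3
        have h5 : g + -(g - algebraMap K L f) = algebraMap K L f := by ring
        rw [h5] at h4
        have hf0 : f ≠ 0 := by
          rintro rfl
          exact h4.1 (map_zero _)
        exact ⟨hf0, by rw [← hu f hf0]; exact h4.2⟩
    rw [← h1.2]
    exact h.span f h1.1
  · intro g hg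
    obtain ⟨f, hf⟩ := hdense g 1
    have hfv : v.Ge 0 f := by
      intro hf0
      have h1 : u.Ge 0 (algebraMap K L f) := by
        have h2 : algebraMap K L f = g - (g - algebraMap K L f) := by ring
        rw [h2]
        exact hg.sub (hf.mono zero_le_one)
      have h3 := h1 ((_root_.map_ne_zero _).2 hf0)
      rwa [hu f hf0] at h3
    obtain ⟨P, hP, hPv⟩ := h.res f hfv
    let k₀ := IntermediateField.adjoin k (Set.range z)
    let k₁ := IntermediateField.adjoin k (Set.range fun i => algebraMap K L (z i))
    have hle : ∀ c : k₀, algebraMap K L c ∈ k₁ := by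
      intro c
      have h1 : k₀ ≤ k₁.comap (IsScalarTower.toAlgHom k K L) := by
        rw [IntermediateField.adjoin_le_iff]
        rintro _ ⟨i, rfl⟩
        exact IntermediateField.subset_adjoin _ _ ⟨i, rfl⟩
      exact h1 c.2
    let e : k₀ →+* k₁ :=
      { toFun := fun c => ⟨algebraMap K L c, hle c⟩
        map_one' := Subtype.ext (map_one _)
        map_mul' := fun a b => Subtype.ext (map_mul (algebraMap K L) _ _)
        map_zero' := Subtype.ext (map_zero _)
        map_add' := fun a b => Subtype.ext (map_add (algebraMap K L) _ _) }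
    refine ⟨P.map e, hP.map e, ?_⟩
    have h1 : aeval (algebraMap K L f) (P.map e) = algebraMap K L (aeval f P) := by
      rw [← aeval_algebraMap_apply, aeval_def, eval₂_map, aeval_def]
      rfl
    have h2 : VPos u (aeval (algebraMap K L f) (P.map e)) := by
      rw [h1]
      intro h0
      have h3 : aeval f P ≠ 0 := by
        intro h4
        rw [h4, map_zero] at h0
        exact h0 rfl
      rw [hu _ h3]
      exact hPv h3
    have hge : ∀ c : k₁, u.Ge 0 (algebraMap k₁ L c) := by
      intro c h0
      exact (resInd_triv hz' c.2 h0).ge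
    have hfu : u.Ge 0 (algebraMap K L f) := by
      have h3 : algebraMap K L f = g - (g - algebraMap K L f) := by ring
      rw [h3]
      exact hg.sub (hf.mono zero_le_one)
    have h3 := vpos_aeval_sub' u hge hg hfu (fun h0 => lt_of_lt_of_le one_pos (hf h0)) (P.map e)
    have h4 := h3.add h2
    rwa [sub_add_cancel] at h4
  · have h1 : Algebra.trdeg k K + Algebra.trdeg K L = Algebra.trdeg k L := trdeg_add_eq k K
    have h2 : Algebra.trdeg K L = 1 := by
      have h3 : AlgebraicIndependent K (fun _ : Fin 1 => t₀) := by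
        rw [algebraicIndependent_unique_type_iff]
        exact htr0
      have h4 := trdeg_coeff' h3
      rw [Set.range_const, htop] at h4
      rw [← (IntermediateField.topEquiv (F := K) (E := L)).trdeg_eq, h4]
      simp
    rw [← h1, h2, htr]
    push_cast
    ring

end Pool.Agent.LU2
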