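import Pool.Agent.Lib.LU2_h15z.One
import Pool.Agent.Lib.LU2_h15z.ZeroC
import Pool.Agent.Lib.LU2_h15z.ZeroD

/-! # LU2, defect 0: the valuation ring of `K` is the ring of a frame -/

set_option autoImplicit false

open Polynomial

namespace Pool.Agent.LU2

open Pool.Agent.H15JM (RVal)
open Pool.Agent.LU1 (VPos ResInd adj CtxD Ctx2 BF locv FracIs)

universe u

section

variable {k K : Type u} [Field k] [Field K] [Algebra k K] {V : ValuationSubring K} {v : RVal K}
  {r s : ℕ} {x : Fin r → K} {z : Fin s → K}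

theorem Entry.const_mem (h : Entry k V v r s x z) (c : k) : algebraMap k K c ∈ V := by
  rw [h.rel.mem_iff]
  intro h0
  rw [resInd_const h.z_val c (by rintro rfl; simp at h0)]

theorem Entry.alg (h : Entry k V v r s x z)
    (htr : Algebra.trdeg k K = ((r + s : ℕ) : Cardinal)) (g : K) :
    IsAlgebraic (Algebra.adjoin k (Set.range (Sum.elim x z))) g := by
  have hx : IndVal V x := h.rel.indVal_iff.2 ⟨h.x_ne, h.ind⟩
  have hz : IndRes k V z := by
    refine ⟨fun i => ?_, fun P hP => ?_⟩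
    · have h1 := h.z_val (MvPolynomial.X i) (MvPolynomial.X_ne_zero i)
      rw [MvPolynomial.aeval_X] at h1
      rw [h.rel.mem_iff]
      exact fun _ => h1.2.ge
    · by_contra hP0
      obtain ⟨h1, h2⟩ := h.z_val P hP0
      rw [h.rel.lt_one_iff h1, h2] at hP
      exact lt_irrefl _ hP
  have h1 := algInd_of_ind h.const_mem hx hz
  have h2 : IsTranscendenceBasis k (Sum.elim x z) := by
    refine h1.isTranscendenceBasis_of_lift_trdeg_le_of_finite ?_
    rw [htr]
    simp
  have h3 := h2.isAlgebraic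
  exact h3.isAlgebraic g

end

/-- The valuation ring of a function field without defect. -/
theorem Entry.exists_bf_zero {k K : Type u} [Field k] [Field K] [Algebra k K] (p : ℕ)
    (hp : p.Prime) [CharP k p] [PerfectField k] (hK : (⊤ : IntermediateField k K).FG)
    {V : ValuationSubring K} {v : RVal K} {r s : ℕ} {x : Fin r → K} {z : Fin s → K}
    (h : Entry k V v r s x z) (htr : Algebra.trdeg k K = ((r + s : ℕ) : Cardinal)) :
    ∃ B : BF (IntermediateField.adjoin k (Set.range z)) v, (∀ f, f ∈ B.R ↔ v.Ge 0 f) ∧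
      ∀ f, f ≠ 0 → B.Mono f := by
  classical
  obtain ⟨L, _, _, _, _, u, t, hu, htrt, happ, htop, hfg, hLD⟩ := h.exists_LD hK htr
  have hz' := hLD.z_val
  -- the model of `L`
  have hk' : ∀ c : k, algebraMap k L c ∈ vring u := fun c h0 => by
    rw [resInd_const hz' c (by rintro rfl; simp at h0)]
  have hzV : ∀ i, algebraMap K L (z i) ∈ vring u := by
    intro i
    have h1 := hz' (MvPolynomial.X i) (MvPolynomial.X_ne_zero i)
    rw [MvPolynomial.aeval_X] at h1
    exact fun _ => h1.2.ge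
  obtain ⟨A, hAfg, hAV, hfrac, hzA⟩ := exists_model hfg (vring u) hk'
    (Finset.univ.image fun i => algebraMap K L (z i)) (by
      intro f hf
      obtain ⟨i, -, rfl⟩ := Finset.mem_image.1 hf
      exact hzV i)
  obtain ⟨w, hw, hc, B, hF, hAB, hTB, -⟩ := hLD.exists_frame p hp hfg A hAfg
    (fun a ha => hAV a ha) hfrac (Finset.univ.image fun i => algebraMap K L (x i)) (by
      intro f hf
      obtain ⟨i, -, rfl⟩ := Finset.mem_image.1 hf
      exact (_root_.map_ne_zero _).2 (h.x_ne i))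
  -- the embedding of `K`
  let Ω := AlgebraicClosure L
  let ιL : L →ₐ[k] Ω := IsScalarTower.toAlgHom k L Ω
  let ι : K →ₐ[k] Ω := ιL.comp (IsScalarTower.toAlgHom k K L)
  have hι : Function.Injective ι := ι.toRingHom.injective
  have hwι : ∀ f : K, f ≠ 0 → w (ι f) = v f := by
    intro f hf
    have h1 : w (ι f) = u (algebraMap K L f) := hw _ ((_root_.map_ne_zero _).2 hf)
    rw [h1, hu f hf]
  have hzι : ResInd k w (fun i => ι (z i)) := ResInd.map ι hwι h.z_val
  let k₀ : IntermediateField k K := IntermediateField.adjoin k (Set.range z)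
  let C : IntermediateField k Ω := IntermediateField.adjoin k (Set.range fun i => ι (z i))
  have hCmap : k₀.map ι = C := by
    change (IntermediateField.adjoin k (Set.range z)).map ι = _
    rw [IntermediateField.adjoin_map, ← Set.range_comp]
    rfl
  have hCmem : ∀ c : Ω, c ∈ C ↔ ∃ c₀ ∈ k₀, ι c₀ = c := by
    intro c
    rw [← hCmap]
    exact Iff.rfl
  -- the base field of the frame
  have haev : ∀ P : MvPolynomial (Fin s) k, MvPolynomial.aeval (fun i => ι (z i)) P ∈ B.R := by
    intro P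
    have h1 : MvPolynomial.aeval (fun i => ι (z i)) P =
        algebraMap L Ω (MvPolynomial.aeval (fun i => algebraMap K L (z i)) P) :=
      (MvPolynomial.comp_aeval_apply (fun i => algebraMap K L (z i)) ιL P).symm
    rw [h1]
    refine hAB _ ?_
    have h2 : Algebra.adjoin k (Set.range fun i => algebraMap K L (z i)) ≤ A := by
      rw [Algebra.adjoin_le_iff]
      rintro _ ⟨i, rfl⟩
      exact hzA _ (Finset.mem_image_of_mem _ (Finset.mem_univ i))
    apply h2
    rw [Algebra.adjoin_range_eq_range_aeval]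
    exact ⟨P, rfl⟩
  have hCB : ∀ c ∈ C, c ∈ B.R := by
    intro c hcC
    obtain ⟨P, Q, hQ, -, rfl⟩ := resInd_mem hcC
    obtain ⟨h1, h2⟩ := hzι Q hQ
    rw [div_eq_mul_inv]
    exact B.R.mul_mem (haev P) (B.loc _ (haev Q) h1 h2)
  obtain ⟨B', hΓ, hχ, hy, hR⟩ := B.exists_over C hCB
  have hMono : ∀ f, B.Mono f → B'.Mono f := by
    rintro f ⟨h1, h2, h3, h4⟩
    refine ⟨h1, by rw [hΓ]; exact h2, ?_, ?_⟩
    · rw [hχ, hR]; exact h3
    · rw [hχ]; exact h4
  have h2 : Ctx2 C w r := hc.ctx2 C (fun c hcC hc0 => resInd_triv hzι hcC hc0)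
    (trdeg_coeff' (resInd_algInd hzι))
  -- `K` and `K(t)` over `C`
  have hCK : C ≤ ι.fieldRange := by
    intro c hcC
    obtain ⟨c₀, -, rfl⟩ := (hCmem c).1 hcC
    exact ⟨c₀, rfl⟩
  let KC : IntermediateField C Ω := IntermediateField.extendScalars hCK
  have hKC : ∀ f : Ω, f ∈ KC ↔ ∃ g : K, ι g = f := fun f => Iff.rfl
  let tΩ : Ω := algebraMap L Ω t
  have hadj : ∀ f : Ω, f ∈ adj KC tΩ ↔ f ∈ ιL.fieldRange := by
    intro f
    constructor
    · intro hf
      have hCL : C ≤ ιL.fieldRange := by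
        intro c hcC
        obtain ⟨c₀, -, rfl⟩ := (hCmem c).1 hcC
        exact ⟨algebraMap K L c₀, rfl⟩
      have h1 : adj KC tΩ ≤ IntermediateField.extendScalars hCL := by
        refine sup_le ?_ ?_
        · rintro _ ⟨g, rfl⟩
          exact ⟨algebraMap K L g, rfl⟩
        · rw [IntermediateField.adjoin_le_iff, Set.singleton_subset_iff]
          exact ⟨t, rfl⟩
      exact h1 hf
    · rintro ⟨g, rfl⟩
      let S : IntermediateField K L :=
        { carrier := {g | algebraMap L Ω g ∈ adj KC tΩ}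
          mul_mem' := fun {a b} ha hb => by
            change algebraMap L Ω (a * b) ∈ adj KC tΩ
            rw [map_mul]; exact mul_mem ha hb
          add_mem' := fun {a b} ha hb => by
            change algebraMap L Ω (a + b) ∈ adj KC tΩ
            rw [map_add]; exact add_mem ha hb
          algebraMap_mem' := fun a => LU1.le_adj KC tΩ ⟨a, rfl⟩
          inv_mem' := fun a ha => by
            change algebraMap L Ω a⁻¹ ∈ adj KC tΩ
            rw [map_inv₀]; exact inv_mem ha }
      have h1 : IntermediateField.adjoin K {t} ≤ S := by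
        rw [IntermediateField.adjoin_le_iff, Set.singleton_subset_iff]
        exact LU1.mem_adj KC tΩ
      rw [htop] at h1
      exact h1 (IntermediateField.mem_top (x := g))
  have hF' : FracIs B'.R (adj KC tΩ) := by
    refine ⟨fun f hf => (hadj f).2 (hF.1 f ((hR f).1 hf)), fun g hg => ?_⟩
    obtain ⟨a, ha, b, hb, hb0, hab⟩ := hF.2 g ((hadj g).1 hg)
    exact ⟨a, (hR a).2 ha, b, (hR b).2 hb, hb0, hab⟩
  have htrΩ : Transcendental KC tΩ := by
    intro halg
    let f : K →+* KC :=
      { toFun := fun g => ⟨ι g, ⟨g, rfl⟩⟩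
        map_one' := Subtype.ext (map_one ι)
        map_mul' := fun a b => Subtype.ext (map_mul ι _ _)
        map_zero' := Subtype.ext (map_zero ι)
        map_add' := fun a b => Subtype.ext (map_add ι _ _) }
    refine htrt (IsAlgebraic.of_ringHom_of_comp_eq (S := KC) (B := Ω) f (algebraMap L Ω) halg
      ?_ (algebraMap L Ω).injective ?_)
    · rintro ⟨_, ⟨g, rfl⟩⟩
      exact ⟨g, rfl⟩
    · rfl
  have hlim : ∀ δ : ℝ, ∃ c ∈ KC, w.Ge δ (tΩ - c) := by
    intro δ
    obtain ⟨c, hcδ⟩ := happ δ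
    refine ⟨ι c, ⟨c, rfl⟩, ?_⟩
    have h1 : tΩ - ι c = algebraMap L Ω (t - algebraMap K L c) := (map_sub _ _ _).symm
    rw [h1]
    intro h0
    have h3 : t - algebraMap K L c ≠ 0 := by
      intro h4
      rw [h4, map_zero] at h0
      exact h0 rfl
    rw [hw _ h3]
    exact hcδ h3
  have hxM : ∀ i, B'.Mono (ι (x i)) := fun i =>
    hMono _ (hTB _ (Finset.mem_image_of_mem _ (Finset.mem_univ i)))
  have hxv : (fun i => w (ι (x i))) = fun i => v (x i) := funext fun i => hwι _ (h.x_ne i)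
  have hind : LinearIndependent ℚ fun i => w (ι (x i)) := by
    rw [hxv]
    exact h.ind
  have halg : ∀ g ∈ KC, IsAlgebraic (Algebra.adjoin C (Set.range fun i => ι (x i))) g := by
    rintro _ ⟨g, rfl⟩
    let S := Algebra.adjoin k (Set.range (Sum.elim x z))
    have hS : ∀ a ∈ S, ι a ∈ Algebra.adjoin C (Set.range fun i => ι (x i)) := by
      intro a ha
      induction ha using Algebra.adjoin_induction with
      | mem a ha =>
        obtain ⟨i, rfl⟩ := ha
        rcases i with i | i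
        · exact Algebra.subset_adjoin ⟨i, rfl⟩
        · have h3 : ι (z i) ∈ C := IntermediateField.subset_adjoin _ _ ⟨i, rfl⟩
          exact Subalgebra.algebraMap_mem _ (⟨ι (z i), h3⟩ : C)
      | algebraMap c =>
        have h3 : ι (algebraMap k K c) ∈ C := by
          rw [ι.commutes]
          exact C.algebraMap_mem c
        exact Subalgebra.algebraMap_mem _ (⟨_, h3⟩ : C)
      | add a b _ _ ha hb => rw [map_add]; exact add_mem ha hb
      | mul a b _ _ ha hb => rw [map_mul]; exact mul_mem ha hb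
    let f : S →+* Algebra.adjoin C (Set.range fun i => ι (x i)) :=
      { toFun := fun a => ⟨ι a, hS a a.2⟩
        map_one' := Subtype.ext (map_one ι)
        map_mul' := fun a b => Subtype.ext (map_mul ι _ _)
        map_zero' := Subtype.ext (map_zero ι)
        map_add' := fun a b => Subtype.ext (map_add ι _ _) }
    refine IsAlgebraic.ringHom_of_comp_eq (S := Algebra.adjoin C (Set.range fun i => ι (x i)))
      (B := Ω) f ι.toRingHom (h.alg htr g) ?_ ?_
    · intro a b hab
      exact Subtype.ext (hι (congrArg Subtype.val hab))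
    · rfl
  obtain ⟨F, χ, hFK, hχK, hχadd, hgen⟩ := LU1.zero_struct h2 B' KC tΩ hF' htrΩ hlim hxM hind halg
  have hMonoK : ∀ f ∈ KC, f ≠ 0 → B'.Mono f := fun f hf hf0 =>
    B'.mono_of_alg h2 KC (fun f hf => hF'.2 f (LU1.le_adj KC tΩ hf)) hxM (fun i => ⟨x i, rfl⟩)
      hind halg hf hf0
  -- pull back to `K`
  have hΓK : ∀ f : K, f ≠ 0 → v f ∈ B'.Γ := by
    intro f hf
    have h3 := (hMonoK (ι f) ⟨f, rfl⟩ ((_root_.map_ne_zero ι).2 hf)).2.1
    rwa [hwι f hf] at h3
  have hχ0 : ∀ γ, ∃ g : K, γ ∈ B'.Γ → ι g = χ γ := by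
    intro γ
    by_cases hγ : γ ∈ B'.Γ
    · obtain ⟨g, hg⟩ := (hχK γ hγ).1
      exact ⟨g, fun _ => hg⟩
    · exact ⟨0, fun h => absurd h hγ⟩
  choose χ' hχ' using hχ0
  have hχne : ∀ γ ∈ B'.Γ, χ' γ ≠ 0 := by
    intro γ hγ h0
    apply (hχK γ hγ).2.1
    rw [← hχ' γ hγ, h0, map_zero]
  have hχval : ∀ γ ∈ B'.Γ, v (χ' γ) = γ := by
    intro γ hγ
    rw [← hwι _ (hχne γ hγ), hχ' γ hγ]
    exact (hχK γ hγ).2.2
  have hχadd' : ∀ γ ∈ B'.Γ, ∀ δ ∈ B'.Γ, χ' (γ + δ) = χ' γ * χ' δ := by
    intro γ hγ δ hδ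
    apply hι
    rw [hχ' _ (B'.Γ.add_mem hγ hδ), map_mul, hχ' γ hγ, hχ' δ hδ]
    exact hχadd γ hγ δ hδ
  let F' : Finset K := F.preimage ι hι.injOn
  let S' : Set K := (F' : Set K) ∪ χ' '' {γ | γ ∈ B'.Γ ∧ 0 ≤ γ}
  have hlift : ∀ a ∈ Algebra.adjoin C ((F : Set Ω) ∪ χ '' {γ | γ ∈ B'.Γ ∧ 0 ≤ γ}),
      ∃ a₀ ∈ Algebra.adjoin k₀ S', ι a₀ = a := by
    intro a ha
    induction ha using Algebra.adjoin_induction with
    | mem a ha =>
      rcases ha with ha | ⟨γ, ⟨hγ, hγ0⟩, rfl⟩
      · obtain ⟨g, hg⟩ := (hFK a (Finset.mem_coe.1 ha)).1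
        have hg' : ι g = a := hg
        refine ⟨g, Algebra.subset_adjoin (Or.inl (Finset.mem_coe.2 (Finset.mem_preimage.2 ?_))),
          hg'⟩
        rw [hg']
        exact Finset.mem_coe.1 ha
      · exact ⟨χ' γ, Algebra.subset_adjoin (Or.inr ⟨γ, ⟨hγ, hγ0⟩, rfl⟩), hχ' γ hγ⟩
    | algebraMap c =>
      obtain ⟨c₀, hc₀, hcc⟩ := (hCmem (c : Ω)).1 c.2
      exact ⟨c₀, Subalgebra.algebraMap_mem _ (⟨c₀, hc₀⟩ : k₀), hcc⟩
    | add a b _ _ ha hb =>
      obtain ⟨a₀, ha₀, rfl⟩ := ha
      obtain ⟨b₀, hb₀, rfl⟩ := hb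
      exact ⟨a₀ + b₀, add_mem ha₀ hb₀, map_add ι _ _⟩
    | mul a b _ _ ha hb =>
      obtain ⟨a₀, ha₀, rfl⟩ := ha
      obtain ⟨b₀, hb₀, rfl⟩ := hb
      exact ⟨a₀ * b₀, mul_mem ha₀ hb₀, map_mul ι _ _⟩
  let R : Subalgebra k₀ K :=
    { carrier := {f | v.Ge 0 f}
      mul_mem' := by
        intro a b ha hb
        have h := ha.mul hb
        rwa [add_zero] at h
      add_mem' := fun ha hb => ha.add hb
      algebraMap_mem' := fun c h0 => (resInd_triv h.z_val c.2 h0).ge }
  have hRmem : ∀ f, f ∈ R ↔ v.Ge 0 f := fun f => Iff.rfl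
  obtain ⟨X, hX0, hX⟩ : ∃ X : K, X ≠ 0 ∧ 0 < v X := by
    have h0 : v (x ⟨0, h.rpos⟩) ≠ 0 := h.ind.ne_zero ⟨0, h.rpos⟩
    rcases lt_or_gt_of_ne h0 with h1 | h1
    · exact ⟨(x ⟨0, h.rpos⟩)⁻¹, inv_ne_zero (h.x_ne _), by rw [v.map_inv (h.x_ne _)]; linarith⟩
    · exact ⟨_, h.x_ne _, h1⟩
  have hX1 : v X ∈ B'.Γ := hΓK X hX0
  have hdiv : ∀ f : K, f ≠ 0 → v (f / χ' (v f)) = 0 := by
    intro f hf
    rw [v.map_div hf (hχne _ (hΓK f hf)), hχval _ (hΓK f hf), sub_self]
  let B₀ : BF k₀ v :=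
    { Γ := B'.Γ
      fg := B'.fg
      full := fun g hg => ⟨1, one_pos, by rw [Nat.cast_one, one_mul]; exact hΓK g hg⟩
      χ := χ'
      χ_ne := hχne
      χ_add := hχadd'
      χ_val := hχval
      y := χ' (v X)
      y_ne := hχne _ hX1
      y_pos := by rw [hχval _ hX1]; exact hX
      R := R
      nonneg := fun f hf => hf
      loc := fun f _ h0 hv _ => by rw [v.map_inv h0, hv, neg_zero]
      χ_mem := fun γ hγ h0 _ => by rw [hχval γ hγ]; exact h0
      y_mem := fun _ => by rw [hχval _ hX1]; exact hX.le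
      fgen := by
        refine ⟨F', le_antisymm ?_ ?_⟩
        · intro f hf
          have h3 : w.Ge 0 (ι f) := by
            intro h0
            have h4 : f ≠ 0 := by
              rintro rfl
              exact h0 (map_zero ι)
            rw [hwι f h4]
            exact hf h4
          obtain ⟨a, ha, b, hb, hb0, hvb, hab⟩ := hgen (ι f) ⟨f, rfl⟩ h3
          obtain ⟨a₀, ha₀, rfl⟩ := hlift a ha
          obtain ⟨b₀, hb₀, rfl⟩ := hlift b hb
          have hb1 : b₀ ≠ 0 := by
            rintro rfl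
            exact hb0 (map_zero ι)
          refine ⟨a₀, ha₀, b₀, hb₀, hb1, ?_, ?_⟩
          · rw [← hwι b₀ hb1]
            exact hvb
          · apply hι
            rw [hab, map_div₀]
        · have h4 : ∀ a ∈ Algebra.adjoin k₀ S', v.Ge 0 a := by
            intro a ha
            induction ha using Algebra.adjoin_induction with
            | mem a ha =>
              rcases ha with ha | ⟨γ, ⟨hγ, hγ0⟩, rfl⟩
              · have h5 := (hFK (ι a) (Finset.mem_preimage.1 (Finset.mem_coe.1 ha))).2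
                intro h0
                rw [← hwι a h0]
                exact h5 ((_root_.map_ne_zero ι).2 h0)
              · intro _
                rw [hχval γ hγ]
                exact hγ0
            | algebraMap c => exact fun h0 => (resInd_triv h.z_val c.2 h0).ge
            | add a b _ _ ha hb => exact ha.add hb
            | mul a b _ _ ha hb => simpa using ha.mul hb
          rintro f ⟨a, ha, b, hb, hb0, hvb, rfl⟩ h0
          have ha0 : a ≠ 0 := by
            rintro rfl
            exact h0 (zero_div _)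
          rw [v.map_div ha0 hb0, hvb, sub_zero]
          exact h4 a ha ha0
      gen := by
        intro f hf hfv
        by_cases hf0 : f = 0
        · exact ⟨v X, hX1, hX, 0, R.zero_mem, 0, R.zero_mem, by rw [hf0]; simp⟩
        · refine ⟨v f, hΓK f hf0, hfv hf0, f / χ' (v f), ?_, 0, R.zero_mem, ?_⟩
          · intro _
            rw [hdiv f hf0]
          · rw [mul_zero, add_zero, mul_div_cancel₀ _ (hχne _ (hΓK f hf0))]
      alg := by
        intro g
        by_cases hg0 : g = 0
        · rw [hg0]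
          exact isAlgebraic_zero
        rcases le_total 0 (v g) with h3 | h3
        · exact isAlgebraic_algebraMap (⟨g, fun _ => h3⟩ : R)
        · have h4 : v.Ge 0 g⁻¹ := fun _ => by rw [v.map_inv hg0]; linarith
          have h5 : IsAlgebraic R g⁻¹ := isAlgebraic_algebraMap (⟨g⁻¹, h4⟩ : R)
          have h6 := h5.inv
          rwa [inv_inv] at h6 }
  refine ⟨B₀, hRmem, fun f hf => ⟨hf, hΓK f hf, ?_, div_ne_zero hf (hχne _ (hΓK f hf)),
    hdiv f hf⟩⟩
  intro _
  exact (hdiv f hf).ge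

end Pool.Agent.LU2
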